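import Pool.Agent.W122.DS.Defs

/-!
# Finite product expectations
-/

set_option autoImplicit false
set_option linter.unusedSectionVars false

namespace Pool.Agent.W122.DS.Core

open Finset

variable {V S : Type} [Fintype V] [DecidableEq V] [Fintype S] [DecidableEq S] {p : V → S → ℝ}

lemma wt_nonneg (hp : IsPr p) (ω : V → S) : 0 ≤ ∏ x, p x (ω x) :=
  Finset.prod_nonneg fun x _ => hp.nonneg x _

lemma sum_wt (hp : IsPr p) : ∑ ω : V → S, ∏ x, p x (ω x) = 1 := by
  have h := Finset.prod_univ_sum (fun _ : V => (Finset.univ : Finset S)) (fun x s => p x s)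
  rw [Fintype.piFinset_univ] at h
  rw [← h]
  exact Finset.prod_eq_one fun x _ => hp.sum x

lemma Ex_add (F G : (V → S) → ℝ) : Ex p (fun ω => F ω + G ω) = Ex p F + Ex p G := by
  unfold Ex
  rw [← Finset.sum_add_distrib]
  exact Finset.sum_congr rfl fun ω _ => by ring

lemma Ex_sub (F G : (V → S) → ℝ) : Ex p (fun ω => F ω - G ω) = Ex p F - Ex p G := by
  unfold Ex
  rw [← Finset.sum_sub_distrib]
  exact Finset.sum_congr rfl fun ω _ => by ring

lemma Ex_mul_left (c : ℝ) (F : (V → S) → ℝ) : Ex p (fun ω => c * F ω) = c * Ex p F := by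
  unfold Ex
  rw [Finset.mul_sum]
  exact Finset.sum_congr rfl fun ω _ => by ring

lemma Ex_const (hp : IsPr p) (c : ℝ) : Ex p (fun _ : V → S => c) = c := by
  unfold Ex
  rw [← Finset.sum_mul, sum_wt hp, one_mul]

lemma Ex_mono (hp : IsPr p) {F G : (V → S) → ℝ} (h : ∀ ω, F ω ≤ G ω) : Ex p F ≤ Ex p G := by
  unfold Ex
  exact Finset.sum_le_sum fun ω _ => mul_le_mul_of_nonneg_left (h ω) (wt_nonneg hp ω)

lemma Ex_nonneg (hp : IsPr p) {F : (V → S) → ℝ} (h : ∀ ω, 0 ≤ F ω) : 0 ≤ Ex p F := by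
  unfold Ex
  exact Finset.sum_nonneg fun ω _ => mul_nonneg (wt_nonneg hp ω) (h ω)

lemma Ex_sum {ι : Type*} (s : Finset ι) (F : ι → (V → S) → ℝ) :
    Ex p (fun ω => ∑ j ∈ s, F j ω) = ∑ j ∈ s, Ex p (F j) := by
  unfold Ex
  rw [Finset.sum_comm]
  exact Finset.sum_congr rfl fun ω _ => by rw [Finset.mul_sum]

lemma Ex_abs_le (hp : IsPr p) (F : (V → S) → ℝ) : |Ex p F| ≤ Ex p (fun ω => |F ω|) := by
  unfold Ex
  refine (Finset.abs_sum_le_sum_abs _ _).trans ?_
  refine Finset.sum_le_sum fun ω _ => ?_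
  rw [abs_mul, abs_of_nonneg (wt_nonneg hp ω)]

lemma Ex_le_const (hp : IsPr p) {F : (V → S) → ℝ} {c : ℝ} (h : ∀ ω, F ω ≤ c) : Ex p F ≤ c := by
  have := Ex_mono hp h
  rwa [Ex_const hp] at this

lemma wt_update (i : V) (ω : V → S) (s : S) :
    (∏ x, p x (Function.update ω i s x)) * p i (ω i) = (∏ x, p x (ω x)) * p i s := by
  rw [← Finset.mul_prod_erase Finset.univ (fun x => p x (Function.update ω i s x))
    (Finset.mem_univ i), ← Finset.mul_prod_erase Finset.univ (fun x => p x (ω x))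
    (Finset.mem_univ i)]
  have : ∏ x ∈ Finset.univ.erase i, p x (Function.update ω i s x)
      = ∏ x ∈ Finset.univ.erase i, p x (ω x) := by
    refine Finset.prod_congr rfl fun x hx => ?_
    rw [Function.update_of_ne (Finset.ne_of_mem_erase hx)]
  rw [this, Function.update_self]
  ring

/-- Resampling one coordinate is reversible. -/
lemma exch (i : V) (Φ : (V → S) → (V → S) → ℝ) :
    Ex p (fun ω => ∑ s, p i s * Φ ω (Function.update ω i s))
      = Ex p (fun ω => ∑ s, p i s * Φ (Function.update ω i s) ω) := by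
  have key : ∀ Ψ : (V → S) → (V → S) → ℝ, Ex p (fun ω => ∑ s, p i s * Ψ ω (Function.update ω i s))
      = ∑ q : (V → S) × S, (∏ x, p x (q.1 x)) * (p i q.2 * Ψ q.1 (Function.update q.1 i q.2)) := by
    intro Ψ
    unfold Ex
    rw [Fintype.sum_prod_type]
    exact Finset.sum_congr rfl fun ω _ => by rw [Finset.mul_sum]
  have hinv : Function.Involutive (fun q : (V → S) × S => (Function.update q.1 i q.2, q.1 i)) := by
    rintro ⟨ω, s⟩
    simp only [Function.update_self, Function.update_idem, Function.update_eq_self]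
  rw [key Φ, key (fun ω ω' => Φ ω' ω), ← Equiv.sum_comp hinv.toPerm]
  refine Finset.sum_congr rfl fun q _ => ?_
  obtain ⟨ω, s⟩ := q
  simp only [Function.Involutive.coe_toPerm, Function.update_idem, Function.update_eq_self]
  have := wt_update (p := p) i ω s
  calc _ = ((∏ x, p x (Function.update ω i s x)) * p i (ω i)) * Φ (Function.update ω i s) ω := by
        ring
    _ = _ := by rw [this]; ring

/-- A letter of mean zero is almost orthogonal to a function which depends little on it. -/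
lemma mean_zero (hp : IsPr p) (v : V → S → ℝ) (i : V) (hv : ∀ s, |v i s| ≤ 2)
    (hm : ∑ s, p i s * v i s = 0) (F : (V → S) → ℝ) (D : ℝ)
    (hD : ∀ ω s, |F ω - F (Function.update ω i s)| ≤ D) :
    |Ex p (fun ω => v i (ω i) * F ω)| ≤ 2 * D := by
  have h0 : Ex p (fun ω => ∑ s, p i s * (v i (ω i) * F (Function.update ω i s))) = 0 := by
    rw [exch i (fun ω ω' => v i (ω i) * F ω')]
    have : ∀ ω : V → S, ∑ s, p i s * (v i (Function.update ω i s i) * F ω) = 0 := by
      intro ω
      have h1 : ∀ s, p i s * (v i (Function.update ω i s i) * F ω) = (p i s * v i s) * F ω := by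
        intro s
        rw [Function.update_self]
        ring
      rw [Finset.sum_congr rfl fun s _ => h1 s, ← Finset.sum_mul, hm, zero_mul]
    unfold Ex
    refine Finset.sum_eq_zero fun ω _ => ?_
    simp only
    rw [this ω, mul_zero]
  have h1 : Ex p (fun ω => v i (ω i) * F ω)
      = Ex p (fun ω => ∑ s, p i s * (v i (ω i) * (F ω - F (Function.update ω i s)))) := by
    have h2 : ∀ ω : V → S, ∑ s, p i s * (v i (ω i) * (F ω - F (Function.update ω i s)))
        = v i (ω i) * F ω - ∑ s, p i s * (v i (ω i) * F (Function.update ω i s)) := by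
      intro ω
      have h3 : v i (ω i) * F ω = ∑ s, p i s * (v i (ω i) * F ω) := by
        rw [← Finset.sum_mul, hp.sum i, one_mul]
      rw [h3, ← Finset.sum_sub_distrib]
      exact Finset.sum_congr rfl fun s _ => by ring
    have h4 : (fun ω : V → S => ∑ s, p i s * (v i (ω i) * (F ω - F (Function.update ω i s))))
        = fun ω => v i (ω i) * F ω - ∑ s, p i s * (v i (ω i) * F (Function.update ω i s)) :=
      funext h2
    rw [h4, Ex_sub, h0, sub_zero]
  rw [h1]
  refine (Ex_abs_le hp _).trans (Ex_le_const hp fun ω => ?_)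
  refine (Finset.abs_sum_le_sum_abs _ _).trans ?_
  calc ∑ s, |p i s * (v i (ω i) * (F ω - F (Function.update ω i s)))|
      ≤ ∑ s, p i s * (2 * D) := by
        refine Finset.sum_le_sum fun s _ => ?_
        rw [abs_mul, abs_of_nonneg (hp.nonneg i s), abs_mul]
        refine mul_le_mul_of_nonneg_left ?_ (hp.nonneg i s)
        exact mul_le_mul (hv _) (hD ω s) (abs_nonneg _) (by norm_num)
    _ = 2 * D := by rw [← Finset.sum_mul, hp.sum i, one_mul]

section Prob

open Classical in
lemma Pr_def (A : (V → S) → Prop) : Pr p A = Ex p (fun ω => if A ω then 1 else 0) := rfl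

lemma Pr_nonneg (hp : IsPr p) (A : (V → S) → Prop) : 0 ≤ Pr p A := by
  classical
  rw [Pr_def]
  exact Ex_nonneg hp fun ω => by split_ifs <;> norm_num

lemma Pr_le_one (hp : IsPr p) (A : (V → S) → Prop) : Pr p A ≤ 1 := by
  classical
  rw [Pr_def]
  exact Ex_le_const hp fun ω => by split_ifs <;> norm_num

lemma Pr_mono (hp : IsPr p) {A B : (V → S) → Prop} (h : ∀ ω, A ω → B ω) : Pr p A ≤ Pr p B := by
  classical
  rw [Pr_def, Pr_def]
  refine Ex_mono hp fun ω => ?_
  by_cases hA : A ω
  · rw [if_pos hA, if_pos (h ω hA)]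
  · rw [if_neg hA]
    split_ifs <;> norm_num

lemma Pr_not (hp : IsPr p) (A : (V → S) → Prop) : Pr p (fun ω => ¬ A ω) = 1 - Pr p A := by
  classical
  have h1 : Ex p (fun _ : V → S => (1 : ℝ)) = 1 := Ex_const hp 1
  rw [Pr_def, Pr_def]
  nth_rewrite 2 [← h1]
  rw [← Ex_sub]
  congr 1
  funext ω
  by_cases hA : A ω
  · simp [hA]
  · simp [hA]

lemma Pr_or (hp : IsPr p) (A B : (V → S) → Prop) :
    Pr p (fun ω => A ω ∨ B ω) ≤ Pr p A + Pr p B := by
  classical
  rw [Pr_def, Pr_def, Pr_def, ← Ex_add]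
  refine Ex_mono hp fun ω => ?_
  by_cases h1 : A ω <;> by_cases h2 : B ω <;> simp [h1, h2]

lemma Pr_exists (hp : IsPr p) {τ : Type*} [Fintype τ] (A : τ → (V → S) → Prop) :
    Pr p (fun ω => ∃ t, A t ω) ≤ ∑ t, Pr p (A t) := by
  classical
  simp_rw [Pr_def]
  rw [← Ex_sum]
  refine Ex_mono hp fun ω => ?_
  by_cases h : ∃ t, A t ω
  · rw [if_pos h]
    obtain ⟨t, ht⟩ := h
    have h1 : (if A t ω then (1 : ℝ) else 0) = 1 := if_pos ht
    refine h1.ge.trans ?_
    exact Finset.single_le_sum (f := fun t => if A t ω then (1 : ℝ) else 0)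
      (fun t _ => by split_ifs <;> norm_num) (Finset.mem_univ t)
  · rw [if_neg h]
    exact Finset.sum_nonneg fun t _ => by split_ifs <;> norm_num

end Prob

end Pool.Agent.W122.DS.Core
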