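import Pool.Agent.W122.DS.Flip

/-!
# Concentration of the solution inside the good set
-/

set_option autoImplicit false
set_option linter.unusedSectionVars false

namespace Pool.Agent.W122.DS.Core

open Finset

variable {V S : Type} [Fintype V] [DecidableEq V] [Fintype S] [DecidableEq S]
variable {A : V → V → ℝ} {b : V → ℝ} {η : ℝ}
variable {a : V → ℝ} {Cs : ℝ} {ρ τ k : V → ℝ} {p v : V → S → ℝ}

/-- Comparison of the solutions at two configurations. -/
lemma psi_cmp (h : Hyp A b η a Cs ρ τ k p v) (W : V → ℝ) {l : ℝ} (hl0 : 0 ≤ l) (hl1 : l ≤ 1)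
    (ω ω' : V → S) (hU : Good A b η (pot a v W l ω)) (hU' : Good A b η (pot a v W l ω')) (x : V) :
    psi A b (pot a v W l ω) x - psi A b (pot a v W l ω') x
      ≤ ∑ y, (22 / 5 * (a y * |Gr A b (pot a v W l ω) x y|)) * (if ω y ≠ ω' y then 1 else 0) := by
  rw [psi_sub h.net h.η2 hU hU' x]
  refine Finset.sum_le_sum fun y _ => ?_
  by_cases hy : ω y = ω' y
  · rw [if_neg (by simpa using hy), mul_zero]
    have : pot a v W l ω' y - pot a v W l ω y = 0 := by
      unfold pot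
      rw [hy]
      ring
    rw [this]
    simp
  · rw [if_pos hy, mul_one]
    refine (le_abs_self _).trans ?_
    rw [abs_mul, abs_mul]
    have ha := h.a0 y
    have h1 : |pot a v W l ω' y - pot a v W l ω y| ≤ 4 * a y := by
      have e : pot a v W l ω' y - pot a v W l ω y = l * (a y * (v y (ω' y) - v y (ω y))) := by
        unfold pot
        ring
      rw [e, abs_mul, abs_mul, abs_of_nonneg hl0, abs_of_nonneg ha]
      have h1 : |v y (ω' y) - v y (ω y)| ≤ 4 := by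
        have h2 := abs_sub (v y (ω' y)) (v y (ω y))
        have h3 := h.law.bdd y (ω' y)
        have h4 := h.law.bdd y (ω y)
        linarith
      have h5 : a y * |v y (ω' y) - v y (ω y)| ≤ a y * 4 := mul_le_mul_of_nonneg_left h1 ha
      have h6 : 0 ≤ a y * |v y (ω' y) - v y (ω y)| := by positivity
      nlinarith
    have h2 : |psi A b (pot a v W l ω') y| ≤ 11 / 10 := by
      have h3 := (psi_spec h.net h.η2 hU').1 y
      have h4 := h.η1
      rw [abs_le] at h3 ⊢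
      constructor <;> linarith [h3.1, h3.2]
    have h3 : |pot a v W l ω' y - pot a v W l ω y| * |psi A b (pot a v W l ω') y|
        ≤ 4 * a y * (11 / 10) := mul_le_mul h1 h2 (abs_nonneg _) (by linarith)
    have h4 := mul_le_mul_of_nonneg_left h3 (abs_nonneg (Gr A b (pot a v W l ω) x y))
    refine h4.trans (le_of_eq ?_)
    ring

/-- The concentration inequality inside the good set. -/
lemma conc (tal : StmTal) (h : Hyp A b η a Cs ρ τ k p v) (W : V → ℝ) {l : ℝ} (hl0 : 0 ≤ l)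
    (hl1 : l ≤ 1) (x : V) (m r kk : ℝ)
    (hk : ∀ ω : V → S, Good A b η (pot a v W l ω) → ∀ q : V → ℝ, (∀ y, 0 ≤ q y) →
      (∀ y, q y ≤ 1) → ∑ y, q y ^ 2 < kk →
      ∑ y, (22 / 5 * (a y * |Gr A b (pot a v W l ω) x y|)) * q y < r) :
    Pr p (fun ω => Good A b η (pot a v W l ω) ∧ psi A b (pot a v W l ω) x ≤ m)
      * Pr p (fun ω => Good A b η (pot a v W l ω) ∧ m + r ≤ psi A b (pot a v W l ω) x)
      ≤ Real.exp (-(kk / 4)) := by
  refine tal V S p h.law.pr _ _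
    (fun ω y => 22 / 5 * (a y * |Gr A b (pot a v W l ω) x y|)) r kk ?_ ?_
  · intro ω ω' h1 h2
    refine le_trans ?_ (psi_cmp h W hl0 hl1 ω ω' h1.1 h2.1 x)
    have := h1.2
    have := h2.2
    linarith
  · intro ω h1 q h2 h3 h4
    exact hk ω h1.1 q h2 h3 h4

/-- A median of a function on an event. -/
lemma exists_median (hp : IsPr p) (G : (V → S) → Prop) (f : (V → S) → ℝ) :
    ∃ M : ℝ, Pr p G / 2 ≤ Pr p (fun ω => G ω ∧ f ω ≤ M) ∧
      Pr p G / 2 ≤ Pr p (fun ω => G ω ∧ M ≤ f ω) := by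
  classical
  have hne : Nonempty (V → S) := by
    by_contra hc
    rw [not_nonempty_iff] at hc
    have := sum_wt hp
    rw [Finset.univ_eq_empty, Finset.sum_empty] at this
    exact zero_ne_one this
  have hG := Pr_nonneg hp G
  set T : Finset ℝ := Finset.univ.image f with hT
  have hTne : T.Nonempty := by
    obtain ⟨ω⟩ := hne
    exact ⟨f ω, Finset.mem_image_of_mem f (Finset.mem_univ ω)⟩
  have hmem : ∀ ω, f ω ∈ T := fun ω => Finset.mem_image_of_mem f (Finset.mem_univ ω)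
  set T' : Finset ℝ := T.filter (fun t => Pr p G / 2 ≤ Pr p (fun ω => G ω ∧ t ≤ f ω)) with hT'
  have hT'ne : T'.Nonempty := by
    refine ⟨T.min' hTne, ?_⟩
    rw [hT', Finset.mem_filter]
    refine ⟨T.min'_mem hTne, ?_⟩
    have : Pr p G ≤ Pr p (fun ω => G ω ∧ T.min' hTne ≤ f ω) :=
      Pr_mono hp fun ω hω => ⟨hω, T.min'_le _ (hmem ω)⟩
    linarith
  set M := T'.max' hT'ne with hM
  have hM1 : M ∈ T' := T'.max'_mem hT'ne
  refine ⟨M, ?_, (Finset.mem_filter.1 hM1).2⟩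
  set T2 : Finset ℝ := T.filter (fun t => M < t) with hT2
  by_cases hE : T2.Nonempty
  · set M2 := T2.min' hE with hM2
    have h1 : M2 ∈ T2 := T2.min'_mem hE
    have h2 := Finset.mem_filter.1 h1
    have h3 : ¬ Pr p G / 2 ≤ Pr p (fun ω => G ω ∧ M2 ≤ f ω) := by
      intro hc
      have h4 : M2 ∈ T' := Finset.mem_filter.2 ⟨h2.1, hc⟩
      have h5 := T'.le_max' M2 h4
      exact absurd h2.2 (not_lt.2 h5)
    push Not at h3
    have h4 : Pr p G ≤ Pr p (fun ω => (G ω ∧ f ω ≤ M) ∨ (G ω ∧ M2 ≤ f ω)) := by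
      refine Pr_mono hp fun ω hω => ?_
      by_cases h5 : f ω ≤ M
      · exact Or.inl ⟨hω, h5⟩
      · refine Or.inr ⟨hω, ?_⟩
        exact T2.min'_le _ (Finset.mem_filter.2 ⟨hmem ω, not_le.1 h5⟩)
    have h5 := h4.trans (Pr_or hp _ _)
    linarith
  · have h1 : ∀ ω, f ω ≤ M := by
      intro ω
      by_contra hc
      exact hE ⟨f ω, Finset.mem_filter.2 ⟨hmem ω, not_le.1 hc⟩⟩
    have : Pr p G ≤ Pr p (fun ω => G ω ∧ f ω ≤ M) := Pr_mono hp fun ω hω => ⟨hω, h1 ω⟩
    linarith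

/-- The tail around the median. -/
lemma tail (tal : StmTal) (h : Hyp A b η a Cs ρ τ k p v) (W : V → ℝ) {l : ℝ} (hl0 : 0 ≤ l)
    (hl1 : l ≤ 1) (x : V) (M r kk : ℝ)
    (hY : 1 / 2 ≤ Pr p (fun ω => Good A b η (pot a v W l ω)))
    (hM1 : Pr p (fun ω => Good A b η (pot a v W l ω)) / 2 ≤
      Pr p (fun ω => Good A b η (pot a v W l ω) ∧ psi A b (pot a v W l ω) x ≤ M))
    (hM2 : Pr p (fun ω => Good A b η (pot a v W l ω)) / 2 ≤
      Pr p (fun ω => Good A b η (pot a v W l ω) ∧ M ≤ psi A b (pot a v W l ω) x))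
    (hk : ∀ ω : V → S, Good A b η (pot a v W l ω) → ∀ q : V → ℝ, (∀ y, 0 ≤ q y) →
      (∀ y, q y ≤ 1) → ∑ y, q y ^ 2 < kk →
      ∑ y, (22 / 5 * (a y * |Gr A b (pot a v W l ω) x y|)) * q y < r) :
    Pr p (fun ω => Good A b η (pot a v W l ω) ∧ r ≤ |psi A b (pot a v W l ω) x - M|)
      ≤ 8 * Real.exp (-(kk / 4)) := by
  have hp := h.law.pr
  have h1 := conc tal h W hl0 hl1 x M r kk hk
  have h2 := conc tal h W hl0 hl1 x (M - r) r kk hk
  rw [sub_add_cancel] at h2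
  set PA := Pr p (fun ω => Good A b η (pot a v W l ω) ∧ psi A b (pot a v W l ω) x ≤ M)
  set PB := Pr p (fun ω => Good A b η (pot a v W l ω) ∧ M ≤ psi A b (pot a v W l ω) x)
  set P1 := Pr p (fun ω => Good A b η (pot a v W l ω) ∧ M + r ≤ psi A b (pot a v W l ω) x)
    with hP1
  set P2 := Pr p (fun ω => Good A b η (pot a v W l ω) ∧ psi A b (pot a v W l ω) x ≤ M - r)
    with hP2
  have h10 : 0 ≤ P1 := Pr_nonneg hp _
  have h20 : 0 ≤ P2 := Pr_nonneg hp _
  have h3 : 1 / 4 ≤ PA := by linarith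
  have h4 : 1 / 4 ≤ PB := by linarith
  have h5 : P1 ≤ 4 * Real.exp (-(kk / 4)) := by nlinarith
  have h6 : P2 ≤ 4 * Real.exp (-(kk / 4)) := by nlinarith
  have h7 : Pr p (fun ω => Good A b η (pot a v W l ω) ∧ r ≤ |psi A b (pot a v W l ω) x - M|)
      ≤ Pr p (fun ω => (Good A b η (pot a v W l ω) ∧ M + r ≤ psi A b (pot a v W l ω) x) ∨
        (Good A b η (pot a v W l ω) ∧ psi A b (pot a v W l ω) x ≤ M - r)) := by
    refine Pr_mono hp fun ω hω => ?_
    obtain ⟨hg, hr⟩ := hω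
    rcases le_abs.1 hr with h8 | h8
    · exact Or.inl ⟨hg, by linarith⟩
    · exact Or.inr ⟨hg, by linarith⟩
  have h8 := h7.trans (Pr_or hp _ _)
  rw [← hP1, ← hP2] at h8
  linarith

lemma layer (X : ℝ) (J : ℕ) (hX : X ≤ J + 1) :
    X ≤ 1 + ∑ j ∈ Finset.range J, (if ((j : ℝ) + 1) ≤ X then (1 : ℝ) else 0) := by
  induction J with
  | zero => simpa using hX
  | succ J ih =>
    rw [Finset.sum_range_succ]
    by_cases h : X ≤ J + 1
    · have := ih h
      have h2 : (0 : ℝ) ≤ (if ((J : ℝ) + 1) ≤ X then (1 : ℝ) else 0) := by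
        split_ifs <;> norm_num
      linarith
    · push Not at h
      rw [if_pos h.le]
      have h2 : ∑ j ∈ Finset.range J, (if ((j : ℝ) + 1) ≤ X then (1 : ℝ) else 0) = J := by
        rw [Finset.sum_congr rfl (g := fun _ => (1 : ℝ))]
        · simp
        · intro j hj
          rw [if_pos]
          have : (j : ℝ) + 1 ≤ J := by exact_mod_cast Finset.mem_range.1 hj
          linarith
      rw [h2]
      push_cast at hX
      linarith

lemma geo (J : ℕ) : ∑ j ∈ Finset.range J, (4 / 5 : ℝ) ^ (j + 1) ≤ 4 := by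
  have h1 : ∀ J : ℕ, ∑ j ∈ Finset.range J, (4 / 5 : ℝ) ^ (j + 1) = 4 - 4 * (4 / 5) ^ J := by
    intro J
    induction J with
    | zero => simp
    | succ J ih =>
      rw [Finset.sum_range_succ, ih]
      ring
  rw [h1]
  have : (0 : ℝ) ≤ (4 / 5) ^ J := by positivity
  linarith

open Classical in
/-- The mean distance to the median. -/
lemma mean_dist (tal : StmTal) (h : Hyp A b η a Cs ρ τ k p v) (W : V → ℝ) {l : ℝ} (hl0 : 0 ≤ l)
    (hl1 : l ≤ 1) (x : V) (M : ℝ) (hρ : 0 < ρ x)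
    (hY : 1 / 2 ≤ Pr p (fun ω => Good A b η (pot a v W l ω)))
    (hM1 : Pr p (fun ω => Good A b η (pot a v W l ω)) / 2 ≤
      Pr p (fun ω => Good A b η (pot a v W l ω) ∧ psi A b (pot a v W l ω) x ≤ M))
    (hM2 : Pr p (fun ω => Good A b η (pot a v W l ω)) / 2 ≤
      Pr p (fun ω => Good A b η (pot a v W l ω) ∧ M ≤ psi A b (pot a v W l ω) x)) :
    Ex p (fun ω => if Good A b η (pot a v W l ω) then |psi A b (pot a v W l ω) x - M| else 0)
      ≤ 150 * √(ρ x) := by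
  have hp := h.law.pr
  set σ : ℝ := 22 / 5 * √(ρ x) with hσ
  have hs0 : 0 < √(ρ x) := Real.sqrt_pos.2 hρ
  have hσ0 : 0 < σ := by positivity
  have ht : ∀ j : ℕ, Pr p (fun ω => Good A b η (pot a v W l ω) ∧
      ((j : ℝ) + 1) * σ ≤ |psi A b (pot a v W l ω) x - M|)
      ≤ 8 * Real.exp (-(((j : ℝ) + 1) ^ 2 / 4)) := by
    intro j
    refine tail tal h W hl0 hl1 x M (((j : ℝ) + 1) * σ) (((j : ℝ) + 1) ^ 2) hY hM1 hM2 ?_
    intro ω hU q hq0 hq1 hq
    have h1 := h.gb.l2a _ hU x _ (fun y => Hm_Gr' h.net h.η2 hU x y)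
    have h2 : (∑ y, (a y * |Gr A b (pot a v W l ω) x y|) * q y) ^ 2
        ≤ (∑ y, (a y * |Gr A b (pot a v W l ω) x y|) ^ 2) * ∑ y, q y ^ 2 :=
      Finset.sum_mul_sq_le_sq_mul_sq _ _ _
    have h3 : ∑ y, (a y * |Gr A b (pot a v W l ω) x y|) ^ 2 ≤ ρ x := by
      refine le_trans (le_of_eq (Finset.sum_congr rfl fun y _ => ?_)) h1
      rw [mul_pow, mul_pow, sq_abs]
    have h4 : (∑ y, (a y * |Gr A b (pot a v W l ω) x y|) ^ 2) * ∑ y, q y ^ 2
        ≤ ρ x * ∑ y, q y ^ 2 :=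
      mul_le_mul_of_nonneg_right h3 (Finset.sum_nonneg fun _ _ => sq_nonneg _)
    have h5 : ρ x * ∑ y, q y ^ 2 < ρ x * ((j : ℝ) + 1) ^ 2 := mul_lt_mul_of_pos_left hq hρ
    have h6 : (∑ y, (a y * |Gr A b (pot a v W l ω) x y|) * q y) ^ 2
        < (√(ρ x) * ((j : ℝ) + 1)) ^ 2 := by
      rw [mul_pow, Real.sq_sqrt hρ.le]
      linarith
    have h7 : ∑ y, (a y * |Gr A b (pot a v W l ω) x y|) * q y < √(ρ x) * ((j : ℝ) + 1) :=
      lt_of_pow_lt_pow_left₀ 2 (by positivity) h6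
    have h8 : ∑ y, (22 / 5 * (a y * |Gr A b (pot a v W l ω) x y|)) * q y
        = 22 / 5 * ∑ y, (a y * |Gr A b (pot a v W l ω) x y|) * q y := by
      rw [Finset.mul_sum]
      exact Finset.sum_congr rfl fun y _ => by ring
    rw [h8, hσ]
    linarith
  have he : ∀ j : ℕ, Real.exp (-(((j : ℝ) + 1) ^ 2 / 4)) ≤ (4 / 5) ^ (j + 1) := by
    intro j
    have h1 : Real.exp (-(1 / 4 : ℝ)) ≤ 4 / 5 := by
      have h2 := Real.add_one_le_exp (1 / 4 : ℝ)
      have h3 : Real.exp (-(1 / 4 : ℝ)) * Real.exp (1 / 4) = 1 := by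
        rw [← Real.exp_add, neg_add_cancel, Real.exp_zero]
      have h4 := Real.exp_pos (-(1 / 4 : ℝ))
      nlinarith
    calc Real.exp (-(((j : ℝ) + 1) ^ 2 / 4)) ≤ Real.exp (((j + 1 : ℕ) : ℝ) * (-(1 / 4))) := by
          apply Real.exp_le_exp.2
          push_cast
          nlinarith [(Nat.cast_nonneg j : (0 : ℝ) ≤ (j : ℝ))]
      _ = Real.exp (-(1 / 4)) ^ (j + 1) := by rw [Real.exp_nat_mul]
      _ ≤ _ := pow_le_pow_left₀ (Real.exp_pos _).le h1 _
  obtain ⟨J, hJ⟩ := exists_nat_ge (∑ ω : V → S, |psi A b (pot a v W l ω) x - M| / σ)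
  have hX : ∀ ω : V → S, |psi A b (pot a v W l ω) x - M| / σ ≤ J + 1 := by
    intro ω
    have : |psi A b (pot a v W l ω) x - M| / σ
        ≤ ∑ ω : V → S, |psi A b (pot a v W l ω) x - M| / σ :=
      Finset.single_le_sum (f := fun ω : V → S => |psi A b (pot a v W l ω) x - M| / σ)
        (fun ω _ => by positivity) (Finset.mem_univ ω)
    linarith
  have h1 : ∀ ω : V → S,
      (if Good A b η (pot a v W l ω) then |psi A b (pot a v W l ω) x - M| else 0)
      ≤ σ * (1 + ∑ j ∈ Finset.range J, (if Good A b η (pot a v W l ω) ∧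
      ((j : ℝ) + 1) * σ ≤ |psi A b (pot a v W l ω) x - M| then (1 : ℝ) else 0)) := by
    intro ω
    by_cases hg : Good A b η (pot a v W l ω)
    · rw [if_pos hg]
      have h2 := layer _ J (hX ω)
      rw [div_le_iff₀ hσ0] at h2
      rw [mul_comm σ]
      refine h2.trans (le_of_eq ?_)
      congr 2
      refine Finset.sum_congr rfl fun j _ => ?_
      have : ((j : ℝ) + 1 ≤ |psi A b (pot a v W l ω) x - M| / σ) ↔
        (Good A b η (pot a v W l ω) ∧ ((j : ℝ) + 1) * σ ≤ |psi A b (pot a v W l ω) x - M|) := by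
        rw [le_div_iff₀ hσ0]
        exact ⟨fun hh => ⟨hg, hh⟩, fun hh => hh.2⟩
      simp only [this]
    · rw [if_neg hg]
      have : (0 : ℝ) ≤ ∑ j ∈ Finset.range J, (if Good A b η (pot a v W l ω) ∧
        ((j : ℝ) + 1) * σ ≤ |psi A b (pot a v W l ω) x - M| then (1 : ℝ) else 0) :=
        Finset.sum_nonneg fun j _ => by split_ifs <;> norm_num
      positivity
  refine (Ex_mono hp h1).trans ?_
  rw [Ex_mul_left, Ex_add, Ex_const hp, Ex_sum]
  have h2 : ∑ j ∈ Finset.range J, Ex p (fun ω => if Good A b η (pot a v W l ω) ∧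
      ((j : ℝ) + 1) * σ ≤ |psi A b (pot a v W l ω) x - M| then (1 : ℝ) else 0) ≤ 32 := by
    calc ∑ j ∈ Finset.range J, Ex p (fun ω => if Good A b η (pot a v W l ω) ∧
      ((j : ℝ) + 1) * σ ≤ |psi A b (pot a v W l ω) x - M| then (1 : ℝ) else 0)
        ≤ ∑ j ∈ Finset.range J, 8 * (4 / 5 : ℝ) ^ (j + 1) := by
          refine Finset.sum_le_sum fun j _ => ?_
          have h3 := ht j
          have h4 := he j
          have h5 : Ex p (fun ω => if Good A b η (pot a v W l ω) ∧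
            ((j : ℝ) + 1) * σ ≤ |psi A b (pot a v W l ω) x - M| then (1 : ℝ) else 0)
            = Pr p (fun ω => Good A b η (pot a v W l ω) ∧
              ((j : ℝ) + 1) * σ ≤ |psi A b (pot a v W l ω) x - M|) := by
            unfold Pr
            congr!
          rw [h5]
          linarith
      _ = 8 * ∑ j ∈ Finset.range J, (4 / 5 : ℝ) ^ (j + 1) := by rw [Finset.mul_sum]
      _ ≤ 32 := by have := geo J; linarith
  have h3 : σ * (1 + ∑ j ∈ Finset.range J, Ex p (fun ω => if Good A b η (pot a v W l ω) ∧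
      ((j : ℝ) + 1) * σ ≤ |psi A b (pot a v W l ω) x - M| then (1 : ℝ) else 0)) ≤ σ * 33 :=
    mul_le_mul_of_nonneg_left (by linarith) hσ0.le
  refine h3.trans ?_
  rw [hσ]
  nlinarith

end Pool.Agent.W122.DS.Core
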