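import Pool.Agent.W122.DS.Net

/-!
# Continuity of cut-off functions of the solution
-/

set_option autoImplicit false
set_option linter.unusedSectionVars false

namespace Pool.Agent.W122.DS

open Finset Filter Topology

variable {V : Type} [Fintype V] [DecidableEq V]
variable {A : V → V → ℝ} {b : V → ℝ} {η : ℝ}

lemma good_closed : IsClosed {U : V → ℝ | Good A b η U} := by
  rw [← isSeqClosed_iff_isClosed]
  intro Us U hUs hlim
  choose ψ h1 h2 using hUs
  have hK : IsCompact (Set.pi Set.univ (fun _ : V => Set.Icc (1 - η) (1 + η))) :=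
    isCompact_univ_pi fun _ => isCompact_Icc
  have hmem : ∀ n, ψ n ∈ Set.pi Set.univ (fun _ : V => Set.Icc (1 - η) (1 + η)) := by
    intro n x _
    have := abs_le.1 (h1 n x)
    exact ⟨by linarith [this.1], by linarith [this.2]⟩
  obtain ⟨ψ', hψ', φ, hφ, hconv⟩ := hK.tendsto_subseq hmem
  refine ⟨ψ', fun x => ?_, fun x => ?_⟩
  · have := hψ' x (Set.mem_univ x)
    rw [abs_le]
    exact ⟨by linarith [this.1], by linarith [this.2]⟩
  · have h3 : Tendsto (fun n => Hm A b (Us (φ n)) (ψ (φ n)) x) atTop (𝓝 (Hm A b U ψ' x)) := by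
      have e1 : Tendsto (fun n => Us (φ n)) atTop (𝓝 U) := hlim.comp hφ.tendsto_atTop
      have e2 : Tendsto (fun n => ψ (φ n)) atTop (𝓝 ψ') := hconv
      have f1 : ∀ y, Tendsto (fun n => Us (φ n) y) atTop (𝓝 (U y)) := tendsto_pi_nhds.1 e1
      have f2 : ∀ y, Tendsto (fun n => ψ (φ n) y) atTop (𝓝 (ψ' y)) := tendsto_pi_nhds.1 e2
      unfold Hm
      refine Tendsto.add (Tendsto.add (tendsto_finsetSum _ fun y _ => ?_) ?_) ?_
      · exact tendsto_const_nhds.mul ((f2 x).sub (f2 y))
      · exact tendsto_const_nhds.mul (f2 x)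
      · exact (f1 x).mul (f2 x)
    have h5 : (fun n => Hm A b (Us (φ n)) (ψ (φ n)) x) = fun _ => b x := funext fun n => h2 (φ n) x
    rw [h5] at h3
    exact tendsto_nhds_unique h3 tendsto_const_nhds

lemma cont_Mt : Continuous (fun U : V → ℝ => Mt A b U) := by
  refine continuous_matrix fun x y => ?_
  unfold Mt
  split_ifs
  · fun_prop
  · fun_prop

lemma contAt_psi {U : V → ℝ} (hU : IsUnit (Mt A b U).det) :
    ContinuousAt (fun U : V → ℝ => psi A b U) U := by
  have h0 : (Mt A b U).det ≠ 0 := hU.ne_zero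
  have h1 : ContinuousAt (fun U : V → ℝ => Gr A b U) U := by
    unfold Gr
    have h2 : (fun U : V → ℝ => (Mt A b U)⁻¹)
        = fun U : V → ℝ => ((Mt A b U).det)⁻¹ • (Mt A b U).adjugate := by
      funext U
      rw [Matrix.inv_def, Ring.inverse_eq_inv']
    rw [h2]
    have c1 : ContinuousAt (fun U : V → ℝ => ((Mt A b U).det)⁻¹) U :=
      ContinuousAt.inv₀ (cont_Mt.matrix_det.continuousAt) h0
    have c2 : ContinuousAt (fun U : V → ℝ => (Mt A b U).adjugate) U :=
      cont_Mt.matrix_adjugate.continuousAt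
    exact c1.smul c2
  have h3 : Continuous (fun M : Matrix V V ℝ => M.mulVec b) :=
    Continuous.matrix_mulVec continuous_id continuous_const
  exact h3.continuousAt.comp h1

open Classical in
/-- The extension by zero of a cut-off function of the solution. -/
noncomputable def ext (A : V → V → ℝ) (b : V → ℝ) (η : ℝ) (Φ : (V → ℝ) → ℝ) (U : V → ℝ) : ℝ :=
  if Good A b η U then Φ (psi A b U) else 0

lemma cont_ext (hN : Net A b) (hη0 : 0 < η) (hη : η < 1) (Φ : (V → ℝ) → ℝ) (hΦ : Continuous Φ)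
    (h0 : ∀ ψ : V → ℝ, (∃ x, 3 / 4 * η ≤ |ψ x - 1|) → Φ ψ = 0) : Continuous (ext A b η Φ) := by
  rw [continuous_iff_continuousAt]
  intro U
  by_cases hU : Good A b η U
  · have hc : ContinuousAt (fun U => psi A b U) U := contAt_psi (good_det hN hη hU)
    have hc2 : ContinuousAt (fun U => Φ (psi A b U)) U := hΦ.continuousAt.comp hc
    by_cases hz : Φ (psi A b U) = 0
    · have h1 : ext A b η Φ U = 0 := by
        unfold ext
        rw [if_pos hU, hz]
      unfold ContinuousAt
      rw [h1]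
      have h2 : Tendsto (fun U' => |Φ (psi A b U')|) (𝓝 U) (𝓝 0) := by
        have := hc2.abs
        unfold ContinuousAt at this
        simpa [hz] using this
      refine squeeze_zero_norm (fun U' => ?_) h2
      unfold ext
      split_ifs
      · exact le_of_eq (Real.norm_eq_abs _)
      · rw [norm_zero]; exact abs_nonneg _
    · have h1 : ∀ x, |psi A b U x - 1| < 3 / 4 * η := by
        intro x
        by_contra hx
        exact hz (h0 _ ⟨x, not_lt.1 hx⟩)
      have h2 : ∀ᶠ U' in 𝓝 U, ∀ x, |psi A b U' x - 1| < η := by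
        rw [Filter.eventually_all]
        intro x
        have h3 : ContinuousAt (fun U' => |psi A b U' x - 1|) U := by
          have : ContinuousAt (fun U' => psi A b U' x) U := (continuous_apply x).continuousAt.comp hc
          exact (this.sub continuousAt_const).abs
        exact h3.eventually_lt continuousAt_const (by have := h1 x; linarith)
      have h4 : ∀ᶠ U' in 𝓝 U, (Mt A b U').det ≠ 0 :=
        (cont_Mt.matrix_det.continuousAt).eventually_ne (good_det hN hη hU).ne_zero
      have h5 : ∀ᶠ U' in 𝓝 U, ext A b η Φ U' = Φ (psi A b U') := by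
        filter_upwards [h2, h4] with U' h6 h7
        have hg : Good A b η U' := by
          refine ⟨psi A b U', fun x => (h6 x).le, fun x => ?_⟩
          rw [← mulVec_Mt]
          unfold psi Gr
          rw [Matrix.mulVec_mulVec, Matrix.mul_nonsing_inv _ (isUnit_iff_ne_zero.2 h7),
            Matrix.one_mulVec]
        unfold ext
        rw [if_pos hg]
      exact (continuousAt_congr h5).2 hc2
  · have h1 : ∀ᶠ U' in 𝓝 U, ¬ Good A b η U' := (good_closed (A := A) (b := b) (η := η)).isOpen_compl.mem_nhds hU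
    have h2 : ∀ᶠ U' in 𝓝 U, ext A b η Φ U' = 0 := by
      filter_upwards [h1] with U' h3
      unfold ext
      rw [if_neg h3]
    exact (continuousAt_congr h2).2 continuousAt_const

/-- The profile of the cut-off. -/
noncomputable def prof (η t : ℝ) : ℝ := max 0 (min 1 (3 - 4 * t / η))

lemma prof_nonneg (t : ℝ) : 0 ≤ prof η t := le_max_left _ _

lemma prof_le_one (t : ℝ) : prof η t ≤ 1 := max_le zero_le_one (min_le_left _ _)

lemma prof_one (hη : 0 < η) {t : ℝ} (ht : t ≤ η / 2) : prof η t = 1 := by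
  unfold prof
  have : 4 * t / η ≤ 2 := by
    rw [div_le_iff₀ hη]
    linarith
  rw [min_eq_left (by linarith), max_eq_right zero_le_one]

lemma prof_zero (hη : 0 < η) {t : ℝ} (ht : 3 / 4 * η ≤ t) : prof η t = 0 := by
  unfold prof
  have : 3 ≤ 4 * t / η := by
    rw [le_div_iff₀ hη]
    linarith
  rw [max_eq_left]
  exact (min_le_right _ _).trans (by linarith)

lemma prof_lip (hη : 0 < η) (s t : ℝ) : |prof η s - prof η t| ≤ 4 / η * |s - t| := by
  unfold prof
  calc |max 0 (min 1 (3 - 4 * s / η)) - max 0 (min 1 (3 - 4 * t / η))|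
      ≤ |min 1 (3 - 4 * s / η) - min 1 (3 - 4 * t / η)| := by
        have := abs_max_sub_max_le_max 0 (min 1 (3 - 4 * s / η)) 0 (min 1 (3 - 4 * t / η))
        simpa using this
    _ ≤ |(3 - 4 * s / η) - (3 - 4 * t / η)| := by
        have := abs_min_sub_min_le_max 1 (3 - 4 * s / η) 1 (3 - 4 * t / η)
        simpa using this
    _ = 4 / η * |s - t| := by
        have : (3 - 4 * s / η) - (3 - 4 * t / η) = -(4 / η * (s - t)) := by ring
        rw [this, abs_neg, abs_mul, abs_of_pos (by positivity)]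

variable [Nonempty V]

/-- The cut-off function of a solution. -/
noncomputable def th (η : ℝ) (ψ : V → ℝ) : ℝ :=
  Finset.univ.inf' Finset.univ_nonempty (fun x => prof η |ψ x - 1|)

lemma th_nonneg (ψ : V → ℝ) : 0 ≤ th η ψ := by
  unfold th
  rw [Finset.le_inf'_iff]
  exact fun x _ => prof_nonneg _

lemma th_le_prof (ψ : V → ℝ) (x : V) : th η ψ ≤ prof η |ψ x - 1| :=
  Finset.inf'_le (fun x => prof η |ψ x - 1|) (Finset.mem_univ x)

lemma th_le_one (ψ : V → ℝ) : th η ψ ≤ 1 := by
  obtain ⟨x⟩ := ‹Nonempty V›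
  exact (th_le_prof ψ x).trans (prof_le_one _)

lemma th_one (hη : 0 < η) {ψ : V → ℝ} (h : ∀ x, |ψ x - 1| ≤ η / 2) : th η ψ = 1 := by
  refine le_antisymm (th_le_one ψ) ?_
  unfold th
  rw [Finset.le_inf'_iff]
  exact fun x _ => (prof_one hη (h x)).ge

lemma th_zero (hη : 0 < η) {ψ : V → ℝ} (h : ∃ x, 3 / 4 * η ≤ |ψ x - 1|) : th η ψ = 0 := by
  obtain ⟨x, hx⟩ := h
  refine le_antisymm ((th_le_prof ψ x).trans (prof_zero hη hx).le) (th_nonneg ψ)

lemma th_exists (ψ : V → ℝ) : ∃ x, th η ψ = prof η |ψ x - 1| := by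
  obtain ⟨x, _, hx⟩ := Finset.exists_mem_eq_inf' Finset.univ_nonempty
    (fun x : V => prof η |ψ x - 1|)
  exact ⟨x, hx⟩

lemma cont_th : Continuous (th η : (V → ℝ) → ℝ) := by
  unfold th
  refine Continuous.finset_inf'_apply _ fun x _ => ?_
  unfold prof
  fun_prop

/-- The cut-off changes little if the solution changes little. -/
lemma th_sub_le (hη : 0 < η) (ψ ψ' : V → ℝ) (D : ℝ) (hD : ∀ x, |ψ x - ψ' x| ≤ D) :
    |th η ψ - th η ψ'| ≤ 4 / η * D := by
  have key : ∀ ψ ψ' : V → ℝ, (∀ x, |ψ x - ψ' x| ≤ D) → th η ψ - th η ψ' ≤ 4 / η * D := by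
    intro ψ ψ' h
    obtain ⟨x, hx⟩ := th_exists (η := η) ψ'
    have h1 := th_le_prof (η := η) ψ x
    have h2 := (le_abs_self _).trans (prof_lip hη |ψ x - 1| |ψ' x - 1|)
    have h3 : |(|ψ x - 1| - |ψ' x - 1|)| ≤ D := by
      refine (abs_abs_sub_abs_le _ _).trans ?_
      have : ψ x - 1 - (ψ' x - 1) = ψ x - ψ' x := by ring
      rw [this]
      exact h x
    have h4 := mul_le_mul_of_nonneg_left h3 (by positivity : 0 ≤ 4 / η)
    rw [hx]
    linarith
  rw [abs_le]
  constructor
  · have := key ψ' ψ fun x => by rw [abs_sub_comm]; exact hD x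
    linarith
  · exact key ψ ψ' hD

open Classical in
/-- The square of the change of the cut-off, localised where the solution is not very close
to one. -/
lemma th_sub_sq (hη : 0 < η) (ψ ψ' : V → ℝ) (hD : ∀ x, |ψ x - ψ' x| ≤ η / 4) :
    (th η ψ - th η ψ') ^ 2
      ≤ 16 / η ^ 2 * ∑ x, (if η / 4 ≤ |ψ x - 1| then (ψ' x - ψ x) ^ 2 else 0) := by
  have h0 : ∀ x, (|prof η (|ψ x - 1|) - prof η (|ψ' x - 1|)|) ^ 2
      ≤ 16 / η ^ 2 * (if η / 4 ≤ |ψ x - 1| then (ψ' x - ψ x) ^ 2 else 0) := by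
    intro x
    have h3 : |(|ψ x - 1| - |ψ' x - 1|)| ≤ |ψ x - ψ' x| := by
      refine (abs_abs_sub_abs_le _ _).trans ?_
      have : ψ x - 1 - (ψ' x - 1) = ψ x - ψ' x := by ring
      rw [this]
    split_ifs with h
    · have h1 := prof_lip hη |ψ x - 1| |ψ' x - 1|
      have h4 : |prof η (|ψ x - 1|) - prof η (|ψ' x - 1|)| ≤ 4 / η * |ψ x - ψ' x| :=
        h1.trans (mul_le_mul_of_nonneg_left h3 (by positivity))
      calc (|prof η (|ψ x - 1|) - prof η (|ψ' x - 1|)|) ^ 2 ≤ (4 / η * |ψ x - ψ' x|) ^ 2 :=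
            pow_le_pow_left₀ (abs_nonneg _) h4 2
        _ = 16 / η ^ 2 * (ψ' x - ψ x) ^ 2 := by
            rw [mul_pow, sq_abs]
            ring
    · push Not at h
      have h5 : |ψ' x - 1| ≤ η / 2 := by
        have := abs_le.1 (h3.trans (hD x))
        linarith [this.1]
      rw [prof_one hη (by linarith), prof_one hη h5]
      simp
  have h6 : ∃ x, (th η ψ - th η ψ') ^ 2 ≤ (|prof η (|ψ x - 1|) - prof η (|ψ' x - 1|)|) ^ 2 := by
    rcases le_total (th η ψ') (th η ψ) with h | h
    · obtain ⟨x, hx⟩ := th_exists (η := η) ψ'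
      refine ⟨x, ?_⟩
      rw [← sq_abs (th η ψ - th η ψ')]
      refine pow_le_pow_left₀ (abs_nonneg _) ?_ 2
      rw [abs_of_nonneg (by linarith)]
      refine le_trans ?_ (le_abs_self _)
      rw [hx]
      have := th_le_prof (η := η) ψ x
      linarith
    · obtain ⟨x, hx⟩ := th_exists (η := η) ψ
      refine ⟨x, ?_⟩
      rw [← sq_abs (th η ψ - th η ψ')]
      refine pow_le_pow_left₀ (abs_nonneg _) ?_ 2
      rw [abs_of_nonpos (by linarith), abs_sub_comm]
      refine le_trans ?_ (le_abs_self _)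
      rw [hx]
      have := th_le_prof (η := η) ψ' x
      linarith
  obtain ⟨x, hx⟩ := h6
  refine hx.trans ((h0 x).trans ?_)
  refine mul_le_mul_of_nonneg_left ?_ (by positivity)
  exact Finset.single_le_sum
    (f := fun x => if η / 4 ≤ |ψ x - 1| then (ψ' x - ψ x) ^ 2 else 0)
    (fun y _ => by split_ifs <;> positivity) (Finset.mem_univ x)

end Pool.Agent.W122.DS
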