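import Mathlib

/-!
# Decaying disorder in dimension at least five: definitions

The lattice Laplacian, finite product expectations, and the statements of the main steps.
-/

set_option autoImplicit false

namespace Pool.Agent.W122.DS

open MeasureTheory ProbabilityTheory

/-- The lattice `ℤ^d`. -/
abbrev Lat (d : ℕ) := Fin d → ℤ

/-- `(-Δψ)(x) = ∑ᵢ (2 ψ(x) - ψ(x+eᵢ) - ψ(x-eᵢ))`. -/
noncomputable def negLap {d : ℕ} (ψ : Lat d → ℝ) (x : Lat d) : ℝ :=
  ∑ i, (2 * ψ x - ψ (x + Pi.single i 1) - ψ (x - Pi.single i 1))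

/-- The squared Euclidean length. -/
noncomputable def nsq {d : ℕ} (x : Lat d) : ℝ := ∑ i, (x i : ℝ) ^ 2

/-- `p x` is a probability vector for every site. -/
structure IsPr {V S : Type*} [Fintype S] (p : V → S → ℝ) : Prop where
  nonneg : ∀ x s, 0 ≤ p x s
  sum : ∀ x, ∑ s, p x s = 1

/-- The law `p x` of the letter at the site `x` together with its values `v x s`, of mean zero. -/
structure Law {V S : Type*} [Fintype S] (p v : V → S → ℝ) : Prop where
  pr : IsPr p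
  bdd : ∀ x s, |v x s| ≤ 2
  mean : ∀ x, ∑ s, p x s * v x s = 0

/-- The expectation with respect to the product of the laws `p x`. -/
noncomputable def Ex {V S : Type*} [Fintype V] [DecidableEq V] [Fintype S] (p : V → S → ℝ)
    (F : (V → S) → ℝ) : ℝ := ∑ ω, (∏ x, p x (ω x)) * F ω

open Classical in
/-- The probability of `A`. -/
noncomputable def Pr {V S : Type*} [Fintype V] [DecidableEq V] [Fintype S] (p : V → S → ℝ)
    (A : (V → S) → Prop) : ℝ := Ex p (fun ω => if A ω then 1 else 0)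

/-- The weighted bound on the Green function of `-Δ + U` on a finite set with Dirichlet conditions,
uniformly in all potentials which admit a zero solution `ψ` close to one. -/
def GreenBound (d : ℕ) (γ η C : ℝ) : Prop :=
  ∀ (Λ : Finset (Lat d)) (ψ u U : Lat d → ℝ) (x : Lat d), x ∈ Λ →
    (∀ y, |ψ y - 1| ≤ η) → (∀ y ∈ Λ, negLap ψ y + U y * ψ y = 0) →
    (∀ y, y ∉ Λ → u y = 0) →
    (∀ y ∈ Λ, negLap u y + U y * u y = if y = x then 1 else 0) →
    ∑ y ∈ Λ, (1 + nsq (y - x)) ^ γ * u y ^ 2 ≤ C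

/-- The statement in finite volume. -/
def FinVol (d : ℕ) (a B : Lat d → ℝ) (C δ : ℝ) : Prop :=
  ∀ (Λ : Finset (Lat d)) (S : Type) [Fintype S] [DecidableEq S] (p v : Lat d → S → ℝ), Law p v →
    ∃ W : Lat d → ℝ, (∀ x, |W x| ≤ C * a x ^ 2) ∧
      1 - δ ≤ Pr (fun x : Λ => p x.1) (fun ω : Λ → S => ∃ ψ : Lat d → ℝ,
        (∀ x, |ψ x - 1| ≤ B x) ∧
        ∀ x : Λ, negLap ψ x.1 + (a x.1 * v x.1 (ω x) + W x.1) * ψ x.1 = 0)

/-- The statement in infinite volume. -/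
def InfVol (d : ℕ) (a B : Lat d → ℝ) (C δ : ℝ) : Prop :=
  ∀ (Ω : Type) [MeasurableSpace Ω] (P : Measure Ω) [IsProbabilityMeasure P] (ξ : Lat d → Ω → ℝ),
    (∀ x, Measurable (ξ x)) → iIndepFun ξ P → (∀ x ω, |ξ x ω| ≤ 1) →
    (∀ x, ∫ ω, ξ x ω ∂P = 0) →
    ∃ W : Lat d → ℝ, (∀ x, |W x| ≤ C * a x ^ 2) ∧
      ∃ E : Set Ω, MeasurableSet E ∧ 1 - δ ≤ P.real E ∧ ∀ ω ∈ E, ∃ ψ : Lat d → ℝ,
        (∀ x, |ψ x - 1| ≤ B x) ∧ ∀ x, negLap ψ x + (a x * ξ x ω + W x) * ψ x = 0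

/-- What a bounded zero solution close to one says about the operator `-Δ + U` on the square
summable functions: it is nonnegative, has no eigenvalue at or below zero, and eigenfunctions
of low energy are spread out. -/
def EdgeProps (d : ℕ) (C : ℝ) (U : Lat d → ℝ) : Prop :=
  (∀ u : Lat d → ℝ, Summable (fun x => u x ^ 2) →
    Summable (fun x => u x * (negLap u x + U x * u x)) ∧
      0 ≤ ∑' x, u x * (negLap u x + U x * u x)) ∧
  (∀ (E : ℝ) (u : Lat d → ℝ), Summable (fun x => u x ^ 2) →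
    (∀ x, negLap u x + U x * u x = E * u x) → E ≤ 0 → ∀ x, u x = 0) ∧
  (∀ (E : ℝ) (u : Lat d → ℝ), Summable (fun x => u x ^ 2) →
    (∀ x, negLap u x + U x * u x = E * u x) →
    ∀ x, u x ^ 2 ≤ C * E ^ 2 * ∑' y, u y ^ 2)

/-- Step 1: the weighted Green function bound. -/
def StmGreen : Prop := ∀ d : ℕ, 5 ≤ d → ∀ γ : ℝ, 0 ≤ γ → γ < ((d : ℝ) - 4) / 2 →
  ∃ η C : ℝ, 0 < η ∧ η ≤ 1 / 10 ∧ 1 ≤ C ∧ GreenBound d γ η C

/-- Step 2: from finite to infinite volume. -/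
def StmLimit : Prop := ∀ (d : ℕ) (a B : Lat d → ℝ) (C δ : ℝ), (∀ x, 0 ≤ a x) → (∀ x, 0 ≤ B x) →
  0 ≤ C → FinVol d a B C δ → InfVol d a B C δ

/-- Step 3: the consequences of a bounded zero solution. -/
def StmEdge : Prop := ∀ (d : ℕ) (η C : ℝ), 1 ≤ d → 0 < η → η ≤ 1 / 10 → 1 ≤ C →
  GreenBound d 0 η C →
  ∀ U ψ : Lat d → ℝ, (∀ y, |ψ y - 1| ≤ η) → (∀ y, negLap ψ y + U y * ψ y = 0) → EdgeProps d C U

/-- Step 4: the inequality of Talagrand for the convex distance on a finite product space, in its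
dual form. -/
def StmTal : Prop := ∀ (V S : Type) [Fintype V] [DecidableEq V] [Fintype S] [DecidableEq S]
  (p : V → S → ℝ), IsPr p → ∀ (A B : (V → S) → Prop) (w : (V → S) → V → ℝ) (r k : ℝ),
    (∀ ω ω' : V → S, B ω → A ω' → r ≤ ∑ i, w ω i * (if ω i ≠ ω' i then 1 else 0)) →
    (∀ ω : V → S, B ω → ∀ q : V → ℝ, (∀ i, 0 ≤ q i) → (∀ i, q i ≤ 1) → ∑ i, q i ^ 2 < k →
      ∑ i, w ω i * q i < r) →
    Pr p A * Pr p B ≤ Real.exp (-(k / 4))

/-- Step 5: the inequality of Efron and Stein on a finite product space. -/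
def StmES : Prop := ∀ (V S : Type) [Fintype V] [DecidableEq V] [Fintype S] [DecidableEq S]
  (p : V → S → ℝ), IsPr p → ∀ F : (V → S) → ℝ,
    Ex p (fun ω => F ω ^ 2) - (Ex p F) ^ 2 ≤
      (1 / 2) * ∑ i, Ex p (fun ω => ∑ s, p i s * (F ω - F (Function.update ω i s)) ^ 2)

end Pool.Agent.W122.DS
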