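import Pool.Agent.W177.DS.ExB

/-!
# The inequality of Efron and Stein on finite product spaces
-/

set_option autoImplicit false
set_option linter.unusedSectionVars false

namespace Pool.Agent.W177.DS

open Pool.Agent.W122.DS Finset

/-- Polarization of the variance. -/
lemma var_eq {S : Type} [Fintype S] (a m : S → ℝ) (ha : ∑ s, a s = 1) :
    ∑ s, a s * m s ^ 2 - (∑ s, a s * m s) ^ 2 =
      (1 / 2) * ∑ c, a c * ∑ s, a s * (m c - m s) ^ 2 := by
  have h1 : ∀ c, ∑ s, a s * (m c - m s) ^ 2 =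
      m c ^ 2 - 2 * m c * (∑ s, a s * m s) + ∑ s, a s * m s ^ 2 := by
    intro c
    have : ∀ s, a s * (m c - m s) ^ 2 =
        m c ^ 2 * a s - 2 * m c * (a s * m s) + a s * m s ^ 2 := fun s => by ring
    rw [Finset.sum_congr rfl fun s _ => this s, Finset.sum_add_distrib, Finset.sum_sub_distrib,
      ← Finset.mul_sum, ← Finset.mul_sum, ha, mul_one]
  have h2 : ∀ c, a c * ∑ s, a s * (m c - m s) ^ 2 =
      a c * m c ^ 2 - 2 * (∑ s, a s * m s) * (a c * m c) + (∑ s, a s * m s ^ 2) * a c := by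
    intro c
    rw [h1 c]; ring
  rw [Finset.sum_congr rfl fun c _ => h2 c, Finset.sum_add_distrib, Finset.sum_sub_distrib,
    ← Finset.mul_sum, ← Finset.mul_sum, ha]
  ring

/-- The inequality of Efron and Stein on `Fin n`. -/
theorem es {S : Type} [Fintype S] : ∀ (n : ℕ) (p : Fin n → S → ℝ), IsPr p →
    ∀ F : (Fin n → S) → ℝ,
    Ex p (fun ω => F ω ^ 2) - (Ex p F) ^ 2 ≤
      (1 / 2) * ∑ i, Ex p (fun ω => ∑ s, p i s * (F ω - F (Function.update ω i s)) ^ 2)
  | 0, p, hp, F => by
    have h1 : ∀ ω, F ω = F finZeroElim := fun ω => congrArg F (Subsingleton.elim _ _)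
    have h2 : Ex p F = F finZeroElim := by
      rw [Ex_congr h1, Ex_const hp]
    have h3 : Ex p (fun ω => F ω ^ 2) = F finZeroElim ^ 2 := by
      rw [Ex_congr (fun ω => by rw [h1 ω] : ∀ ω, F ω ^ 2 = F finZeroElim ^ 2), Ex_const hp]
    rw [h2, h3]
    simp
  | n + 1, p, hp, F => by
    have hp' := IsPr.succ hp
    set p' : Fin n → S → ℝ := fun i => p i.succ with hp'def
    have e1 : Ex p F = ∑ c, p 0 c * Ex p' (fun ω => F (Fin.cons c ω)) := Ex_succ p F
    have e2 : Ex p (fun ω => F ω ^ 2) = ∑ c, p 0 c * Ex p' (fun ω => F (Fin.cons c ω) ^ 2) :=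
      Ex_succ p _
    set m : S → ℝ := fun c => Ex p' (fun ω => F (Fin.cons c ω)) with hm
    have h1 : Ex p (fun ω => F ω ^ 2) - (Ex p F) ^ 2 =
        ∑ c, p 0 c * (Ex p' (fun ω => F (Fin.cons c ω) ^ 2) - m c ^ 2) +
        (∑ c, p 0 c * m c ^ 2 - (∑ c, p 0 c * m c) ^ 2) := by
      rw [e1, e2]
      simp only [mul_sub, Finset.sum_sub_distrib]
      ring
    have h2 : ∑ c, p 0 c * (Ex p' (fun ω => F (Fin.cons c ω) ^ 2) - m c ^ 2) ≤
        (1 / 2) * ∑ i : Fin n, Ex p (fun ω => ∑ s, p i.succ s *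
          (F ω - F (Function.update ω i.succ s)) ^ 2) := by
      have h3 : ∀ c, p 0 c * (Ex p' (fun ω => F (Fin.cons c ω) ^ 2) - m c ^ 2) ≤
          p 0 c * ((1 / 2) * ∑ i, Ex p' (fun ω => ∑ s, p' i s *
            (F (Fin.cons c ω) - F (Fin.cons c (Function.update ω i s))) ^ 2)) := fun c =>
        mul_le_mul_of_nonneg_left (es n p' hp' fun ω => F (Fin.cons c ω)) (hp.nonneg 0 c)
      refine (Finset.sum_le_sum fun c _ => h3 c).trans (le_of_eq ?_)
      have h4 : ∀ i : Fin n, Ex p (fun ω => ∑ s, p i.succ s *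
          (F ω - F (Function.update ω i.succ s)) ^ 2) =
          ∑ c, p 0 c * Ex p' (fun ω => ∑ s, p' i s *
            (F (Fin.cons c ω) - F (Fin.cons c (Function.update ω i s))) ^ 2) := by
        intro i
        rw [Ex_succ]
        refine Finset.sum_congr rfl fun c _ => ?_
        congr 1
        refine Ex_congr fun ω => ?_
        simp only [Fin.cons_update]
        rfl
      rw [Finset.sum_congr rfl fun i _ => h4 i, Finset.sum_comm, Finset.mul_sum]
      refine Finset.sum_congr rfl fun c _ => ?_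
      rw [← Finset.mul_sum]
      ring
    have h5 : ∑ c, p 0 c * m c ^ 2 - (∑ c, p 0 c * m c) ^ 2 ≤
        (1 / 2) * Ex p (fun ω => ∑ s, p 0 s * (F ω - F (Function.update ω 0 s)) ^ 2) := by
      rw [var_eq (p 0) m (hp.sum 0)]
      refine mul_le_mul_of_nonneg_left ?_ (by norm_num)
      rw [Ex_succ]
      refine Finset.sum_le_sum fun c _ => mul_le_mul_of_nonneg_left ?_ (hp.nonneg 0 c)
      simp only [Fin.update_cons_zero]
      rw [Ex_sum]
      refine Finset.sum_le_sum fun s _ => ?_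
      rw [Ex_mul_left]
      refine mul_le_mul_of_nonneg_left ?_ (hp.nonneg 0 s)
      have h6 : m c - m s = Ex p' (fun ω => F (Fin.cons c ω) - F (Fin.cons s ω)) := by
        rw [Ex_sub]
      rw [h6]
      exact Ex_sq_le hp' _
    rw [h1, Fin.sum_univ_succ, mul_add]
    linarith

end Pool.Agent.W177.DS

namespace Pool.Agent.W122.DS

open Pool.Agent.W177.DS

theorem stmES : StmES := by
  intro V S _ _ _ _ p hp F
  set e : V ≃ Fin (Fintype.card V) := Fintype.equivFin V with he
  have h := es _ (fun i => p (e.symm i)) (IsPr.equiv e hp) (fun ω => F (fun v => ω (e v)))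
  rw [← Ex_equiv e p F, ← Ex_equiv e p (fun ω => F ω ^ 2)] at h
  refine h.trans (le_of_eq ?_)
  congr 1
  rw [← e.sum_comp]
  refine Finset.sum_congr rfl fun v _ => ?_
  rw [Ex_equiv e p]
  refine Ex_congr fun ω => ?_
  refine Finset.sum_congr rfl fun s _ => ?_
  rw [e.symm_apply_apply]
  congr 3
  refine congrArg F ?_
  funext v'
  by_cases hv : v' = v
  · subst hv; simp
  · rw [Function.update_of_ne hv, Function.update_of_ne (fun h => hv (e.injective h))]

end Pool.Agent.W122.DS
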