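import Pool.Agent.W122.DS.Latt

/-!
# The theorem in finite volume
-/

set_option autoImplicit false
set_option linter.unusedSectionVars false

namespace Pool.Agent.W122.DS.Core

open Finset

variable {d : ℕ}

lemma nsq_nonneg (x : Lat d) : 0 ≤ nsq x := Finset.sum_nonneg fun _ _ => sq_nonneg _

/-- The logarithm of the distance. -/
noncomputable def Lg (x : Lat d) : ℝ := Real.log (Real.exp 1 + √(nsq x))

lemma Lg_ge (x : Lat d) : 1 ≤ Lg x := by
  unfold Lg
  rw [Real.le_log_iff_exp_le (by positivity)]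
  have := Real.sqrt_nonneg (nsq x)
  linarith

lemma green_mono {γ η C : ℝ} (hγ : 0 ≤ γ) (hG : GreenBound d γ η C) : GreenBound d 0 η C := by
  intro Λ ψ u U x hx h1 h2 h3 h4
  refine le_trans (Finset.sum_le_sum fun y _ => ?_) (hG Λ ψ u U x hx h1 h2 h3 h4)
  refine mul_le_mul_of_nonneg_right ?_ (sq_nonneg _)
  have := nsq_nonneg (y - x)
  exact Real.rpow_le_rpow_of_exponent_le (by linarith) hγ

/-- The parameters of the finite volume theorem. -/
theorem finVol (tal : StmTal) (es : StmES) (green : StmGreen) (kl : StmKL) (lg : StmLog)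
    (sm : StmSum) (hd : 5 ≤ d) (ν : ℝ) (hν : 2 / (d : ℝ) < ν) (δ : ℝ) (hδ : 0 < δ) :
    ∃ η C₀ κ₀ C : ℝ, 0 < η ∧ η ≤ 1 / 10 ∧ 1 ≤ C₀ ∧ GreenBound d 0 η C₀ ∧ 0 < κ₀ ∧ 0 < C ∧
      C * κ₀ ≤ η ∧ ∀ κ : ℝ, 0 < κ → κ ≤ κ₀ → ∀ a : Lat d → ℝ, (∀ x, 0 ≤ a x) →
        (∀ x, a x ≤ κ / Lg x ^ ν) → FinVol d a (fun _ => C * κ) C δ := by
  classical
  have hdR : (5 : ℝ) ≤ d := by exact_mod_cast hd
  have hd0 : (0 : ℝ) < d := by linarith
  have hν0 : 0 < ν := lt_trans (by positivity) hν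
  -- the exponents
  set g : ℝ := max 0 (d * (1 / 2 - ν)) with hg
  have hg0 : 0 ≤ g := le_max_left _ _
  have hg1 : d * (1 / 2 - ν) ≤ g := le_max_right _ _
  have hg2 : g < ((d : ℝ) - 4) / 2 := by
    refine max_lt (by linarith) ?_
    have h1 : (d : ℝ) * (2 / d) < d * ν := mul_lt_mul_of_pos_left hν hd0
    rw [mul_div_cancel₀ _ hd0.ne'] at h1
    linarith
  set γ : ℝ := (g + ((d : ℝ) - 4) / 2) / 2 with hγ
  have hγ1 : g < γ := by rw [hγ]; linarith
  have hγ2 : γ < ((d : ℝ) - 4) / 2 := by rw [hγ]; linarith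
  have hγ0 : 0 ≤ γ := by linarith
  set g' : ℝ := γ - g with hg'
  have hg'0 : 0 < g' := by rw [hg']; linarith
  -- the constants
  obtain ⟨η, CG, hη0, hη1, hCG, hG⟩ := green d hd γ hγ0 hγ2
  obtain ⟨CK, hCK, hK⟩ := kl d g (by omega) hg0 (by linarith)
  obtain ⟨Ca, hCa, ha⟩ := lg d (2 * ν) g' (by linarith) hg'0
  obtain ⟨CS, hCS, hS⟩ := sm d
  set T₀ : ℝ := 1 + 256 * CS + 40 * CS / δ with hT₀
  have hT1 : 1 ≤ T₀ := by
    have : 0 ≤ 40 * CS / δ := by positivity
    linarith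
  have hlT : 0 ≤ Real.log T₀ := Real.log_nonneg hT1
  set cT : ℝ := 4 * (d + 1) + 4 * Real.log T₀ with hcT
  have hcT1 : 1 ≤ cT := by linarith
  set D : ℝ := √(CG * Ca * CK * cT) with hD
  have hDpos : 0 < CG * Ca * CK * cT := by positivity
  have hD0 : 0 < D := Real.sqrt_pos.2 hDpos
  have hD2 : D ^ 2 = CG * Ca * CK * cT := Real.sq_sqrt hDpos.le
  have hsG1 : 1 ≤ √CG := by
    rw [Real.one_le_sqrt]
    exact hCG
  have hsGa : 0 < √(Ca * CG) := Real.sqrt_pos.2 (by positivity)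
  set C : ℝ := 5 * D + 300 * √(Ca * CG) + 360 / η * √CG + 1 with hC
  have h360 : √CG ≤ 360 / η * √CG := by
    have : 1 ≤ 360 / η := by
      rw [le_div_iff₀ hη0]
      linarith
    nlinarith
  have hC1 : 1 ≤ C := by
    have : 0 ≤ 360 / η * √CG := by positivity
    linarith
  have hC0 : 0 < C := by linarith
  refine ⟨η, CG, η / (64 * C), C, hη0, hη1, hCG, green_mono hγ0 hG, by positivity, hC0, ?_, ?_⟩
  · rw [show C * (η / (64 * C)) = η / 64 by field_simp]
    linarith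
  intro κ hκ0 hκ1 a ha0 ha1
  have hκC : κ * C ≤ η / 64 := by
    have := mul_le_mul_of_nonneg_right hκ1 hC0.le
    rw [show η / (64 * C) * C = η / 64 by field_simp] at this
    exact this
  have hCκ0 : 0 ≤ C * κ := by positivity
  intro Λ S _ _ p v hL
  rcases Λ.eq_empty_or_nonempty with hE | hE
  · refine ⟨fun _ => 0, fun x => ?_, ?_⟩
    · rw [abs_zero]
      positivity
    · have hp : IsPr (fun x : Λ => p x.1) := ⟨fun x s => hL.pr.nonneg x.1 s, fun x => hL.pr.sum x.1⟩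
      have h1 : (1 : ℝ) ≤ Pr (fun x : Λ => p x.1) (fun ω : Λ → S => ∃ ψ : Lat d → ℝ,
        (∀ x, |ψ x - 1| ≤ C * κ) ∧
        ∀ x : Λ, negLap ψ x.1 + (a x.1 * v x.1 (ω x) + 0) * ψ x.1 = 0) := by
        have h2 : Ex (fun x : Λ => p x.1) (fun _ : Λ → S => (1 : ℝ)) = 1 := Ex_const hp 1
        rw [Pr_def]
        refine h2.ge.trans (Ex_mono hp fun ω => ?_)
        rw [if_pos]
        refine ⟨fun _ => 1, fun x => by simpa using hCκ0, fun x => ?_⟩
        exfalso
        exact absurd x.2 (by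
          have h3 : ∀ z : Lat d, z ∉ Λ := fun z => by rw [hE]; exact Finset.notMem_empty _
          exact h3 _)
      linarith
  have : Nonempty Λ := hE.to_subtype
  have hLΛ : Law (fun x : Λ => p x.1) (fun x : Λ => v x.1) :=
    ⟨⟨fun x s => hL.pr.nonneg x.1 s, fun x => hL.pr.sum x.1⟩, fun x s => hL.bdd x.1 s,
      fun x => hL.mean x.1⟩
  -- pointwise bound of the weights
  have hL0 : ∀ x : Lat d, 0 < Lg x := fun x => lt_of_lt_of_le zero_lt_one (Lg_ge x)
  have hw : ∀ x y : Lat d, a y ^ 2 ≤ κ ^ 2 * Ca / Lg x ^ (2 * ν) * (1 + nsq (y - x)) ^ g' := by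
    intro x y
    have h1 : a y ^ 2 ≤ (κ / Lg y ^ ν) ^ 2 := pow_le_pow_left₀ (ha0 y) (ha1 y) 2
    have h2 : (κ / Lg y ^ ν) ^ 2 = κ ^ 2 / Lg y ^ (2 * ν) := by
      rw [div_pow]
      congr 1
      rw [← Real.rpow_natCast, ← Real.rpow_mul (hL0 y).le]
      congr 1
      push_cast
      ring
    have h3 := ha x y
    change Lg x ^ (2 * ν) ≤ Ca * Lg y ^ (2 * ν) * (1 + nsq (y - x)) ^ g' at h3
    have hx0 : 0 < Lg x ^ (2 * ν) := Real.rpow_pos_of_pos (hL0 x) _
    have hy0 : 0 < Lg y ^ (2 * ν) := Real.rpow_pos_of_pos (hL0 y) _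
    rw [h2] at h1
    refine h1.trans ?_
    rw [div_mul_eq_mul_div, div_le_div_iff₀ hy0 hx0]
    have h4 := mul_le_mul_of_nonneg_left h3 (sq_nonneg κ)
    refine h4.trans (le_of_eq ?_)
    ring
  have haκ : ∀ x : Lat d, a x ≤ κ := by
    intro x
    refine (ha1 x).trans ?_
    rw [div_le_iff₀ (Real.rpow_pos_of_pos (hL0 x) _)]
    have := Real.one_le_rpow (Lg_ge x) hν0.le
    nlinarith
  have hsGC : √CG ≤ C := by linarith
  -- the data of the network theorem
  set ρ : Λ → ℝ := fun x => κ ^ 2 * Ca / Lg x.1 ^ (2 * ν) * CG with hρd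
  set τ : Λ → ℝ := fun _ => κ * D with hτd
  set k : Λ → ℝ := fun x => 4 * ((d : ℝ) + 1) * Lg x.1 + 4 * Real.log T₀ with hkd
  have hρ0 : ∀ x, 0 < ρ x := by
    intro x
    have : 0 < Lg x.1 ^ (2 * ν) := Real.rpow_pos_of_pos (hL0 x.1) _
    simp only [hρd]
    positivity
  have hρs : ∀ x, √(ρ x) ≤ κ * √(Ca * CG) := by
    intro x
    have h1 : ρ x ≤ κ ^ 2 * (Ca * CG) := by
      simp only [hρd]
      have h2 : 1 ≤ Lg x.1 ^ (2 * ν) := Real.one_le_rpow (Lg_ge x.1) (by linarith)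
      have h3 : κ ^ 2 * Ca / Lg x.1 ^ (2 * ν) ≤ κ ^ 2 * Ca := div_le_self (by positivity) h2
      have h4 := mul_le_mul_of_nonneg_right h3 (by linarith : 0 ≤ CG)
      linarith
    calc √(ρ x) ≤ √(κ ^ 2 * (Ca * CG)) := Real.sqrt_le_sqrt h1
      _ = κ * √(Ca * CG) := by rw [Real.sqrt_mul (sq_nonneg κ), Real.sqrt_sq hκ0.le]
  have hk1 : ∀ x, 1 ≤ k x := by
    intro x
    have := Lg_ge x.1
    simp only [hkd]
    nlinarith
  have hkc : ∀ x, k x ≤ cT * Lg x.1 := by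
    intro x
    have := Lg_ge x.1
    simp only [hkd, hcT]
    nlinarith
  have hke : ∀ x : Λ, Real.exp (-(k x / 4))
      = Real.exp (-(((d : ℝ) + 1) * Real.log (Real.exp 1 + √(nsq x.1)))) / T₀ := by
    intro x
    have h1 : -(k x / 4) = -(((d : ℝ) + 1) * Real.log (Real.exp 1 + √(nsq x.1)))
        - Real.log T₀ := by
      simp only [hkd, Lg]
      ring
    rw [h1, Real.exp_sub, Real.exp_log (by linarith)]
  have hks : ∑ x, Real.exp (-(k x / 4)) ≤ CS / T₀ := by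
    rw [Finset.sum_congr rfl fun x _ => hke x, ← Finset.sum_div]
    refine div_le_div_of_nonneg_right ?_ (by linarith)
    have h1 := hS Λ
    rw [← Finset.sum_coe_sort Λ
      (fun x => Real.exp (-(((d : ℝ) + 1) * Real.log (Real.exp 1 + √(nsq x)))))] at h1
    exact h1
  have hT0 : 0 < T₀ := by linarith
  have hks1 : 256 * ∑ x, Real.exp (-(k x / 4)) ≤ 1 := by
    have h1 : 256 * (CS / T₀) ≤ 1 := by
      rw [← mul_div_assoc, div_le_one hT0]
      have : 0 ≤ 40 * CS / δ := by positivity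
      linarith
    linarith
  have hks2 : 40 * ∑ x, Real.exp (-(k x / 4)) ≤ δ := by
    have h1 : 40 * (CS / T₀) ≤ δ := by
      rw [← mul_div_assoc, div_le_iff₀ hT0]
      have h2 : δ * (40 * CS / δ) = 40 * CS := by field_simp
      have h3 : δ * T₀ = δ + δ * (256 * CS) + δ * (40 * CS / δ) := by
        rw [hT₀]
        ring
      rw [h3, h2]
      have : 0 ≤ δ * (256 * CS) := by positivity
      linarith
    linarith
  have hGB : GB (Ad Λ) (bd Λ) η (fun x => a x.1) (√CG) ρ τ k := by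
    have hGr : ∀ U, Good (Ad Λ) (bd Λ) η U → ∀ (x : Λ) (u : Λ → ℝ),
        (∀ y, Hm (Ad Λ) (bd Λ) U u y = if y = x then 1 else 0) →
        ∑ y : Λ, (1 + nsq (y.1 - x.1)) ^ γ * u y ^ 2 ≤ CG :=
      fun U hU x u hu => lat_green hη0.le hG Λ U hU x u hu
    have hge : ∀ x y : Λ, (1 : ℝ) ≤ 1 + nsq (y.1 - x.1) := fun x y => by
      have := nsq_nonneg (y.1 - x.1)
      linarith
    refine ⟨?_, ?_, ?_⟩
    · intro U hU x u hu
      rw [Real.sq_sqrt (by linarith)]
      refine le_trans (Finset.sum_le_sum fun y _ => ?_) (hGr U hU x u hu)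
      have h1 := Real.one_le_rpow (hge x y) hγ0
      have h2 := mul_le_mul_of_nonneg_right h1 (sq_nonneg (u y))
      linarith
    · intro U hU x u hu
      have h1 := hGr U hU x u hu
      have hc0 : 0 ≤ κ ^ 2 * Ca / Lg x.1 ^ (2 * ν) := by
        have : 0 < Lg x.1 ^ (2 * ν) := Real.rpow_pos_of_pos (hL0 x.1) _
        positivity
      calc ∑ y : Λ, (a y.1 * u y) ^ 2
          ≤ ∑ y : Λ, κ ^ 2 * Ca / Lg x.1 ^ (2 * ν) * ((1 + nsq (y.1 - x.1)) ^ γ * u y ^ 2) := by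
            refine Finset.sum_le_sum fun y _ => ?_
            rw [mul_pow, ← mul_assoc]
            refine mul_le_mul_of_nonneg_right ((hw x.1 y.1).trans ?_) (sq_nonneg _)
            refine mul_le_mul_of_nonneg_left ?_ hc0
            exact Real.rpow_le_rpow_of_exponent_le (hge x y) (by rw [hg']; linarith)
        _ = κ ^ 2 * Ca / Lg x.1 ^ (2 * ν) * ∑ y : Λ, (1 + nsq (y.1 - x.1)) ^ γ * u y ^ 2 := by
            rw [Finset.mul_sum]
        _ ≤ _ := mul_le_mul_of_nonneg_left h1 hc0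
    · intro U hU x u hu q hq0 hq1 hqk
      have h1 := hGr U hU x u hu
      have hLx0 : 0 < Lg x.1 ^ (2 * ν) := Real.rpow_pos_of_pos (hL0 x.1) _
      have hc0 : 0 ≤ κ ^ 2 * Ca / Lg x.1 ^ (2 * ν) := by positivity
      -- the masses
      set w : Lat d → ℝ := fun y => if h : y ∈ Λ then q ⟨y, h⟩ ^ 2 else 0 with hwd
      have hwe : ∀ y : Λ, w y.1 = q y ^ 2 := fun y => by
        simp only [hwd]
        rw [dif_pos y.2]
      have hw0 : ∀ y, 0 ≤ w y := fun y => by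
        simp only [hwd]
        split_ifs
        · exact sq_nonneg _
        · exact le_rfl
      have hw1 : ∀ y, w y ≤ 1 := fun y => by
        simp only [hwd]
        split_ifs with hy
        · exact pow_le_one₀ (hq0 _) (hq1 _)
        · exact zero_le_one
      have hws : ∑ y ∈ Λ, w y ≤ k x := by
        rw [← Finset.sum_coe_sort Λ w, Finset.sum_congr rfl fun y _ => hwe y]
        exact hqk.le
      have h2 := hK Λ x.1 (k x) w (hk1 x) hw0 hw1 hws
      rw [← Finset.sum_coe_sort Λ (fun y => (1 + nsq (y - x.1)) ^ (-g) * w y)] at h2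
      -- Cauchy-Schwarz
      have h3 : (∑ y : Λ, (√((1 + nsq (y.1 - x.1)) ^ γ) * |u y|)
          * (a y.1 * q y / √((1 + nsq (y.1 - x.1)) ^ γ))) ^ 2
          ≤ (∑ y : Λ, (√((1 + nsq (y.1 - x.1)) ^ γ) * |u y|) ^ 2)
            * ∑ y : Λ, (a y.1 * q y / √((1 + nsq (y.1 - x.1)) ^ γ)) ^ 2 :=
        Finset.sum_mul_sq_le_sq_mul_sq _ _ _
      have hrp : ∀ y : Λ, 0 < (1 + nsq (y.1 - x.1)) ^ γ := fun y =>
        Real.rpow_pos_of_pos (by have := hge x y; linarith) _
      have h4 : ∑ y : Λ, (√((1 + nsq (y.1 - x.1)) ^ γ) * |u y|)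
          * (a y.1 * q y / √((1 + nsq (y.1 - x.1)) ^ γ)) = ∑ y : Λ, a y.1 * |u y| * q y := by
        refine Finset.sum_congr rfl fun y _ => ?_
        have : √((1 + nsq (y.1 - x.1)) ^ γ) ≠ 0 := (Real.sqrt_pos.2 (hrp y)).ne'
        field_simp
      have h5 : ∑ y : Λ, (√((1 + nsq (y.1 - x.1)) ^ γ) * |u y|) ^ 2 ≤ CG := by
        refine le_trans (le_of_eq (Finset.sum_congr rfl fun y _ => ?_)) h1
        rw [mul_pow, sq_abs, Real.sq_sqrt (hrp y).le]
      have h6 : ∑ y : Λ, (a y.1 * q y / √((1 + nsq (y.1 - x.1)) ^ γ)) ^ 2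
          ≤ κ ^ 2 * Ca / Lg x.1 ^ (2 * ν) * (CK * k x ^ (1 - 2 * g / d)) := by
        refine le_trans ?_ (mul_le_mul_of_nonneg_left h2 hc0)
        rw [Finset.mul_sum]
        refine Finset.sum_le_sum fun y _ => ?_
        rw [div_pow, Real.sq_sqrt (hrp y).le, mul_pow, hwe y, div_le_iff₀ (hrp y)]
        have h7 : (1 + nsq (y.1 - x.1)) ^ (-g) * (1 + nsq (y.1 - x.1)) ^ γ
            = (1 + nsq (y.1 - x.1)) ^ g' := by
          rw [← Real.rpow_add (by have := hge x y; linarith)]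
          congr 1
          rw [hg']
          ring
        calc a y.1 ^ 2 * q y ^ 2 ≤ (κ ^ 2 * Ca / Lg x.1 ^ (2 * ν) * (1 + nsq (y.1 - x.1)) ^ g')
              * q y ^ 2 := mul_le_mul_of_nonneg_right (hw x.1 y.1) (sq_nonneg _)
          _ = κ ^ 2 * Ca / Lg x.1 ^ (2 * ν) * ((1 + nsq (y.1 - x.1)) ^ (-g)
              * (1 + nsq (y.1 - x.1)) ^ γ) * q y ^ 2 := by rw [h7]
          _ = _ := by ring
      have h7 : k x ^ (1 - 2 * g / d) ≤ cT * Lg x.1 ^ (2 * ν) := by
        have hexp0 : 0 ≤ 1 - 2 * g / d := by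
          have : 2 * g / d ≤ 1 := by
            rw [div_le_one hd0]
            linarith
          linarith
        have hexp1 : 1 - 2 * g / d ≤ 1 := by
          have : 0 ≤ 2 * g / d := by positivity
          linarith
        have hexp2 : 1 - 2 * g / d ≤ 2 * ν := by
          have h8 : 1 - 2 * ν ≤ 2 * g / d := by
            rw [le_div_iff₀ hd0]
            linarith
          linarith
        calc k x ^ (1 - 2 * g / d) ≤ (cT * Lg x.1) ^ (1 - 2 * g / d) :=
              Real.rpow_le_rpow (by have := hk1 x; linarith) (hkc x) hexp0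
          _ = cT ^ (1 - 2 * g / d) * Lg x.1 ^ (1 - 2 * g / d) :=
              Real.mul_rpow (by linarith) (hL0 x.1).le
          _ ≤ cT * Lg x.1 ^ (2 * ν) := by
              refine mul_le_mul ?_ (Real.rpow_le_rpow_of_exponent_le (Lg_ge x.1) hexp2)
                (Real.rpow_nonneg (hL0 x.1).le _) (by linarith)
              calc cT ^ (1 - 2 * g / d) ≤ cT ^ (1 : ℝ) :=
                    Real.rpow_le_rpow_of_exponent_le hcT1 hexp1
                _ = cT := Real.rpow_one _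
      have h8 : κ ^ 2 * Ca / Lg x.1 ^ (2 * ν) * (CK * k x ^ (1 - 2 * g / d))
          ≤ κ ^ 2 * (Ca * CK * cT) := by
        have h9 : κ ^ 2 * Ca / Lg x.1 ^ (2 * ν) * (CK * k x ^ (1 - 2 * g / d))
            ≤ κ ^ 2 * Ca / Lg x.1 ^ (2 * ν) * (CK * (cT * Lg x.1 ^ (2 * ν))) :=
          mul_le_mul_of_nonneg_left (mul_le_mul_of_nonneg_left h7 (by linarith)) hc0
        refine h9.trans (le_of_eq ?_)
        field_simp
      have h9 : (∑ y : Λ, a y.1 * |u y| * q y) ^ 2 ≤ (κ * D) ^ 2 := by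
        rw [← h4]
        refine h3.trans ?_
        calc (∑ y : Λ, (√((1 + nsq (y.1 - x.1)) ^ γ) * |u y|) ^ 2)
            * ∑ y : Λ, (a y.1 * q y / √((1 + nsq (y.1 - x.1)) ^ γ)) ^ 2
            ≤ CG * (κ ^ 2 * (Ca * CK * cT)) :=
              mul_le_mul h5 (h6.trans h8) (Finset.sum_nonneg fun _ _ => sq_nonneg _)
                (by linarith)
          _ = (κ * D) ^ 2 := by
              rw [mul_pow, hD2]
              ring
      exact abs_le_of_sq_le_sq' h9 (by positivity) |>.2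
  have hR : ∀ x, 5 * τ x + 300 * √(ρ x) ≤ C * κ := by
    intro x
    have h1 := hρs x
    have h2 : 0 ≤ 360 / η * √CG := by positivity
    have h3 : 0 ≤ κ * (360 / η * √CG + 1) := by positivity
    have h4 : C * κ = 5 * (κ * D) + 300 * (κ * √(Ca * CG)) + κ * (360 / η * √CG + 1) := by
      rw [hC]
      ring
    rw [h4]
    simp only [hτd]
    linarith
  have hHyp : Hyp (Ad Λ) (bd Λ) η (fun x => a x.1) (√CG) ρ τ k (fun x : Λ => p x.1)
      (fun x : Λ => v x.1) := by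
    refine ⟨lat_net (by omega) Λ, hη0, hη1, fun x => ha0 x.1, hsG1, fun x => ?_, hGB, hLΛ⟩
    calc a x.1 * √CG ≤ κ * C := mul_le_mul (haκ x.1) hsGC (Real.sqrt_nonneg _) hκ0.le
      _ ≤ η / 64 := hκC
  obtain ⟨W, hW1, hW2⟩ := coreF tal es hHyp hρ0 (fun x => by simp only [hτd]; positivity)
    (fun x => (hR x).trans (by linarith)) hks1
  refine ⟨fun x => if h : x ∈ Λ then W ⟨x, h⟩ else 0, fun x => ?_, ?_⟩
  · by_cases hx : x ∈ Λ
    · simp only [dif_pos hx]
      refine (hW1 ⟨x, hx⟩).trans ?_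
      refine mul_le_mul_of_nonneg_right ?_ (sq_nonneg _)
      rw [hC]
      linarith
    · simp only [dif_neg hx, abs_zero]
      positivity
  · refine le_trans (by linarith) (hW2.trans (Pr_mono hLΛ.pr fun ω hω => ?_))
    obtain ⟨ψ, h1, h2⟩ := hω
    set Ψ : Lat d → ℝ := fun x => if h : x ∈ Λ then ψ ⟨x, h⟩ else 1 with hΨ
    have e1 : (fun y : Λ => Ψ y.1) = ψ := by
      funext y; simp only [hΨ]; rw [dif_pos y.2]
    have o1 : ∀ y, y ∉ Λ → Ψ y = 1 := fun y hy => by simp only [hΨ]; rw [dif_neg hy]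
    refine ⟨Ψ, fun x => ?_, fun x => ?_⟩
    · by_cases hx : x ∈ Λ
      · have := (h1 ⟨x, hx⟩).trans (hR _)
        rw [← congrFun e1 ⟨x, hx⟩] at this
        exact this
      · rw [o1 x hx, sub_self, abs_zero]
        exact hCκ0
    · have h3 := h2 x
      set Ũ : Lat d → ℝ := fun y => if h : y ∈ Λ then a y * v y (ω ⟨y, h⟩) + W ⟨y, h⟩ else 0
        with hŨ
      have e2 : (fun y : Λ => Ũ y.1) = fun y : Λ => a y.1 * v y.1 (ω y) + W y := by
        funext y; simp only [hŨ]; rw [dif_pos y.2]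
      have h4 := Hm_lat Λ Ψ Ũ 1 o1 x
      rw [e1, e2, h3] at h4
      have h5 : Ũ x.1 = a x.1 * v x.1 (ω x) + W x := congrFun e2 x
      rw [h5] at h4
      have h6 : (if h : x.1 ∈ Λ then W ⟨x.1, h⟩ else 0) = W x := dif_pos x.2
      change negLap Ψ x.1 + (a x.1 * v x.1 (ω x)
        + (if h : x.1 ∈ Λ then W ⟨x.1, h⟩ else 0)) * Ψ x.1 = 0
      rw [h6]
      linarith

end Pool.Agent.W122.DS.Core
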