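import Pool.Agent.W122.DS.Defs

/-!
# The weighted Green function bound (step 1)

Written by helper658.
-/

set_option autoImplicit false

namespace Pool.Agent.W122.DS

open Filter Topology

/-! ### calculus -/

lemma rpow_near (b b' : ℝ) (hb : 0 ≤ b) (hbb : b < b') :
    ∃ τ : ℝ, 0 < τ ∧ ∀ t : ℝ, |t| ≤ τ → ((1 + t) ^ b - 1) ^ 2 ≤ b' ^ 2 * t ^ 2 := by
  have h := Real.hasDerivAt_rpow_const (x := 1) (p := b) (Or.inl one_ne_zero)
  rw [hasDerivAt_iff_isLittleO_nhds_zero] at h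
  have h2 := h.def (sub_pos.2 hbb)
  rw [Metric.eventually_nhds_iff] at h2
  obtain ⟨ε, hε, hh⟩ := h2
  refine ⟨ε / 2, by positivity, ?_⟩
  intro t ht
  have h3 := hh (y := t) (by
    rw [Real.dist_eq, sub_zero]
    linarith)
  simp only [Real.one_rpow, mul_one, smul_eq_mul, Real.norm_eq_abs] at h3
  have h4 : |(1 + t) ^ b - 1| ≤ b' * |t| := by
    have h5 : (1 + t) ^ b - 1 = ((1 + t) ^ b - 1 - t * b) + t * b := by ring
    rw [h5]
    refine (abs_add_le _ _).trans ?_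
    rw [abs_mul, abs_of_nonneg hb]
    linarith
  have h6 : 0 ≤ |(1 + t) ^ b - 1| := abs_nonneg _
  calc ((1 + t) ^ b - 1) ^ 2 = |(1 + t) ^ b - 1| ^ 2 := (sq_abs _).symm
    _ ≤ (b' * |t|) ^ 2 := by gcongr
    _ = b' ^ 2 * t ^ 2 := by rw [mul_pow, sq_abs]

/-- the Hardy weight of an edge -/
noncomputable def ww (σ δ : ℝ) : ℝ := 2 * σ * δ / (1 + σ * δ)

lemma ww_lb {σ θ δ : ℝ} (hσ : 0 < σ) (h3 : 3 * σ * θ < 1) (hδ : |δ| ≤ 3 * θ) :
    2 * σ * δ - 2 * σ ^ 2 / (1 - 3 * σ * θ) * δ ^ 2 ≤ ww σ δ := by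
  have h1 : -(3 * θ) ≤ δ := (abs_le.1 hδ).1
  have h2 : 1 - 3 * σ * θ ≤ 1 + σ * δ := by nlinarith
  have h4 : 0 < 1 - 3 * σ * θ := by linarith
  have h5 : 0 < 1 + σ * δ := by linarith
  have h6 : ww σ δ = 2 * σ * δ - 2 * σ ^ 2 * δ ^ 2 / (1 + σ * δ) := by
    unfold ww
    field_simp
    ring
  rw [h6, div_mul_eq_mul_div]
  have h7 : 2 * σ ^ 2 * δ ^ 2 / (1 + σ * δ) ≤ 2 * σ ^ 2 * δ ^ 2 / (1 - 3 * σ * θ) := by
    gcongr
  linarith

lemma hardy_edge {σ θ δ F G : ℝ} (hσ : 0 < σ) (h3 : 3 * σ * θ < 1) (hδ : |δ| ≤ 3 * θ) :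
    F ^ 2 * ww σ δ + G ^ 2 * ww σ (-δ) ≤ (F - G) ^ 2 := by
  obtain ⟨h1, h1'⟩ := abs_le.1 hδ
  have h5 : 0 < 1 + σ * δ := by nlinarith
  have h5' : 0 < 1 - σ * δ := by nlinarith
  have h6 : (F - G) ^ 2 - (F ^ 2 * ww σ δ + G ^ 2 * ww σ (-δ)) =
      ((1 - σ * δ) * F - (1 + σ * δ) * G) ^ 2 / ((1 + σ * δ) * (1 - σ * δ)) := by
    have e1 : ww σ (-δ) = -(2 * σ * δ) / (1 - σ * δ) := by
      unfold ww
      congr 1 <;> ring
    rw [e1]
    unfold ww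
    have h7 := h5'.ne'
    have h8 := h5.ne'
    rw [eq_div_iff (mul_ne_zero h8 h7)]
    field_simp
    ring
  have h8 : 0 ≤ ((1 - σ * δ) * F - (1 + σ * δ) * G) ^ 2 / ((1 + σ * δ) * (1 - σ * δ)) := by
    positivity
  linarith

/-- the relative increment of `r` along an edge -/
noncomputable def dl (r r' : ℝ) : ℝ := (r' - r) / (r' + r)

lemma dl_symm (r r' : ℝ) : dl r' r = -dl r r' := by
  unfold dl
  rw [← neg_div, neg_sub, add_comm]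

section coord

variable {σ θ r z : ℝ}

lemma z_le (hθ : 0 < θ) (hr : 1 ≤ θ ^ 2 * r) (hz : z ^ 2 ≤ r) : |z| ≤ θ * r := by
  have hr0 : 0 < r := by
    by_contra h
    have : θ ^ 2 * r ≤ 0 := mul_nonpos_of_nonneg_of_nonpos (by positivity) (not_lt.1 h)
    linarith
  apply abs_le_of_sq_le_sq _ (by positivity)
  nlinarith [mul_le_mul_of_nonneg_right hr hr0.le]

lemma dl_bd (hθ : 0 < θ) (hθ1 : θ ≤ 1 / 10) (hr : 1 ≤ θ ^ 2 * r) (hz : z ^ 2 ≤ r) :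
    |dl r (r + 1 + 2 * z)| ≤ 3 * θ ∧ 2 * r * (1 - θ) ≤ r + 1 + 2 * z + r ∧
      |(1 + 2 * z) / r| ≤ 3 * θ := by
  have hz' := z_le hθ hr hz
  obtain ⟨hz1, hz2⟩ := abs_le.1 hz'
  have hr0 : 0 < r := by
    by_contra h
    have : θ ^ 2 * r ≤ 0 := mul_nonpos_of_nonneg_of_nonpos (by positivity) (not_lt.1 h)
    linarith
  have h1 : 1 ≤ θ * r := by
    have : θ ^ 2 * r ≤ θ * r := by
      have : θ ^ 2 ≤ θ := by nlinarith
      gcongr
    linarith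
  have h2 : 2 * r * (1 - θ) ≤ r + 1 + 2 * z + r := by nlinarith
  have h3 : r ≤ r + 1 + 2 * z + r := by nlinarith
  have h4 : |1 + 2 * z| ≤ 3 * θ * r := by
    rw [abs_le]
    constructor <;> nlinarith
  refine ⟨?_, h2, ?_⟩
  · unfold dl
    rw [abs_div, abs_of_pos (show 0 < r + 1 + 2 * z + r by linarith),
      div_le_iff₀ (by linarith), show r + 1 + 2 * z - r = 1 + 2 * z by ring]
    refine h4.trans ?_
    have : 0 ≤ 3 * θ := by positivity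
    nlinarith
  · rw [abs_div, abs_of_pos hr0, div_le_iff₀ hr0]
    exact h4

lemma coord_w (hσ : 0 < σ) (hθ : 0 < θ) (hθ1 : θ ≤ 1 / 10) (h3 : 3 * σ * θ < 1)
    (hr : 1 ≤ θ ^ 2 * r) (hz : z ^ 2 ≤ r) :
    2 * σ * ((r - 2 * z ^ 2 - 1) / r ^ 2)
      - 2 * σ ^ 2 / (1 - 3 * σ * θ) * ((2 + 8 * z ^ 2) / (4 * r ^ 2 * (1 - θ) ^ 2))
      ≤ ww σ (dl r (r + 1 + 2 * z)) + ww σ (dl r (r + 1 - 2 * z)) := by
  have hr0 : 0 < r := by
    by_contra h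
    have : θ ^ 2 * r ≤ 0 := mul_nonpos_of_nonneg_of_nonpos (by positivity) (not_lt.1 h)
    linarith
  have hr1 : 1 ≤ r := by nlinarith
  obtain ⟨a1, a2, -⟩ := dl_bd hθ hθ1 hr hz
  have hz' : (-z) ^ 2 ≤ r := by rwa [neg_sq]
  obtain ⟨b1, b2, -⟩ := dl_bd hθ hθ1 hr hz'
  rw [show r + 1 + 2 * -z = r + 1 - 2 * z by ring] at b1 b2
  have c1 := ww_lb hσ h3 a1
  have c2 := ww_lb hσ h3 b1
  have h4 : 0 < 1 - 3 * σ * θ := by linarith
  have hθ' : 0 < 1 - θ := by linarith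
  have hp : 0 < 2 * r * (1 - θ) := by positivity
  have e1 : 0 < r + 1 + 2 * z + r := by linarith
  have e2 : 0 < r + 1 - 2 * z + r := by linarith
  have d1 : (r - 2 * z ^ 2 - 1) / r ^ 2 ≤ dl r (r + 1 + 2 * z) + dl r (r + 1 - 2 * z) := by
    unfold dl
    rw [div_add_div _ _ e1.ne' e2.ne', div_le_div_iff₀ (by positivity) (by positivity)]
    nlinarith [mul_nonneg (sq_nonneg z) (sub_nonneg.2 hz), sq_nonneg z, mul_nonneg hr0.le
      (sq_nonneg z), mul_le_mul_of_nonneg_left hr1 hr0.le]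
  have d2 : dl r (r + 1 + 2 * z) ^ 2 + dl r (r + 1 - 2 * z) ^ 2 ≤
      (2 + 8 * z ^ 2) / (4 * r ^ 2 * (1 - θ) ^ 2) := by
    have f1 : dl r (r + 1 + 2 * z) ^ 2 ≤ (1 + 2 * z) ^ 2 / (4 * r ^ 2 * (1 - θ) ^ 2) := by
      unfold dl
      rw [div_pow, show r + 1 + 2 * z - r = 1 + 2 * z by ring,
        show 4 * r ^ 2 * (1 - θ) ^ 2 = (2 * r * (1 - θ)) ^ 2 by ring]
      gcongr
    have f2 : dl r (r + 1 - 2 * z) ^ 2 ≤ (1 - 2 * z) ^ 2 / (4 * r ^ 2 * (1 - θ) ^ 2) := by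
      unfold dl
      rw [div_pow, show r + 1 - 2 * z - r = 1 - 2 * z by ring,
        show 4 * r ^ 2 * (1 - θ) ^ 2 = (2 * r * (1 - θ)) ^ 2 by ring]
      gcongr
    have f3 : (2 + 8 * z ^ 2) / (4 * r ^ 2 * (1 - θ) ^ 2) =
        (1 + 2 * z) ^ 2 / (4 * r ^ 2 * (1 - θ) ^ 2) +
          (1 - 2 * z) ^ 2 / (4 * r ^ 2 * (1 - θ) ^ 2) := by
      rw [← add_div]
      ring
    linarith
  have g1 : 2 * σ * ((r - 2 * z ^ 2 - 1) / r ^ 2) ≤
      2 * σ * (dl r (r + 1 + 2 * z) + dl r (r + 1 - 2 * z)) := by gcongr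
  have g2 : 2 * σ ^ 2 / (1 - 3 * σ * θ) *
      (dl r (r + 1 + 2 * z) ^ 2 + dl r (r + 1 - 2 * z) ^ 2) ≤
      2 * σ ^ 2 / (1 - 3 * σ * θ) * ((2 + 8 * z ^ 2) / (4 * r ^ 2 * (1 - θ) ^ 2)) := by gcongr
  linarith

lemma coord_p {b b' τ : ℝ} (hθ : 0 < θ) (hθ1 : θ ≤ 1 / 10) (h3 : 3 * θ ≤ τ)
    (hτ : ∀ t : ℝ, |t| ≤ τ → ((1 + t) ^ b - 1) ^ 2 ≤ b' ^ 2 * t ^ 2)
    (hr : 1 ≤ θ ^ 2 * r) (hz : z ^ 2 ≤ r) :
    ((r ^ b - (r + 1 + 2 * z) ^ b) ^ 2 + (r ^ b - (r + 1 - 2 * z) ^ b) ^ 2) ≤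
      (r ^ b) ^ 2 * (b' ^ 2 * ((2 + 8 * z ^ 2) / r ^ 2)) := by
  have hr0 : 0 < r := by
    by_contra h
    have : θ ^ 2 * r ≤ 0 := mul_nonpos_of_nonneg_of_nonpos (by positivity) (not_lt.1 h)
    linarith
  have aux : ∀ z : ℝ, z ^ 2 ≤ r → (r ^ b - (r + 1 + 2 * z) ^ b) ^ 2 ≤
      (r ^ b) ^ 2 * (b' ^ 2 * ((1 + 2 * z) ^ 2 / r ^ 2)) := by
    intro z hz
    obtain ⟨-, -, a3⟩ := dl_bd hθ hθ1 hr hz
    have h1 := hτ _ (a3.trans h3)
    have h2 : r + 1 + 2 * z = r * (1 + (1 + 2 * z) / r) := by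
      field_simp
      ring
    have h3 : 0 ≤ 1 + (1 + 2 * z) / r := by
      have := (abs_le.1 a3).1
      linarith
    rw [h2, Real.mul_rpow hr0.le h3, show (r ^ b - r ^ b * (1 + (1 + 2 * z) / r) ^ b) ^ 2 =
      (r ^ b) ^ 2 * ((1 + (1 + 2 * z) / r) ^ b - 1) ^ 2 by ring, ← div_pow]
    gcongr
  have h1 := aux z hz
  have h2 := aux (-z) (by rwa [neg_sq])
  rw [show r + 1 + 2 * -z = r + 1 - 2 * z by ring] at h2
  have h4 : (r ^ b) ^ 2 * (b' ^ 2 * ((2 + 8 * z ^ 2) / r ^ 2)) =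
      (r ^ b) ^ 2 * (b' ^ 2 * ((1 + 2 * z) ^ 2 / r ^ 2)) +
      (r ^ b) ^ 2 * (b' ^ 2 * ((1 + 2 * -z) ^ 2 / r ^ 2)) := by
    ring
  linarith

end coord

/-! ### sums over the neighbours -/

/-- the Hardy constant -/
noncomputable def gg (d σ θ : ℝ) : ℝ :=
  2 * σ * (d - 2 - d * θ ^ 2) -
    2 * σ ^ 2 / ((1 - 3 * σ * θ) * (1 - θ) ^ 2) * (2 + d * θ ^ 2 / 2)

lemma sum_w {d : ℕ} {σ θ r K : ℝ} (z : Fin d → ℝ) (hσ : 0 < σ) (hθ : 0 < θ) (hθ1 : θ ≤ 1 / 10)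
    (h3 : 3 * σ * θ < 1) (hK : 0 < K) (hKθ : 1 ≤ θ ^ 2 * K) (hr : r = ∑ i, z i ^ 2 + K) :
    gg d σ θ / r ≤ ∑ i, (ww σ (dl r (r + 1 + 2 * z i)) + ww σ (dl r (r + 1 - 2 * z i))) := by
  have hs : 0 ≤ ∑ i, z i ^ 2 := Finset.sum_nonneg fun i _ => sq_nonneg _
  have hr0 : 0 < r := by linarith
  have hr1 : 1 ≤ θ ^ 2 * r := by
    have : θ ^ 2 * K ≤ θ ^ 2 * r := by gcongr; linarith
    linarith
  have hz : ∀ i, z i ^ 2 ≤ r := by
    intro i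
    have : z i ^ 2 ≤ ∑ i, z i ^ 2 :=
      Finset.single_le_sum (f := fun i => z i ^ 2) (fun i _ => sq_nonneg _) (Finset.mem_univ i)
    linarith
  have h1 := Finset.sum_le_sum fun i (_ : i ∈ Finset.univ) =>
    coord_w hσ hθ hθ1 h3 hr1 (hz i)
  refine le_trans ?_ h1
  have h4 : 0 < 1 - 3 * σ * θ := by linarith
  have hθ' : 0 < 1 - θ := by linarith
  rw [Finset.sum_sub_distrib, ← Finset.mul_sum, ← Finset.mul_sum, ← Finset.sum_div,
    ← Finset.sum_div]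
  have e1 : ∑ i, (r - 2 * z i ^ 2 - 1) = d * r - 2 * ∑ i, z i ^ 2 - d := by
    simp [Finset.sum_sub_distrib, Finset.mul_sum]
  have e2 : ∑ i, (2 + 8 * z i ^ 2) = 2 * d + 8 * ∑ i, z i ^ 2 := by
    simp [Finset.sum_add_distrib, Finset.mul_sum, mul_comm]
  rw [e1, e2]
  have e3 : ∑ i, z i ^ 2 ≤ r := by linarith
  have hd : (0 : ℝ) ≤ d := Nat.cast_nonneg d
  have f1 : (d - 2 - d * θ ^ 2) / r ≤ (d * r - 2 * ∑ i, z i ^ 2 - d) / r ^ 2 := by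
    rw [div_le_div_iff₀ hr0 (by positivity)]
    nlinarith [mul_nonneg hd (sub_nonneg.2 hr1), mul_nonneg (mul_nonneg hd (sub_nonneg.2 hr1))
      hr0.le, mul_nonneg (sub_nonneg.2 e3) hr0.le]
  have f2 : (2 * d + 8 * ∑ i, z i ^ 2) / (4 * r ^ 2 * (1 - θ) ^ 2) ≤
      (2 + d * θ ^ 2 / 2) / (r * (1 - θ) ^ 2) := by
    rw [div_le_div_iff₀ (by positivity) (by positivity)]
    have : (2 * d + 8 * ∑ i, z i ^ 2) * r ≤ (2 + d * θ ^ 2 / 2) * (4 * r ^ 2) := by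
      nlinarith [mul_nonneg hd (sub_nonneg.2 hr1), mul_nonneg (mul_nonneg hd (sub_nonneg.2 hr1))
        hr0.le, mul_nonneg (sub_nonneg.2 e3) hr0.le]
    nlinarith [mul_le_mul_of_nonneg_right this (sq_nonneg (1 - θ))]
  have g1 : 2 * σ * ((d - 2 - d * θ ^ 2) / r) ≤
      2 * σ * ((d * r - 2 * ∑ i, z i ^ 2 - d) / r ^ 2) := by gcongr
  have g2 : 2 * σ ^ 2 / (1 - 3 * σ * θ) *
      ((2 * d + 8 * ∑ i, z i ^ 2) / (4 * r ^ 2 * (1 - θ) ^ 2)) ≤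
      2 * σ ^ 2 / (1 - 3 * σ * θ) * ((2 + d * θ ^ 2 / 2) / (r * (1 - θ) ^ 2)) := by gcongr
  have g3 : gg d σ θ / r = 2 * σ * ((d - 2 - d * θ ^ 2) / r) -
      2 * σ ^ 2 / (1 - 3 * σ * θ) * ((2 + d * θ ^ 2 / 2) / (r * (1 - θ) ^ 2)) := by
    unfold gg
    field_simp
  rw [g3]
  linarith

lemma sum_p {d : ℕ} {b b' τ θ r K : ℝ} (z : Fin d → ℝ) (hθ : 0 < θ) (hθ1 : θ ≤ 1 / 10)
    (h3 : 3 * θ ≤ τ) (hτ : ∀ t : ℝ, |t| ≤ τ → ((1 + t) ^ b - 1) ^ 2 ≤ b' ^ 2 * t ^ 2)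
    (hK : 0 < K) (hKθ : 1 ≤ θ ^ 2 * K) (hr : r = ∑ i, z i ^ 2 + K) :
    ∑ i, ((r ^ b - (r + 1 + 2 * z i) ^ b) ^ 2 + (r ^ b - (r + 1 - 2 * z i) ^ b) ^ 2) ≤
      2 * (b' ^ 2 * (4 + d * θ ^ 2)) * ((r ^ b) ^ 2 / r) := by
  have hs : 0 ≤ ∑ i, z i ^ 2 := Finset.sum_nonneg fun i _ => sq_nonneg _
  have hr0 : 0 < r := by linarith
  have hr1 : 1 ≤ θ ^ 2 * r := by
    have : θ ^ 2 * K ≤ θ ^ 2 * r := by gcongr; linarith
    linarith
  have hz : ∀ i, z i ^ 2 ≤ r := by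
    intro i
    have : z i ^ 2 ≤ ∑ i, z i ^ 2 :=
      Finset.single_le_sum (f := fun i => z i ^ 2) (fun i _ => sq_nonneg _) (Finset.mem_univ i)
    linarith
  have h1 := Finset.sum_le_sum fun i (_ : i ∈ Finset.univ) =>
    coord_p hθ hθ1 h3 hτ hr1 (hz i)
  refine h1.trans ?_
  rw [← Finset.mul_sum, ← Finset.mul_sum, ← Finset.sum_div]
  have e2 : ∑ i, (2 + 8 * z i ^ 2) = 2 * d + 8 * ∑ i, z i ^ 2 := by
    simp [Finset.sum_add_distrib, Finset.mul_sum, mul_comm]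
  rw [e2]
  have e3 : ∑ i, z i ^ 2 ≤ r := by linarith
  have hd : (0 : ℝ) ≤ d := Nat.cast_nonneg d
  have f2 : (2 * d + 8 * ∑ i, z i ^ 2) / r ^ 2 ≤ 2 * (4 + d * θ ^ 2) / r := by
    rw [div_le_div_iff₀ (by positivity) hr0]
    nlinarith [mul_nonneg hd (sub_nonneg.2 hr1), mul_nonneg (mul_nonneg hd (sub_nonneg.2 hr1))
      hr0.le, mul_nonneg (sub_nonneg.2 e3) hr0.le]
  calc (r ^ b) ^ 2 * (b' ^ 2 * ((2 * d + 8 * ∑ i, z i ^ 2) / r ^ 2)) ≤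
      (r ^ b) ^ 2 * (b' ^ 2 * (2 * (4 + d * θ ^ 2) / r)) := by gcongr
    _ = 2 * (b' ^ 2 * (4 + d * θ ^ 2)) * ((r ^ b) ^ 2 / r) := by ring

/-! ### summation by parts -/

lemma edge_sum {d : ℕ} (Λ : Finset (Lat d)) (D : Lat d → Lat d → ℝ)
    (h0 : ∀ y y', y ∉ Λ → D y y' = 0)
    (h1 : ∀ y i, 0 ≤ D y (y + Pi.single i 1) + D (y + Pi.single i 1) y) :
    0 ≤ ∑ y ∈ Λ, ∑ i, (D y (y + Pi.single i 1) + D y (y - Pi.single i 1)) := by
  rw [Finset.sum_comm]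
  apply Finset.sum_nonneg
  intro i _
  set e : Lat d := Pi.single i 1 with he
  have a1 : ∑ y ∈ Λ, D y (y + e) = ∑' y, D y (y + e) :=
    (tsum_eq_sum fun y hy => h0 y _ hy).symm
  have s1 : Summable fun y => D y (y + e) :=
    summable_of_ne_finset_zero (s := Λ) fun y hy => h0 y _ hy
  have s2' : Summable fun y => D y (y - e) :=
    summable_of_ne_finset_zero (s := Λ) fun y hy => h0 y _ hy
  have a2 : ∑ y ∈ Λ, D y (y - e) = ∑' y, D (y + e) y := by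
    have t1 : ∑ y ∈ Λ, D y (y - e) = ∑' y, D y (y - e) :=
      (tsum_eq_sum fun y hy => h0 y _ hy).symm
    have t2 := (Equiv.addRight e).tsum_eq (fun y => D y (y - e))
    rw [t1, ← t2]
    apply tsum_congr
    intro y
    simp
  have s2 : Summable fun y => D (y + e) y := by
    have := (Equiv.addRight e).summable_iff.2 s2'
    refine this.congr ?_
    intro y
    simp
  rw [Finset.sum_add_distrib, a1, a2, ← s1.tsum_add s2]
  exact tsum_nonneg fun y => h1 y i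

lemma nsq_nonneg {d : ℕ} (z : Lat d) : 0 ≤ nsq z := by
  unfold nsq
  exact Finset.sum_nonneg fun i _ => sq_nonneg _

lemma nsq_add {d : ℕ} (z : Lat d) (i : Fin d) :
    nsq (z + Pi.single i 1) = nsq z + 1 + 2 * z i := by
  unfold nsq
  have h : ∀ j : Fin d, (((z + Pi.single i (1 : ℤ) : Lat d) j : ℤ) : ℝ) ^ 2 =
      (z j : ℝ) ^ 2 + (if j = i then 1 + 2 * (z i : ℝ) else 0) := by
    intro j
    by_cases hj : j = i
    · subst hj
      simp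
      ring
    · simp [hj]
  rw [Finset.sum_congr rfl fun j _ => h j, Finset.sum_add_distrib, Finset.sum_ite_eq' Finset.univ i]
  simp
  ring

lemma nsq_sub {d : ℕ} (z : Lat d) (i : Fin d) :
    nsq (z - Pi.single i 1) = nsq z + 1 - 2 * z i := by
  have h := nsq_add (z - Pi.single i 1) i
  rw [sub_add_cancel] at h
  simp only [Pi.sub_apply, Pi.single_eq_same] at h
  push_cast at h
  linarith

/-! ### the main estimate -/

/-- the estimate for fixed parameters -/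
lemma green_core {d : ℕ} {γ σ θ b' τ K c : ℝ} (hγ : 0 ≤ γ) (hσ : 0 < σ) (hθ : 0 < θ)
    (hθ1 : θ ≤ 1 / 10) (h3 : 3 * σ * θ < 1) (h3' : 3 * θ ≤ τ)
    (hτ : ∀ t : ℝ, |t| ≤ τ → ((1 + t) ^ ((1 + γ) / 2) - 1) ^ 2 ≤ b' ^ 2 * t ^ 2)
    (hK : 1 ≤ K) (hKθ : 1 ≤ θ ^ 2 * K) (hc : 0 < c) (hg : 0 ≤ gg d σ θ)
    (hcc : c ≤ (1 - θ) ^ 2 * gg d σ θ / (1 + θ) ^ 2 - b' ^ 2 * (4 + d * θ ^ 2)) :
    GreenBound d γ θ (max 1 (K ^ (1 + γ) * K / c ^ 2)) := by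
  intro Λ ψ u U x hx hψ hψ0 hu0 hu
  set b : ℝ := (1 + γ) / 2 with hb
  -- the weight
  obtain ⟨r, hrdef⟩ : ∃ r : Lat d → ℝ, r = fun y => nsq (y - x) + K := ⟨_, rfl⟩
  have hr1 : ∀ y, 1 ≤ r y := by
    intro y
    have := nsq_nonneg (y - x)
    simp only [hrdef]
    linarith
  have hr0 : ∀ y, 0 < r y := fun y => lt_of_lt_of_le one_pos (hr1 y)
  have hradd : ∀ y i, r (y + Pi.single i 1) = r y + 1 + 2 * (((y - x) i : ℤ) : ℝ) := by
    intro y i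
    simp only [hrdef]
    rw [show y + Pi.single i 1 - x = (y - x) + Pi.single i 1 by abel, nsq_add]
    ring
  have hrsub : ∀ y i, r (y - Pi.single i 1) = r y + 1 - 2 * (((y - x) i : ℤ) : ℝ) := by
    intro y i
    simp only [hrdef]
    rw [show y - Pi.single i 1 - x = (y - x) - Pi.single i 1 by abel, nsq_sub]
    ring
  have hrz : ∀ y, r y = ∑ i, (((y - x) i : ℤ) : ℝ) ^ 2 + K := by
    intro y
    rw [hrdef]
    rfl
  have hrK : ∀ y, 1 ≤ θ ^ 2 * r y := by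
    intro y
    have h1 : K ≤ r y := by
      have := nsq_nonneg (y - x)
      simp only [hrdef]
      linarith
    have : θ ^ 2 * K ≤ θ ^ 2 * r y := by gcongr
    linarith
  have hzr : ∀ y i, (((y - x) i : ℤ) : ℝ) ^ 2 ≤ r y := by
    intro y i
    rw [hrz]
    have : (((y - x) i : ℤ) : ℝ) ^ 2 ≤ ∑ i, (((y - x) i : ℤ) : ℝ) ^ 2 :=
      Finset.single_le_sum (f := fun i => (((y - x) i : ℤ) : ℝ) ^ 2) (fun i _ => sq_nonneg _)
        (Finset.mem_univ i)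
    linarith
  obtain ⟨φ, hφdef⟩ : ∃ φ : Lat d → ℝ, φ = fun y => r y ^ b := ⟨_, rfl⟩
  have hφ0 : ∀ y, 0 < φ y := fun y => by rw [hφdef]; exact Real.rpow_pos_of_pos (hr0 y) b
  have hψl : ∀ y, 1 - θ ≤ ψ y := by
    intro y
    have := (abs_le.1 (hψ y)).1
    linarith
  have hψu : ∀ y, ψ y ≤ 1 + θ := by
    intro y
    have := (abs_le.1 (hψ y)).2
    linarith
  have hψp : ∀ y, 0 < ψ y := fun y => lt_of_lt_of_le (by linarith) (hψl y)
  obtain ⟨v, hvdef⟩ : ∃ v : Lat d → ℝ, v = fun y => u y / ψ y := ⟨_, rfl⟩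
  have huv : ∀ y, u y = ψ y * v y := by
    intro y
    simp only [hvdef]
    have := (hψp y).ne'
    field_simp
  have hv0 : ∀ y, y ∉ Λ → v y = 0 := by
    intro y hy
    simp only [hvdef]
    rw [hu0 y hy, zero_div]
  -- the two edge functions
  obtain ⟨H, hH⟩ : ∃ H : Lat d → Lat d → ℝ,
    H = fun y y' => φ y ^ 2 * v y * (u y * ψ y' - ψ y * u y') := ⟨_, rfl⟩
  obtain ⟨M, hM⟩ : ∃ M : Lat d → Lat d → ℝ, M = fun y y' =>
    (1 - θ) ^ 2 * (φ y * v y) ^ 2 * ww σ (dl (r y) (r y'))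
      - 1 / 2 * u y ^ 2 * (φ y - φ y') ^ 2 := ⟨_, rfl⟩
  have key := edge_sum Λ (fun y y' => H y y' - M y y') (by
    intro y y' hy
    simp only [hH, hM]
    rw [hv0 y hy, hu0 y hy]
    ring) (by
    intro y i
    simp only [hH, hM]
    obtain ⟨y', hy'⟩ : ∃ y' : Lat d, y' = y + Pi.single i 1 := ⟨_, rfl⟩
    rw [← hy']
    have hd : |dl (r y) (r y')| ≤ 3 * θ := by
      rw [hy', hradd]
      exact (dl_bd hθ hθ1 (hrK y) (hzr y i)).1
    have he := hardy_edge (F := φ y * v y) (G := φ y' * v y') hσ h3 hd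
    rw [← dl_symm] at he
    rw [huv y, huv y']
    have hpp : (1 - θ) ^ 2 ≤ ψ y * ψ y' := by
      have h1 := hψl y
      have h2 := hψl y'
      have h3 : 0 ≤ 1 - θ := by linarith
      nlinarith
    have k1 : (1 - θ) ^ 2 * ((φ y * v y) ^ 2 * ww σ (dl (r y) (r y')) +
        (φ y' * v y') ^ 2 * ww σ (dl (r y') (r y))) ≤
        ψ y * ψ y' * (φ y * v y - φ y' * v y') ^ 2 :=
      (mul_le_mul_of_nonneg_left he (sq_nonneg _)).trans
        (mul_le_mul_of_nonneg_right hpp (sq_nonneg _))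
    have k2 : 0 ≤ 1 / 2 * (ψ y * v y - ψ y' * v y') ^ 2 * (φ y - φ y') ^ 2 := by positivity
    nlinarith [k1, k2])
  -- the left side
  have hL : ∑ y ∈ Λ, ∑ i, (H y (y + Pi.single i 1) + H y (y - Pi.single i 1)) =
      φ x ^ 2 * u x := by
    have h1 : ∀ y ∈ Λ, ∑ i, (H y (y + Pi.single i 1) + H y (y - Pi.single i 1)) =
        if y = x then φ x ^ 2 * u x else 0 := by
      intro y hy
      have e1 : ∑ i, (H y (y + Pi.single i 1) + H y (y - Pi.single i 1)) =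
          φ y ^ 2 * v y * (ψ y * negLap u y - u y * negLap ψ y) := by
        simp only [hH]
        unfold negLap
        rw [Finset.mul_sum, Finset.mul_sum, ← Finset.sum_sub_distrib, Finset.mul_sum]
        apply Finset.sum_congr rfl
        intro i _
        ring
      have e2 := hψ0 y hy
      have e3 := hu y hy
      have e4 : ψ y * negLap u y - u y * negLap ψ y = ψ y * (if y = x then 1 else 0) := by
        rw [← e3]
        linear_combination (-u y) * e2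
      rw [e1, e4]
      by_cases hyx : y = x
      · subst hyx
        simp only [if_true]
        rw [huv y]
        ring
      · simp [hyx]
    rw [Finset.sum_congr rfl h1, Finset.sum_ite_eq' Λ x, if_pos hx]
  -- the right side
  obtain ⟨S, hS⟩ : ∃ S : ℝ, S = ∑ y ∈ Λ, φ y ^ 2 / r y * u y ^ 2 := ⟨_, rfl⟩
  have hR : c * S ≤ ∑ y ∈ Λ, ∑ i, (M y (y + Pi.single i 1) + M y (y - Pi.single i 1)) := by
    rw [hS, Finset.mul_sum]
    apply Finset.sum_le_sum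
    intro y _
    have w1 := sum_w (r := r y) (fun i => (((y - x) i : ℤ) : ℝ)) hσ hθ hθ1 h3
      (lt_of_lt_of_le one_pos hK) hKθ (hrz y)
    have p1 := sum_p (r := r y) (b := b) (fun i => (((y - x) i : ℤ) : ℝ)) hθ hθ1 h3' hτ
      (lt_of_lt_of_le one_pos hK) hKθ (hrz y)
    have e1 : ∑ i, (M y (y + Pi.single i 1) + M y (y - Pi.single i 1)) =
        (1 - θ) ^ 2 * (φ y * v y) ^ 2 * ∑ i, (ww σ (dl (r y) (r y + 1 + 2 * (((y - x) i : ℤ) : ℝ)))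
          + ww σ (dl (r y) (r y + 1 - 2 * (((y - x) i : ℤ) : ℝ))))
        - 1 / 2 * u y ^ 2 * ∑ i, ((r y ^ b - (r y + 1 + 2 * (((y - x) i : ℤ) : ℝ)) ^ b) ^ 2
          + (r y ^ b - (r y + 1 - 2 * (((y - x) i : ℤ) : ℝ)) ^ b) ^ 2) := by
      simp only [hM, hφdef]
      rw [Finset.mul_sum, Finset.mul_sum, ← Finset.sum_sub_distrib]
      apply Finset.sum_congr rfl
      intro i _
      rw [hradd, hrsub]
      ring
    rw [e1]
    have k1 : (1 - θ) ^ 2 * (φ y * v y) ^ 2 * (gg d σ θ / r y) ≤ (1 - θ) ^ 2 * (φ y * v y) ^ 2 *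
        ∑ i, (ww σ (dl (r y) (r y + 1 + 2 * (((y - x) i : ℤ) : ℝ)))
          + ww σ (dl (r y) (r y + 1 - 2 * (((y - x) i : ℤ) : ℝ)))) := by gcongr
    have k2 : 1 / 2 * u y ^ 2 * ∑ i, ((r y ^ b - (r y + 1 + 2 * (((y - x) i : ℤ) : ℝ)) ^ b) ^ 2
          + (r y ^ b - (r y + 1 - 2 * (((y - x) i : ℤ) : ℝ)) ^ b) ^ 2) ≤
        1 / 2 * u y ^ 2 * (2 * (b' ^ 2 * (4 + d * θ ^ 2)) * ((r y ^ b) ^ 2 / r y)) := by gcongr
    have k3 : u y ^ 2 / (1 + θ) ^ 2 ≤ v y ^ 2 := by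
      simp only [hvdef]
      rw [div_pow]
      have := hψu y
      have := hψp y
      gcongr
    have k4 : (1 - θ) ^ 2 * gg d σ θ / (1 + θ) ^ 2 * (φ y ^ 2 / r y * u y ^ 2) ≤
        (1 - θ) ^ 2 * (φ y * v y) ^ 2 * (gg d σ θ / r y) := by
      have hry := hr0 y
      calc (1 - θ) ^ 2 * gg d σ θ / (1 + θ) ^ 2 * (φ y ^ 2 / r y * u y ^ 2) =
          (1 - θ) ^ 2 * gg d σ θ * (φ y ^ 2 / r y) * (u y ^ 2 / (1 + θ) ^ 2) := by ring
        _ ≤ (1 - θ) ^ 2 * gg d σ θ * (φ y ^ 2 / r y) * v y ^ 2 := by gcongr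
        _ = (1 - θ) ^ 2 * (φ y * v y) ^ 2 * (gg d σ θ / r y) := by ring
    have k5 : c * (φ y ^ 2 / r y * u y ^ 2) ≤
        ((1 - θ) ^ 2 * gg d σ θ / (1 + θ) ^ 2 - b' ^ 2 * (4 + d * θ ^ 2)) *
          (φ y ^ 2 / r y * u y ^ 2) := by
      have hry := hr0 y
      gcongr
    have k6 : 1 / 2 * u y ^ 2 * (2 * (b' ^ 2 * (4 + d * θ ^ 2)) * ((r y ^ b) ^ 2 / r y)) =
        b' ^ 2 * (4 + d * θ ^ 2) * (φ y ^ 2 / r y * u y ^ 2) := by
      simp only [hφdef]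
      ring
    rw [k6] at k2
    linarith
  have hmain : c * S ≤ φ x ^ 2 * u x := by
    have : ∑ y ∈ Λ, ∑ i, (H y (y + Pi.single i 1) - M y (y + Pi.single i 1) +
        (H y (y - Pi.single i 1) - M y (y - Pi.single i 1))) =
        ∑ y ∈ Λ, ∑ i, (H y (y + Pi.single i 1) + H y (y - Pi.single i 1)) -
        ∑ y ∈ Λ, ∑ i, (M y (y + Pi.single i 1) + M y (y - Pi.single i 1)) := by
      rw [← Finset.sum_sub_distrib]
      apply Finset.sum_congr rfl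
      intro y _
      rw [← Finset.sum_sub_distrib]
      apply Finset.sum_congr rfl
      intro i _
      ring
    rw [this, hL] at key
    linarith
  -- conclusion
  have hrx : r x = K := by
    simp [hrdef, nsq]
  have hK0 : 0 < K := lt_of_lt_of_le one_pos hK
  have hSx : φ x ^ 2 / K * u x ^ 2 ≤ S := by
    rw [← hrx, hS]
    exact Finset.single_le_sum (f := fun y => φ y ^ 2 / r y * u y ^ 2)
      (fun y _ => by have := hr0 y; positivity) hx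
  have hφx : 0 < φ x ^ 2 := by
    have := hφ0 x
    positivity
  have hS0 : 0 ≤ S := by
    rw [hS]
    exact Finset.sum_nonneg fun y _ => by have := hr0 y; positivity
  have hux0 : 0 ≤ u x := by
    by_contra h
    have h1 : φ x ^ 2 * u x < 0 := mul_neg_of_pos_of_neg hφx (not_le.1 h)
    have h2 : 0 ≤ c * S := mul_nonneg hc.le hS0
    linarith
  have hux : u x ≤ K / c := by
    rcases hux0.eq_or_lt with h | h
    · rw [← h]
      positivity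
    · have h1 : c * (φ x ^ 2 / K * u x ^ 2) ≤ φ x ^ 2 * u x :=
        (mul_le_mul_of_nonneg_left hSx hc.le).trans hmain
      have h2 : c * (φ x ^ 2 / K * u x ^ 2) = (φ x ^ 2 * u x) * (c * u x / K) := by ring
      rw [h2] at h1
      have h3 : c * u x / K ≤ 1 := by
        by_contra h4
        have h5 : 0 < φ x ^ 2 * u x := by positivity
        have h6 := mul_lt_mul_of_pos_left (not_le.1 h4) h5
        linarith
      rw [div_le_one hK0] at h3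
      rw [le_div_iff₀ hc]
      linarith
  have hφK : φ x ^ 2 = K ^ (1 + γ) := by
    simp only [hφdef]
    rw [hrx, ← Real.rpow_natCast, ← Real.rpow_mul hK0.le]
    congr 1
    rw [hb]
    push_cast
    ring
  have hSC : S ≤ K ^ (1 + γ) * K / c ^ 2 := by
    have h1 : c * S ≤ K ^ (1 + γ) * (K / c) := by
      rw [← hφK]
      exact hmain.trans (by gcongr)
    have h2 : K ^ (1 + γ) * K / c ^ 2 = K ^ (1 + γ) * (K / c) / c := by
      field_simp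
    rw [h2, le_div_iff₀ hc]
    linarith
  refine le_trans ?_ (hSC.trans (le_max_right _ _))
  rw [hS]
  apply Finset.sum_le_sum
  intro y _
  have h1 : φ y ^ 2 / r y = r y ^ γ := by
    simp only [hφdef]
    rw [← Real.rpow_natCast, ← Real.rpow_mul (hr0 y).le, div_eq_iff (hr0 y).ne']
    nth_rewrite 3 [← Real.rpow_one (r y)]
    rw [← Real.rpow_add (hr0 y)]
    congr 1
    rw [hb]
    push_cast
    ring
  rw [h1]
  have h2 : 0 ≤ 1 + nsq (y - x) := by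
    have := nsq_nonneg (y - x)
    linarith
  have h3 : 1 + nsq (y - x) ≤ r y := by
    simp only [hrdef]
    linarith
  gcongr

/-- The weighted Green function bound. -/
theorem stmGreen : StmGreen := by
  intro d hd γ hγ hγd
  have hd' : (5 : ℝ) ≤ d := by exact_mod_cast hd
  set σ : ℝ := ((d : ℝ) - 2) / 4 with hσ
  have hσ0 : 0 < σ := by rw [hσ]; linarith
  set b : ℝ := (1 + γ) / 2 with hb
  -- `b < b' < σ`
  have hbσ : b < σ := by rw [hb, hσ]; linarith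
  set b' : ℝ := (b + σ) / 2 with hb'
  have hbb' : b < b' := by rw [hb']; linarith
  have hb'σ : b' < σ := by rw [hb']; linarith
  have hb0 : 0 ≤ b := by rw [hb]; linarith
  obtain ⟨τ, hτ0, hτ⟩ := rpow_near b b' hb0 hbb'
  -- the constant as `θ → 0`
  have hcont : ContinuousAt (fun θ : ℝ => (1 - θ) ^ 2 * gg d σ θ / (1 + θ) ^ 2
      - b' ^ 2 * (4 + d * θ ^ 2)) 0 := by
    unfold gg
    fun_prop (disch := norm_num)
  have hcont2 : ContinuousAt (fun θ : ℝ => gg d σ θ) 0 := by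
    unfold gg
    fun_prop (disch := norm_num)
  have hval : (1 - (0 : ℝ)) ^ 2 * gg d σ 0 / (1 + 0) ^ 2 - b' ^ 2 * (4 + d * 0 ^ 2) =
      4 * (σ ^ 2 - b' ^ 2) := by
    unfold gg
    rw [hσ]
    norm_num
    ring
  have hval2 : gg d σ 0 = 4 * σ ^ 2 := by
    unfold gg
    rw [hσ]
    norm_num
    ring
  have hpos : 0 < 4 * (σ ^ 2 - b' ^ 2) := by
    have : 0 ≤ b' := by linarith
    nlinarith
  have hpos2 : 0 < 4 * σ ^ 2 := by positivity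
  have ev1 : ∀ᶠ θ in 𝓝 (0 : ℝ), 0 < (1 - θ) ^ 2 * gg d σ θ / (1 + θ) ^ 2
      - b' ^ 2 * (4 + d * θ ^ 2) :=
    hcont.eventually (lt_mem_nhds (by beta_reduce; rw [hval]; exact hpos))
  have ev2 : ∀ᶠ θ in 𝓝 (0 : ℝ), 0 < gg d σ θ :=
    hcont2.eventually (lt_mem_nhds (by beta_reduce; rw [hval2]; exact hpos2))
  have ev3 : ∀ᶠ θ in 𝓝 (0 : ℝ), θ < 1 / 10 := gt_mem_nhds (by norm_num)
  have ev4 : ∀ᶠ θ in 𝓝 (0 : ℝ), θ < 1 / (3 * σ) := gt_mem_nhds (by positivity)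
  have ev5 : ∀ᶠ θ in 𝓝 (0 : ℝ), θ < τ / 3 := gt_mem_nhds (by positivity)
  have ev : ∀ᶠ θ in 𝓝[>] (0 : ℝ), (0 < (1 - θ) ^ 2 * gg d σ θ / (1 + θ) ^ 2
      - b' ^ 2 * (4 + d * θ ^ 2) ∧ 0 < gg d σ θ) ∧ θ < 1 / 10 ∧ θ < 1 / (3 * σ) ∧ θ < τ / 3 :=
    nhdsWithin_le_nhds ((ev1.and ev2).and (ev3.and (ev4.and ev5)))
  obtain ⟨θ, ⟨⟨h1, h2⟩, h3, h4, h5⟩, hθ⟩ := (ev.and self_mem_nhdsWithin).exists
  have hθ0 : 0 < θ := hθ
  rw [lt_div_iff₀ (by positivity)] at h4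
  have h6 : 1 ≤ 1 / θ ^ 2 := by
    rw [le_div_iff₀ (by positivity)]
    nlinarith
  have h7 : 1 ≤ θ ^ 2 * (1 / θ ^ 2) := by
    rw [mul_one_div_cancel (by positivity)]
  exact ⟨θ, _, hθ0, h3.le, le_max_left _ _, green_core hγ hσ0 hθ0 h3.le (by linarith)
    (by linarith) hτ h6 h7 h1 h2.le le_rfl⟩

end Pool.Agent.W122.DS
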