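import Pool.Agent.W122.DS.Stm2

/-!
# Lattice sums with masses at most one
-/

set_option autoImplicit false

namespace Pool.Agent.W122.DS

open Finset

lemma kl_step (a : ℝ) (ha : 0 < a) (ha1 : a ≤ 1) (n : ℕ) :
    ((n : ℝ) + 1) ^ (a - 1) ≤ (((n : ℝ) + 1) ^ a - (n : ℝ) ^ a) / a := by
  have hn : (0 : ℝ) < (n : ℝ) + 1 := by positivity
  rw [le_div_iff₀ ha]
  have h0 : (0 : ℝ) ≤ 1 + (-(1 / ((n : ℝ) + 1))) := by
    have : 1 / ((n : ℝ) + 1) ≤ 1 := by
      rw [div_le_one hn]
      linarith [(Nat.cast_nonneg n : (0 : ℝ) ≤ n)]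
    linarith
  have h1 : (n : ℝ) ^ a = ((n : ℝ) + 1) ^ a * (1 + (-(1 / ((n : ℝ) + 1)))) ^ a := by
    rw [← Real.mul_rpow hn.le h0]
    congr 1
    field_simp
    ring
  have h2 : (1 + (-(1 / ((n : ℝ) + 1)))) ^ a ≤ 1 + a * (-(1 / ((n : ℝ) + 1))) :=
    rpow_one_add_le_one_add_mul_self (by linarith) ha.le ha1
  have h3 : ((n : ℝ) + 1) ^ a = ((n : ℝ) + 1) ^ (a - 1) * ((n : ℝ) + 1) := by
    rw [← Real.rpow_add_one hn.ne']
    congr 1
    ring
  have h4 : (0 : ℝ) ≤ ((n : ℝ) + 1) ^ a := by positivity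
  have h5 : (n : ℝ) ^ a ≤ ((n : ℝ) + 1) ^ a * (1 + a * (-(1 / ((n : ℝ) + 1)))) := by
    rw [h1]
    exact mul_le_mul_of_nonneg_left h2 h4
  have h6 : ((n : ℝ) + 1) ^ a * (1 + a * (-(1 / ((n : ℝ) + 1))))
      = ((n : ℝ) + 1) ^ a - ((n : ℝ) + 1) ^ (a - 1) * a := by
    rw [h3]
    field_simp
    ring
  linarith

lemma kl_term (a : ℝ) (ha1 : a ≤ 1) (n : ℕ) :
    (1 + ((n : ℝ) + 1) ^ 2) ^ (-((1 - a) / 2)) ≤ ((n : ℝ) + 1) ^ (a - 1) := by
  have hn : (0 : ℝ) < (n : ℝ) + 1 := by positivity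
  have h1 : (((n : ℝ) + 1) ^ 2) ^ (-((1 - a) / 2)) = ((n : ℝ) + 1) ^ (a - 1) := by
    rw [← Real.rpow_natCast, ← Real.rpow_mul hn.le]
    congr 1
    push_cast
    ring
  rw [← h1]
  exact Real.rpow_le_rpow_of_nonpos (by positivity) (by linarith) (by linarith)

lemma kl_one (a : ℝ) (ha : 0 < a) (ha1 : a ≤ 1) (n : ℕ) :
    ∑ j ∈ Icc (-(n : ℤ)) n, (1 + (j : ℝ) ^ 2) ^ (-((1 - a) / 2)) ≤ 1 + 2 * ((n : ℝ) ^ a / a) := by
  induction n with
  | zero => simp [ha.ne']
  | succ n ih =>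
    have h1 : Icc (-((n + 1 : ℕ) : ℤ)) ((n + 1 : ℕ) : ℤ)
        = insert ((n : ℤ) + 1) (insert (-((n : ℤ) + 1)) (Icc (-(n : ℤ)) n)) := by
      ext j
      simp only [mem_Icc, mem_insert]
      push_cast
      omega
    rw [h1, sum_insert, sum_insert]
    · have h2 := kl_step a ha ha1 n
      have h3 := kl_term a ha1 n
      push_cast
      rw [neg_sq]
      have h4 : (((n : ℝ) + 1) ^ a - (n : ℝ) ^ a) / a = ((n : ℝ) + 1) ^ a / a - (n : ℝ) ^ a / a :=
        sub_div _ _ _
      rw [h4] at h2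
      linarith
    · simp only [mem_Icc, not_and, not_le]
      omega
    · simp only [mem_Icc, mem_insert, not_or, not_and, not_le]
      omega

lemma kl_prod (d : ℕ) (g : ℝ) (hd : 1 ≤ d) (hg : 0 ≤ g) (z : Lat d) :
    (1 + nsq z) ^ (-g) ≤ ∏ i, (1 + (z i : ℝ) ^ 2) ^ (-(g / d)) := by
  have hd0 : (0 : ℝ) < d := by exact_mod_cast hd
  have h0 : 0 ≤ nsq z := sum_nonneg fun i _ => sq_nonneg _
  have h1 : (1 + nsq z) ^ (-g) = ∏ _i : Fin d, (1 + nsq z) ^ (-(g / d)) := by
    rw [prod_const, card_univ, Fintype.card_fin, ← Real.rpow_natCast, ← Real.rpow_mul (by linarith)]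
    congr 1
    field_simp
  rw [h1]
  apply prod_le_prod
  · intro i _
    positivity
  · intro i _
    apply Real.rpow_le_rpow_of_nonpos (by positivity)
    · have : (z i : ℝ) ^ 2 ≤ nsq z :=
        single_le_sum (f := fun i => (z i : ℝ) ^ 2) (fun _ _ => sq_nonneg _) (mem_univ i)
      linarith
    · have : 0 ≤ g / d := by positivity
      linarith

theorem stmKL : StmKL := by
  intro d g hd hg hgd
  have hd0 : (0 : ℝ) < d := by exact_mod_cast hd
  set a : ℝ := 1 - 2 * g / d with ha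
  have ha0 : 0 < a := by
    rw [ha, sub_pos, div_lt_one hd0]
    exact hgd
  have ha1 : a ≤ 1 := by
    have : 0 ≤ 2 * g / d := by positivity
    linarith
  have hgd' : (1 - a) / 2 = g / d := by
    rw [ha]
    field_simp
    ring
  refine ⟨1 + (3 / a) ^ d, by have : 0 ≤ (3 / a) ^ d := by positivity
                              linarith, ?_⟩
  intro Λ x K w hK hw0 hw1 hwK
  have hK0 : 0 < K := by linarith
  set R : ℝ := K ^ (1 / (d : ℝ)) with hR
  have hR1 : 1 ≤ R := Real.one_le_rpow hK (by positivity)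
  set N : ℕ := ⌊R⌋₊ with hN
  have hNR : (N : ℝ) ≤ R := Nat.floor_le (by linarith)
  have hRN : R < N + 1 := Nat.lt_floor_add_one R
  have hns : ∀ z : Lat d, 0 ≤ nsq z := fun z => sum_nonneg fun i _ => sq_nonneg _
  classical
  rw [← sum_filter_add_sum_filter_not Λ (fun y => ∀ i, |y i - x i| ≤ (N : ℤ))]
  have hfar : ∑ y ∈ Λ.filter (fun y => ¬ ∀ i, |y i - x i| ≤ (N : ℤ)),
      (1 + nsq (y - x)) ^ (-g) * w y ≤ K ^ a := by
    have h1 : ∀ y ∈ Λ.filter (fun y => ¬ ∀ i, |y i - x i| ≤ (N : ℤ)),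
        (1 + nsq (y - x)) ^ (-g) * w y ≤ K ^ (a - 1) * w y := by
      intro y hy
      rw [mem_filter] at hy
      obtain ⟨_, hy⟩ := hy
      push Not at hy
      obtain ⟨i, hi⟩ := hy
      apply mul_le_mul_of_nonneg_right _ (hw0 y)
      have h2 : R ^ 2 ≤ 1 + nsq (y - x) := by
        have h3 : (((y - x) i : ℤ) : ℝ) ^ 2 ≤ nsq (y - x) :=
          single_le_sum (f := fun i => (((y - x) i : ℤ) : ℝ) ^ 2) (fun _ _ => sq_nonneg _)
            (mem_univ i)
        have h4 : (N : ℝ) + 1 ≤ |(((y - x) i : ℤ) : ℝ)| := by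
          rw [← Int.cast_abs]
          exact_mod_cast hi
        have h5 : R ^ 2 ≤ |(((y - x) i : ℤ) : ℝ)| ^ 2 :=
          pow_le_pow_left₀ (by linarith) (by linarith) 2
        rw [sq_abs] at h5
        linarith
      have h3 : K ^ (a - 1) = (R ^ 2) ^ (-g) := by
        rw [← Real.rpow_natCast, ← Real.rpow_mul (by linarith), hR, ← Real.rpow_mul hK0.le]
        congr 1
        rw [ha]
        push_cast
        field_simp
        ring
      rw [h3]
      exact Real.rpow_le_rpow_of_nonpos (by positivity) h2 (by linarith)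
    calc _ ≤ ∑ y ∈ Λ.filter (fun y => ¬ ∀ i, |y i - x i| ≤ (N : ℤ)), K ^ (a - 1) * w y :=
          sum_le_sum h1
      _ = K ^ (a - 1) * ∑ y ∈ Λ.filter (fun y => ¬ ∀ i, |y i - x i| ≤ (N : ℤ)), w y :=
          (mul_sum _ _ _).symm
      _ ≤ K ^ (a - 1) * ∑ y ∈ Λ, w y := by
          apply mul_le_mul_of_nonneg_left _ (by positivity)
          exact sum_le_sum_of_subset_of_nonneg (filter_subset _ _) fun y _ _ => hw0 y
      _ ≤ K ^ (a - 1) * K := mul_le_mul_of_nonneg_left hwK (by positivity)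
      _ = K ^ a := by
          rw [← Real.rpow_add_one hK0.ne']
          congr 1
          ring
  have hnear : ∑ y ∈ Λ.filter (fun y => ∀ i, |y i - x i| ≤ (N : ℤ)),
      (1 + nsq (y - x)) ^ (-g) * w y ≤ (3 / a) ^ d * K ^ a := by
    calc ∑ y ∈ Λ.filter (fun y => ∀ i, |y i - x i| ≤ (N : ℤ)), (1 + nsq (y - x)) ^ (-g) * w y
        ≤ ∑ y ∈ Λ.filter (fun y => ∀ i, |y i - x i| ≤ (N : ℤ)), (1 + nsq (y - x)) ^ (-g) := by
          apply sum_le_sum
          intro y _
          have : 0 ≤ (1 + nsq (y - x)) ^ (-g) := Real.rpow_nonneg (by linarith [hns (y - x)]) _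
          exact mul_le_of_le_one_right this (hw1 y)
      _ = ∑ z ∈ (Λ.filter (fun y => ∀ i, |y i - x i| ≤ (N : ℤ))).image (fun y => y - x),
            (1 + nsq z) ^ (-g) := by
          rw [sum_image]
          intro y _ y' _ h
          exact sub_left_injective h
      _ ≤ ∑ z ∈ Fintype.piFinset (fun _ : Fin d => Icc (-(N : ℤ)) N), (1 + nsq z) ^ (-g) := by
          apply sum_le_sum_of_subset_of_nonneg
          · intro z hz
            rw [mem_image] at hz
            obtain ⟨y, hy, rfl⟩ := hz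
            rw [mem_filter] at hy
            rw [Fintype.mem_piFinset]
            intro i
            rw [mem_Icc]
            exact abs_le.1 (hy.2 i)
          · intro z _ _
            exact Real.rpow_nonneg (by linarith [hns z]) _
      _ ≤ ∑ z ∈ Fintype.piFinset (fun _ : Fin d => Icc (-(N : ℤ)) N),
            ∏ i, (1 + (z i : ℝ) ^ 2) ^ (-(g / d)) := sum_le_sum fun z _ => kl_prod d g hd hg z
      _ = ∏ _i : Fin d, ∑ j ∈ Icc (-(N : ℤ)) N, (1 + (j : ℝ) ^ 2) ^ (-(g / d)) :=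
          (prod_univ_sum (fun _ : Fin d => Icc (-(N : ℤ)) N)
            (fun _ j => (1 + (j : ℝ) ^ 2) ^ (-(g / d)))).symm
      _ ≤ ∏ _i : Fin d, (3 / a * R ^ a) := by
          apply prod_le_prod
          · intro i _
            apply sum_nonneg
            intro j _
            positivity
          · intro i _
            have h1 := kl_one a ha0 ha1 N
            rw [hgd'] at h1
            have h2 : (N : ℝ) ^ a ≤ R ^ a := Real.rpow_le_rpow (by positivity) hNR ha0.le
            have h3 : 1 ≤ R ^ a := Real.one_le_rpow hR1 ha0.le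
            have h4 : (N : ℝ) ^ a / a ≤ R ^ a / a := by
              exact div_le_div_of_nonneg_right h2 ha0.le
            have h5 : 1 ≤ R ^ a / a := by
              rw [le_div_iff₀ ha0]
              linarith
            have h6 : 3 / a * R ^ a = 3 * (R ^ a / a) := by ring
            rw [h6]
            linarith
      _ = (3 / a) ^ d * K ^ a := by
          rw [prod_const, card_univ, Fintype.card_fin, mul_pow]
          congr 1
          rw [← Real.rpow_natCast, ← Real.rpow_mul (by linarith), hR, ← Real.rpow_mul hK0.le]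
          congr 1
          field_simp
  linarith

end Pool.Agent.W122.DS
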