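import Pool.Agent.W122.DS.Defs

/-!
# From finite to infinite volume by compactness
-/

set_option autoImplicit false

namespace Pool.Agent.W122.DS.Limit

open MeasureTheory ProbabilityTheory Filter Topology Set

/-- The integers from `-n` to `n`. -/
abbrev Grid (n : ℕ) : Type := ↥(Finset.Icc (-(n : ℤ)) n)

/-- The discretisation. -/
noncomputable def cell (n : ℕ) (t : ℝ) : Grid n :=
  ⟨max (-(n : ℤ)) (min n ⌊(n : ℝ) * t⌋), by
    rw [Finset.mem_Icc]
    exact ⟨le_max_left _ _, max_le (by omega) (min_le_left _ _)⟩⟩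

theorem cell_meas (n : ℕ) (s : Grid n) : MeasurableSet (cell n ⁻¹' {s}) := by
  have h : cell n ⁻¹' {s} = (fun t : ℝ => ⌊(n : ℝ) * t⌋) ⁻¹' {m : ℤ | max (-(n : ℤ)) (min n m) = s.1} := by
    ext t
    simp only [mem_preimage, mem_singleton_iff]
    rw [Subtype.ext_iff]
    exact Iff.rfl
  rw [h]
  exact (Int.measurable_floor.comp (measurable_const_mul (n : ℝ))) (MeasurableSet.of_discrete)

theorem cell_val {n : ℕ} {t : ℝ} (ht : |t| ≤ 1) : ((cell n t).1 : ℤ) = ⌊(n : ℝ) * t⌋ := by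
  have h1 := abs_le.1 ht
  have hn : (0 : ℝ) ≤ n := Nat.cast_nonneg n
  have h2 : ⌊(n : ℝ) * t⌋ ≤ n := by
    have h3 : (n : ℝ) * t ≤ n := by nlinarith [h1.2]
    have h4 := Int.floor_le ((n : ℝ) * t)
    have h5 : ((⌊(n : ℝ) * t⌋ : ℤ) : ℝ) ≤ ((n : ℤ) : ℝ) := by push_cast; linarith
    exact_mod_cast h5
  have h3 : -(n : ℤ) ≤ ⌊(n : ℝ) * t⌋ := by
    rw [Int.le_floor]
    push_cast
    nlinarith [h1.1]
  show max (-(n : ℤ)) (min n ⌊(n : ℝ) * t⌋) = _
  rw [min_eq_right h2, max_eq_right h3]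

theorem cell_near {n : ℕ} (hn : 0 < n) {t : ℝ} (ht : |t| ≤ 1) :
    ((cell n t).1 : ℝ) / n ≤ t ∧ t ≤ ((cell n t).1 : ℝ) / n + 1 / n := by
  have hn' : (0 : ℝ) < n := by exact_mod_cast hn
  have h0 : (((cell n t).1 : ℤ) : ℝ) = (⌊(n : ℝ) * t⌋ : ℤ) := by rw [cell_val ht]
  rw [h0]
  constructor
  · rw [div_le_iff₀ hn']
    have := Int.floor_le ((n : ℝ) * t)
    linarith
  · rw [← add_div, le_div_iff₀ hn']
    have := Int.lt_floor_add_one ((n : ℝ) * t)
    linarith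

theorem grid_abs {n : ℕ} (hn : 0 < n) (s : Grid n) : |((s.1 : ℤ) : ℝ) / n| ≤ 1 := by
  have hn' : (0 : ℝ) < n := by exact_mod_cast hn
  have h := Finset.mem_Icc.1 s.2
  have h1 : (-(n : ℝ)) ≤ ((s.1 : ℤ) : ℝ) := by exact_mod_cast h.1
  have h2 : ((s.1 : ℤ) : ℝ) ≤ (n : ℝ) := by exact_mod_cast h.2
  rw [abs_le]
  constructor
  · rw [le_div_iff₀ hn']; linarith
  · rw [div_le_iff₀ hn']; linarith

section prob

variable {Ω : Type} [MeasurableSpace Ω] (P : Measure Ω) [IsProbabilityMeasure P]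

theorem Pr_eq {d : ℕ} (ξ : Lat d → Ω → ℝ) (hm : ∀ x, Measurable (ξ x)) (hi : iIndepFun ξ P)
    {S : Type} [Fintype S] [DecidableEq S] (c : ℝ → S) (hc : ∀ s, MeasurableSet (c ⁻¹' {s}))
    (Λ : Finset (Lat d)) (A : (Λ → S) → Prop) :
    P.real {w | A (fun x : Λ => c (ξ x w))} =
      Pr (fun (x : Λ) s => P.real {w | c (ξ x.1 w) = s}) A := by
  classical
  have hms : ∀ (x : Λ) (s : S), MeasurableSet {w | c (ξ x.1 w) = s} :=
    fun x s => hm x.1 (hc s)
  have h1 : {w | A (fun x : Λ => c (ξ x w))} =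
      ⋃ ω ∈ (Finset.univ.filter A : Finset (Λ → S)), ⋂ x : Λ, {w | c (ξ x.1 w) = ω x} := by
    ext w
    simp only [mem_ofPred_eq, mem_iUnion, mem_iInter, Finset.mem_filter, Finset.mem_univ, true_and,
      exists_prop]
    constructor
    · intro h
      exact ⟨_, h, fun x => rfl⟩
    · rintro ⟨ω, h, h'⟩
      have : (fun x : Λ => c (ξ x w)) = ω := funext h'
      rw [this]
      exact h
  rw [h1, measureReal_biUnion_finset]
  · unfold Pr Ex
    rw [Finset.sum_filter]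
    refine Finset.sum_congr rfl fun ω _ => ?_
    beta_reduce
    by_cases hA : A ω
    · rw [if_pos hA, if_pos hA, mul_one]
      have h2 : iIndepFun (fun x : Λ => ξ x.1) P := hi.precomp Subtype.val_injective
      have h3 := h2.measure_inter_preimage_eq_mul Finset.univ (sets := fun x => c ⁻¹' {ω x})
        (fun x _ => hc _)
      have h4 : (⋂ x : Λ, {w | c (ξ x.1 w) = ω x}) =
          ⋂ x ∈ (Finset.univ : Finset Λ), (ξ x.1) ⁻¹' (c ⁻¹' {ω x}) := by
        ext w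
        simp
      rw [measureReal_def, h4, h3, ENNReal.toReal_prod]
      rfl
    · rw [if_neg hA, if_neg hA, mul_zero]
  · intro ω _ ω' _ hne
    rw [Function.onFun, Set.disjoint_left]
    intro w h h'
    apply hne
    funext x
    have h5 := mem_iInter.1 h x
    have h6 := mem_iInter.1 h' x
    exact h5.symm.trans h6
  · intro ω _
    exact MeasurableSet.iInter fun x => hms x _

theorem int_eq {S : Type} [Fintype S] [DecidableEq S] (f : Ω → S)
    (hf : ∀ s, MeasurableSet {w | f w = s}) (g : S → ℝ) :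
    ∫ w, g (f w) ∂P = ∑ s, P.real {w | f w = s} * g s := by
  have h1 : (fun w => g (f w)) = fun w => ∑ s, ({w | f w = s}.indicator (fun _ => g s) w) := by
    funext w
    rw [Finset.sum_eq_single (f w)]
    · rw [indicator_of_mem]
      rfl
    · intro s _ hs
      rw [indicator_of_notMem]
      exact fun h => hs h.symm
    · intro h
      exact absurd (Finset.mem_univ _) h
  rw [h1, integral_finsetSum]
  · refine Finset.sum_congr rfl fun s _ => ?_
    rw [integral_indicator_const _ (hf s), smul_eq_mul]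
  · intro s _
    exact (integrable_const _).indicator (hf s)

variable {d : ℕ}

/-- The law of the cells. -/
noncomputable def pL (n : ℕ) (ξ : Lat d → Ω → ℝ) (x : Lat d) (s : Grid n) : ℝ :=
  P.real {w | cell n (ξ x w) = s}

/-- The mean of the cells. -/
noncomputable def mL (n : ℕ) (ξ : Lat d → Ω → ℝ) (x : Lat d) : ℝ :=
  ∑ s, pL P n ξ x s * (((s.1 : ℤ) : ℝ) / n)

/-- The values of the cells. -/
noncomputable def vL (n : ℕ) (ξ : Lat d → Ω → ℝ) (x : Lat d) (s : Grid n) : ℝ :=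
  ((s.1 : ℤ) : ℝ) / n - mL P n ξ x

variable {ξ : Lat d → Ω → ℝ} (hm : ∀ x, Measurable (ξ x)) (hb : ∀ x ω, |ξ x ω| ≤ 1)

include hm in
theorem cell_ms (n : ℕ) (x : Lat d) (s : Grid n) : MeasurableSet {w | cell n (ξ x w) = s} :=
  hm x (cell_meas n s)

include hm in
theorem isPr (n : ℕ) : IsPr (pL P n ξ) := by
  refine ⟨fun x s => measureReal_nonneg, fun x => ?_⟩
  have h := int_eq P (fun w => cell n (ξ x w)) (cell_ms hm n x) (fun _ => 1)
  simp only [integral_const, probReal_univ, smul_eq_mul, mul_one] at h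
  exact h.symm

include hm in
theorem mL_int (n : ℕ) (x : Lat d) :
    mL P n ξ x = ∫ w, (((cell n (ξ x w)).1 : ℤ) : ℝ) / n ∂P :=
  (int_eq P (fun w => cell n (ξ x w)) (cell_ms hm n x) (fun s => ((s.1 : ℤ) : ℝ) / n)).symm

include hm in
theorem cell_integrable {n : ℕ} (hn : 0 < n) (x : Lat d) :
    Integrable (fun w => (((cell n (ξ x w)).1 : ℤ) : ℝ) / n) P := by
  refine Integrable.of_bound (C := 1) ?_ (Filter.Eventually.of_forall fun w => ?_)
  · refine Measurable.aestronglyMeasurable ?_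
    have h : Measurable fun t : ℝ => ((cell n t).1 : ℤ) := by
      have h1 : Measurable fun t : ℝ => ⌊(n : ℝ) * t⌋ :=
        Int.measurable_floor.comp (measurable_const_mul (n : ℝ))
      exact (Measurable.of_discrete (f := fun m : ℤ => max (-(n : ℤ)) (min n m))).comp h1
    have h2 : Measurable fun m : ℤ => (m : ℝ) / n := Measurable.of_discrete
    exact h2.comp (h.comp (hm x))
  · rw [Real.norm_eq_abs]
    exact grid_abs hn _

include hm hb in
theorem mL_near {n : ℕ} (hn : 0 < n) (x : Lat d) (h0 : ∫ w, ξ x w ∂P = 0) :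
    |mL P n ξ x| ≤ 1 / n := by
  have hI : Integrable (ξ x) P := Integrable.of_bound (C := 1) (hm x).aestronglyMeasurable
    (Filter.Eventually.of_forall fun w => hb x w)
  have hc := cell_integrable P hm hn x
  have h1 : ∫ w, (((cell n (ξ x w)).1 : ℤ) : ℝ) / n ∂P ≤ ∫ w, ξ x w ∂P :=
    integral_mono hc hI fun w => (cell_near hn (hb x w)).1
  have h2 : ∫ w, ξ x w ∂P ≤ ∫ w, ((((cell n (ξ x w)).1 : ℤ) : ℝ) / n + 1 / n) ∂P :=
    integral_mono hI (hc.add (integrable_const _)) fun w => (cell_near hn (hb x w)).2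
  rw [integral_add hc (integrable_const _), integral_const, probReal_univ, smul_eq_mul,
    one_mul] at h2
  rw [← mL_int P hm n x, h0] at h1 h2
  rw [abs_le]
  constructor <;> linarith

include hm hb in
theorem vL_near {n : ℕ} (hn : 0 < n) (x : Lat d) (h0 : ∫ w, ξ x w ∂P = 0) (w : Ω) :
    |vL P n ξ x (cell n (ξ x w)) - ξ x w| ≤ 2 / n := by
  have h1 := abs_le.1 (mL_near P hm hb hn x h0)
  have h2 := cell_near hn (hb x w)
  have h3 : (2 : ℝ) / n = 1 / n + 1 / n := by ring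
  unfold vL
  rw [abs_le]
  constructor <;> linarith [h1.1, h1.2, h2.1, h2.2]

include hm hb in
theorem isLaw {n : ℕ} (hn : 0 < n) (h0 : ∀ x, ∫ w, ξ x w ∂P = 0) :
    Law (pL P n ξ) (vL P n ξ) := by
  refine ⟨isPr P hm n, fun x s => ?_, fun x => ?_⟩
  · have h1 := abs_le.1 (mL_near P hm hb hn x (h0 x))
    have h2 := abs_le.1 (grid_abs hn s)
    have h3 : (1 : ℝ) / n ≤ 1 := by
      rw [div_le_one (by exact_mod_cast hn)]
      exact_mod_cast hn
    unfold vL
    rw [abs_le]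
    constructor <;> linarith [h1.1, h1.2, h2.1, h2.2]
  · unfold vL
    have h1 : ∑ s, pL P n ξ x s * (((s.1 : ℤ) : ℝ) / n - mL P n ξ x) =
        ∑ s, pL P n ξ x s * (((s.1 : ℤ) : ℝ) / n) - (∑ s, pL P n ξ x s) * mL P n ξ x := by
      rw [Finset.sum_mul, ← Finset.sum_sub_distrib]
      exact Finset.sum_congr rfl fun s _ => by ring
    rw [h1, (isPr P hm n).sum x, one_mul]
    unfold mL
    ring

theorem ev_meas (ξ : Lat d → Ω → ℝ) (hm : ∀ x, Measurable (ξ x))
    {S : Type} [Fintype S] [DecidableEq S] (c : ℝ → S) (hc : ∀ s, MeasurableSet (c ⁻¹' {s}))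
    (Λ : Finset (Lat d)) (A : (Λ → S) → Prop) :
    MeasurableSet {w | A (fun x : Λ => c (ξ x w))} := by
  classical
  have h1 : {w | A (fun x : Λ => c (ξ x w))} =
      ⋃ ω ∈ (Finset.univ.filter A : Finset (Λ → S)), ⋂ x : Λ, {w | c (ξ x.1 w) = ω x} := by
    ext w
    simp only [mem_ofPred_eq, mem_iUnion, mem_iInter, Finset.mem_filter, Finset.mem_univ, true_and,
      exists_prop]
    constructor
    · intro h
      exact ⟨_, h, fun x => rfl⟩
    · rintro ⟨ω, h, h'⟩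
      have : (fun x : Λ => c (ξ x w)) = ω := funext h'
      rw [this]
      exact h
  rw [h1]
  exact Finset.measurableSet_biUnion _ fun ω _ => MeasurableSet.iInter fun x => hm x.1 (hc _)

theorem limsup_prob (E : ℕ → Set Ω) (hE : ∀ n, MeasurableSet (E n)) (δ : ℝ)
    (h : ∀ n, 1 - δ ≤ P.real (E n)) :
    MeasurableSet (⋂ n, ⋃ j, ⋃ (_ : n ≤ j), E j) ∧
      1 - δ ≤ P.real (⋂ n, ⋃ j, ⋃ (_ : n ≤ j), E j) := by
  have hG : ∀ n : ℕ, MeasurableSet (⋃ j, ⋃ (_ : n ≤ j), E j) := fun n =>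
    MeasurableSet.iUnion fun j => MeasurableSet.iUnion fun _ => hE j
  refine ⟨MeasurableSet.iInter hG, ?_⟩
  have h1 : Tendsto (fun n : ℕ => P (⋃ j, ⋃ (_ : n ≤ j), E j)) atTop
      (𝓝 (P (⋂ n, ⋃ j, ⋃ (_ : n ≤ j), E j))) := by
    refine tendsto_measure_iInter_atTop (fun n => (hG n).nullMeasurableSet) ?_ ⟨0, measure_ne_top _ _⟩
    intro n m hnm w hw
    obtain ⟨j, hj⟩ := mem_iUnion.1 hw
    obtain ⟨hj, hw⟩ := mem_iUnion.1 hj
    exact mem_iUnion.2 ⟨j, mem_iUnion.2 ⟨hnm.trans hj, hw⟩⟩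
  have h2 : Tendsto (fun n : ℕ => P.real (⋃ j, ⋃ (_ : n ≤ j), E j)) atTop
      (𝓝 (P.real (⋂ n, ⋃ j, ⋃ (_ : n ≤ j), E j))) :=
    (ENNReal.tendsto_toReal (measure_ne_top _ _)).comp h1
  refine ge_of_tendsto h2 (Filter.Eventually.of_forall fun n => (h n).trans ?_)
  exact measureReal_mono (subset_iUnion_of_subset n (subset_iUnion_of_subset le_rfl subset_rfl))
    (measure_ne_top _ _)

end prob

theorem tendsto_negLap {d : ℕ} {F : Filter ℕ} {ψ : ℕ → Lat d → ℝ} {ψ0 : Lat d → ℝ}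
    (h : ∀ x, Tendsto (fun j => ψ j x) F (𝓝 (ψ0 x))) (x : Lat d) :
    Tendsto (fun j => negLap (ψ j) x) F (𝓝 (negLap ψ0 x)) := by
  unfold negLap
  exact tendsto_finsetSum _ fun i _ => (((h x).const_mul 2).sub (h _)).sub (h _)

end Pool.Agent.W122.DS.Limit

namespace Pool.Agent.W122.DS

open MeasureTheory ProbabilityTheory Filter Topology Set Limit

/-- **From finite to infinite volume.** -/
theorem stmLimit : StmLimit := by
  intro d a B C δ ha hB hC hF Ω _ P _ ξ hm hi hb h0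
  classical
  let L : ℕ → Finset (Lat d) := fun n => Fintype.piFinset (fun _ => Finset.Icc (-(n : ℤ)) n)
  have hL : ∀ x : Lat d, ∀ᶠ n in atTop, x ∈ L (n + 1) := by
    intro x
    refine eventually_atTop.2 ⟨∑ i, (x i).natAbs, fun n hn => ?_⟩
    rw [Fintype.mem_piFinset]
    intro i
    have h1 : (x i).natAbs ≤ ∑ i, (x i).natAbs :=
      Finset.single_le_sum (f := fun i => (x i).natAbs) (fun _ _ => Nat.zero_le _)
        (Finset.mem_univ i)
    rw [Finset.mem_Icc]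
    omega
  let A : ∀ n : ℕ, (Lat d → ℝ) → (L (n + 1) → Grid (n + 1)) → Prop := fun n W ω =>
    ∃ ψ : Lat d → ℝ, (∀ x, |ψ x - 1| ≤ B x) ∧
      ∀ x : L (n + 1), negLap ψ x.1 + (a x.1 * vL P (n + 1) ξ x.1 (ω x) + W x.1) * ψ x.1 = 0
  have hF' : ∀ n : ℕ, ∃ W : Lat d → ℝ, (∀ x, |W x| ≤ C * a x ^ 2) ∧
      1 - δ ≤ P.real {w | A n W (fun x => cell (n + 1) (ξ x.1 w))} := by
    intro n
    obtain ⟨W, hW, h⟩ := hF (L (n + 1)) (Grid (n + 1)) (pL P (n + 1) ξ) (vL P (n + 1) ξ)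
      (isLaw P hm hb (Nat.succ_pos n) h0)
    refine ⟨W, hW, ?_⟩
    have h2 := Pr_eq P ξ hm hi (cell (n + 1)) (cell_meas (n + 1)) (L (n + 1)) (A n W)
    rw [h2]
    exact h
  choose W hW hWP using hF'
  have hK : IsCompact (Set.pi univ fun x : Lat d => Icc (-(C * a x ^ 2)) (C * a x ^ 2)) :=
    isCompact_univ_pi fun x => isCompact_Icc
  obtain ⟨W0, hW0, φ, hφ, hlim⟩ := hK.tendsto_subseq (x := W)
    (fun n x _ => abs_le.1 (hW n x))
  have hlim' : ∀ x, Tendsto (fun j => W (φ j) x) atTop (𝓝 (W0 x)) := by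
    intro x
    exact (tendsto_pi_nhds.1 hlim) x
  have hE := limsup_prob P (fun j => {w | A (φ j) (W (φ j)) (fun x => cell (φ j + 1) (ξ x.1 w))})
    (fun j => ev_meas ξ hm (cell (φ j + 1)) (cell_meas (φ j + 1)) (L (φ j + 1))
      (A (φ j) (W (φ j)))) δ (fun j => hWP (φ j))
  refine ⟨W0, fun x => abs_le.2 (hW0 x trivial), _, hE.1, hE.2, ?_⟩
  intro w hw
  have hfr : ∃ᶠ j in atTop, A (φ j) (W (φ j)) (fun x => cell (φ j + 1) (ξ x.1 w)) := by
    rw [frequently_atTop]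
    intro n
    obtain ⟨j, hj⟩ := mem_iUnion.1 (mem_iInter.1 hw n)
    obtain ⟨hj, hw⟩ := mem_iUnion.1 hj
    exact ⟨j, hj, hw⟩
  have hne : NeBot (atTop ⊓ 𝓟 {j | A (φ j) (W (φ j)) (fun x => cell (φ j + 1) (ξ x.1 w))}) :=
    frequently_iff_neBot.1 hfr
  let U : Ultrafilter ℕ := Ultrafilter.of
    (atTop ⊓ 𝓟 {j | A (φ j) (W (φ j)) (fun x => cell (φ j + 1) (ξ x.1 w))})
  have hU : (U : Filter ℕ) ≤
      atTop ⊓ 𝓟 {j | A (φ j) (W (φ j)) (fun x => cell (φ j + 1) (ξ x.1 w))} :=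
    Ultrafilter.of_le _
  have hU1 : (U : Filter ℕ) ≤ atTop := hU.trans inf_le_left
  have hU2 : ∀ᶠ j in (U : Filter ℕ), A (φ j) (W (φ j)) (fun x => cell (φ j + 1) (ξ x.1 w)) :=
    (hU.trans inf_le_right) (mem_principal_self _)
  have hex : ∀ j, ∃ ψ : Lat d → ℝ, (∀ x, |ψ x - 1| ≤ B x) ∧
      (A (φ j) (W (φ j)) (fun x => cell (φ j + 1) (ξ x.1 w)) →
        ∀ x : L (φ j + 1), negLap ψ x.1 + (a x.1 * vL P (φ j + 1) ξ x.1
          (cell (φ j + 1) (ξ x.1 w)) + W (φ j) x.1) * ψ x.1 = 0) := by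
    intro j
    by_cases h : A (φ j) (W (φ j)) (fun x => cell (φ j + 1) (ξ x.1 w))
    · obtain ⟨ψ, h1, h2⟩ := h
      exact ⟨ψ, h1, fun _ => h2⟩
    · refine ⟨fun _ => 1, fun x => ?_, fun h' => absurd h' h⟩
      rw [sub_self, abs_zero]
      exact hB x
  choose ψ hψ1 hψ2 using hex
  have hK' : IsCompact (Set.pi univ fun x : Lat d => Icc (1 - B x) (1 + B x)) :=
    isCompact_univ_pi fun x => isCompact_Icc
  obtain ⟨ψ0, hψ0, hUψ⟩ := hK'.ultrafilter_le_nhds (U.map ψ) (by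
    rw [le_principal_iff]
    refine Ultrafilter.mem_map.2 (Filter.mem_of_superset (Filter.univ_mem (f := (U : Filter ℕ))) ?_)
    intro j _ x _
    have h := abs_le.1 (hψ1 j x)
    exact ⟨by linarith [h.1], by linarith [h.2]⟩)
  have hψt : ∀ x, Tendsto (fun j => ψ j x) (U : Filter ℕ) (𝓝 (ψ0 x)) := by
    have h : Tendsto ψ (U : Filter ℕ) (𝓝 ψ0) := hUψ
    exact fun x => (tendsto_pi_nhds.1 h) x
  refine ⟨ψ0, fun x => ?_, fun x => ?_⟩
  · have h := hψ0 x trivial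
    rw [abs_le]
    exact ⟨by linarith [h.1], by linarith [h.2]⟩
  · have h1 := tendsto_negLap hψt x
    have h2 : Tendsto (fun j => W (φ j) x) (U : Filter ℕ) (𝓝 (W0 x)) := (hlim' x).mono_left hU1
    have h3 : Tendsto (fun j => vL P (φ j + 1) ξ x (cell (φ j + 1) (ξ x w))) (U : Filter ℕ)
        (𝓝 (ξ x w)) := by
      refine Tendsto.mono_left ?_ hU1
      rw [tendsto_iff_dist_tendsto_zero]
      have h4 : Tendsto (fun j : ℕ => (2 : ℝ) / ((φ j + 1 : ℕ) : ℝ)) atTop (𝓝 0) := by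
        have h5 : Tendsto (fun n : ℕ => (2 : ℝ) / (n : ℝ)) atTop (𝓝 0) :=
          tendsto_const_div_atTop_nhds_zero_nat 2
        exact h5.comp ((tendsto_add_atTop_nat 1).comp hφ.tendsto_atTop)
      refine squeeze_zero (fun j => dist_nonneg) (fun j => ?_) h4
      rw [Real.dist_eq]
      exact vL_near P hm hb (Nat.succ_pos _) x (h0 x) w
    have h5 := h1.add (((h3.const_mul (a x)).add h2).mul (hψt x))
    refine tendsto_nhds_unique (h5.congr' ?_) tendsto_const_nhds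
    filter_upwards [hU2, (hφ.tendsto_atTop.eventually (hL x)).filter_mono hU1] with j hj1 hj2
    exact hψ2 j hj1 ⟨x, hj2⟩

end Pool.Agent.W122.DS
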