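import Pool.Agent.W177.DS.ExB

/-!
# The inequality of Talagrand on finite product spaces
-/

set_option autoImplicit false
set_option linter.unusedSectionVars false

namespace Pool.Agent.W177.DS

open Pool.Agent.W122.DS Finset

section

variable {S : Type} [Fintype S] [DecidableEq S]

/-- Witnesses for the convex distance. -/
def CD {n : ℕ} (A : (Fin n → S) → Prop) (x : Fin n → S) (d : ℝ) : Prop :=
  ∃ (τ : Type) (_ : Fintype τ) (p : τ → ℝ) (y : τ → Fin n → S), (∀ t, 0 ≤ p t) ∧ ∑ t, p t = 1 ∧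
    (∀ t, A (y t)) ∧ ∑ i, (∑ t, p t * (if x i ≠ y t i then 1 else 0)) ^ 2 ≤ d

lemma ite_le_one' (P : Prop) [Decidable P] : (if P then (1:ℝ) else 0) ≤ 1 := by
  split_ifs <;> norm_num

lemma ite_nonneg' (P : Prop) [Decidable P] : (0:ℝ) ≤ (if P then (1:ℝ) else 0) := by
  split_ifs <;> norm_num

lemma CD_step {n : ℕ} (A : (Fin (n + 1) → S) → Prop) (c : S) (x : Fin n → S) (d1 d2 l : ℝ)
    (hl0 : 0 ≤ l) (hl1 : l ≤ 1) (h1 : CD (fun x => A (Fin.cons c x)) x d1)
    (h2 : CD (fun x => ∃ c, A (Fin.cons c x)) x d2) :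
    CD A (Fin.cons c x) ((1 - l) ^ 2 + (l * d1 + (1 - l) * d2)) := by
  obtain ⟨τ1, i1, p1, y1, a1, b1, c1, e1⟩ := h1
  obtain ⟨τ2, i2, p2, y2, a2, b2, c2, e2⟩ := h2
  choose s hs using c2
  refine ⟨τ1 ⊕ τ2, inferInstance, Sum.elim (fun t => l * p1 t) (fun t => (1 - l) * p2 t),
    Sum.elim (fun t => Fin.cons c (y1 t)) (fun t => Fin.cons (s t) (y2 t)), ?_, ?_, ?_, ?_⟩
  · rintro (t | t)
    · exact mul_nonneg hl0 (a1 t)
    · exact mul_nonneg (by linarith) (a2 t)
  · rw [Fintype.sum_sum_type]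
    simp only [Sum.elim_inl, Sum.elim_inr]
    rw [← Finset.mul_sum, ← Finset.mul_sum, b1, b2]
    ring
  · rintro (t | t)
    · exact c1 t
    · exact hs t
  · rw [Fin.sum_univ_succ]
    refine add_le_add ?_ ?_
    · rw [Fintype.sum_sum_type]
      simp only [Sum.elim_inl, Sum.elim_inr, Fin.cons_zero]
      have h3 : ∑ t, l * p1 t * (if c ≠ c then (1:ℝ) else 0) = 0 := by
        refine Finset.sum_eq_zero fun t _ => ?_
        rw [if_neg (by simp)]
        ring
      rw [h3, zero_add]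
      have h4 : ∑ t, (1 - l) * p2 t * (if c ≠ s t then (1:ℝ) else 0) ≤ 1 - l := by
        calc ∑ t, (1 - l) * p2 t * (if c ≠ s t then (1:ℝ) else 0) ≤ ∑ t, (1 - l) * p2 t :=
              Finset.sum_le_sum fun t _ => mul_le_of_le_one_right
                (mul_nonneg (by linarith) (a2 t)) (ite_le_one' _)
          _ = 1 - l := by rw [← Finset.mul_sum, b2, mul_one]
      have h5 : 0 ≤ ∑ t, (1 - l) * p2 t * (if c ≠ s t then (1:ℝ) else 0) :=
        Finset.sum_nonneg fun t _ => mul_nonneg (mul_nonneg (by linarith) (a2 t)) (ite_nonneg' _)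
      exact pow_le_pow_left₀ h5 h4 2
    · have h3 : ∀ i : Fin n, (∑ t : τ1 ⊕ τ2, Sum.elim (fun t => l * p1 t) (fun t => (1 - l) * p2 t) t
          * (if (Fin.cons c x : Fin (n + 1) → S) i.succ
            ≠ Sum.elim (fun t => (Fin.cons c (y1 t) : Fin (n + 1) → S))
              (fun t => Fin.cons (s t) (y2 t)) t i.succ then (1:ℝ) else 0)) ^ 2
          ≤ l * (∑ t, p1 t * (if x i ≠ y1 t i then (1:ℝ) else 0)) ^ 2 +
            (1 - l) * (∑ t, p2 t * (if x i ≠ y2 t i then (1:ℝ) else 0)) ^ 2 := by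
        intro i
        rw [Fintype.sum_sum_type]
        simp only [Sum.elim_inl, Sum.elim_inr, Fin.cons_succ, mul_assoc]
        rw [← Finset.mul_sum, ← Finset.mul_sum]
        set u := ∑ t, p1 t * (if x i ≠ y1 t i then (1:ℝ) else 0)
        set v := ∑ t, p2 t * (if x i ≠ y2 t i then (1:ℝ) else 0)
        have h6 : 0 ≤ l * (1 - l) * (u - v) ^ 2 := by
          have : 0 ≤ 1 - l := by linarith
          positivity
        nlinarith
      refine (Finset.sum_le_sum fun i _ => h3 i).trans ?_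
      rw [Finset.sum_add_distrib, ← Finset.mul_sum, ← Finset.mul_sum]
      have h7 := mul_le_mul_of_nonneg_left e1 hl0
      have h8 := mul_le_mul_of_nonneg_left e2 (by linarith : 0 ≤ 1 - l)
      linarith

lemma CD_step0 {n : ℕ} (A : (Fin (n + 1) → S) → Prop) (c : S) (x : Fin n → S) (d : ℝ)
    (h2 : CD (fun x => ∃ c, A (Fin.cons c x)) x d) :
    CD A (Fin.cons c x) (1 + d) := by
  obtain ⟨τ2, i2, p2, y2, a2, b2, c2, e2⟩ := h2
  choose s hs using c2
  refine ⟨τ2, i2, p2, fun t => Fin.cons (s t) (y2 t), a2, b2, hs, ?_⟩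
  rw [Fin.sum_univ_succ]
  refine add_le_add ?_ ?_
  · simp only [Fin.cons_zero]
    have h4 : ∑ t, p2 t * (if c ≠ s t then (1:ℝ) else 0) ≤ 1 :=
      (Finset.sum_le_sum fun t _ => mul_le_of_le_one_right (a2 t) (ite_le_one' _)).trans
        (le_of_eq b2)
    have h5 : 0 ≤ ∑ t, p2 t * (if c ≠ s t then (1:ℝ) else 0) :=
      Finset.sum_nonneg fun t _ => mul_nonneg (a2 t) (ite_nonneg' _)
    calc _ ≤ (1 : ℝ) ^ 2 := pow_le_pow_left₀ h5 h4 2
      _ = 1 := one_pow 2
  · simp only [Fin.cons_succ]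
    exact e2

/-- The choice of the weight. -/
lemma opt (d : ℝ) (hd : 0 ≤ d) : ∃ l : ℝ, 0 ≤ l ∧ l ≤ 1 ∧
    Real.exp ((1 - l) ^ 2 / 4 + l * d) ≤ 2 - Real.exp (-d) := by
  have hem : Real.exp (-d) ≤ 1 - d + d ^ 2 / 2 := by
    have h1 := Real.quadratic_le_exp_of_nonneg hd
    have h2 : Real.exp (-d) * Real.exp d = 1 := by
      rw [← Real.exp_add, neg_add_cancel, Real.exp_zero]
    have h3 : 0 < Real.exp (-d) := Real.exp_pos _
    have h4 : Real.exp (-d) * (1 + d + d ^ 2 / 2) ≤ 1 := by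
      have := mul_le_mul_of_nonneg_left h1 h3.le
      linarith
    have h5 : 0 < 1 + d + d ^ 2 / 2 := by positivity
    have h6 : 1 ≤ (1 - d + d ^ 2 / 2) * (1 + d + d ^ 2 / 2) := by nlinarith [sq_nonneg (d ^ 2)]
    by_contra hc
    push Not at hc
    have h7 := mul_lt_mul_of_pos_right hc h5
    linarith
  have hexp : ∀ u : ℝ, 0 ≤ u → u ≤ 1 → Real.exp u ≤ 1 + u + u ^ 2 / 2 + 2 / 9 * u ^ 3 := by
    intro u h0 h1
    have := Real.exp_bound' h0 h1 (n := 3) (by norm_num)
    refine this.trans (le_of_eq ?_)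
    simp only [Finset.sum_range_succ, Finset.sum_range_zero, Nat.factorial]
    norm_num
    ring
  rcases le_or_gt d (1 / 2) with h | h
  · refine ⟨1 - 2 * d, by linarith, by linarith, ?_⟩
    have e : (1 - (1 - 2 * d)) ^ 2 / 4 + (1 - 2 * d) * d = d - d ^ 2 := by ring
    rw [e]
    have hu0 : 0 ≤ d - d ^ 2 := by nlinarith
    have hu1 : d - d ^ 2 ≤ 1 := by nlinarith
    have h1 := hexp _ hu0 hu1
    have h2 : (d - d ^ 2) ^ 3 ≤ d ^ 3 := pow_le_pow_left₀ hu0 (by nlinarith [sq_nonneg d]) 3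
    have h3 : 0 ≤ d ^ 3 * (7 / 9 - d / 2) := mul_nonneg (by positivity) (by linarith)
    nlinarith
  · refine ⟨0, le_rfl, zero_le_one, ?_⟩
    have h1 := hexp (1 / 4) (by norm_num) (by norm_num)
    have e : ((1 : ℝ) - 0) ^ 2 / 4 + 0 * d = 1 / 4 := by norm_num
    rw [e]
    have h2 : Real.exp (-d) ≤ Real.exp (-(1 / 2)) := Real.exp_le_exp.2 (by linarith)
    have h3 : Real.exp (-(1 / 2 : ℝ)) ≤ 5 / 8 := by
      have h4 := Real.quadratic_le_exp_of_nonneg (by norm_num : (0 : ℝ) ≤ 1 / 2)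
      have h5 : Real.exp (-(1 / 2 : ℝ)) * Real.exp (1 / 2) = 1 := by
        rw [← Real.exp_add, neg_add_cancel, Real.exp_zero]
      have h6 : 0 < Real.exp (-(1 / 2 : ℝ)) := Real.exp_pos _
      nlinarith
    norm_num at h1
    linarith

/-- One side of the induction. -/
lemma tal_side {n : ℕ} (p' : Fin n → S → ℝ) (hp' : IsPr p') (A : (Fin (n + 1) → S) → Prop)
    (ih : ∀ A : (Fin n → S) → Prop, 0 < Pr p' A → ∃ f : (Fin n → S) → ℝ,
      (∀ x, CD A x (f x)) ∧ Ex p' (fun x => Real.exp (f x / 4)) * Pr p' A ≤ 1)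
    (hA : 0 < Pr p' (fun x : Fin n → S => ∃ c, A (Fin.cons c x))) (c : S) :
    ∃ g : (Fin n → S) → ℝ, (∀ x, CD A (Fin.cons c x) (g x)) ∧
      Ex p' (fun x => Real.exp (g x / 4)) ≤
        (2 - Pr p' (fun x : Fin n → S => A (Fin.cons c x))
        / Pr p' (fun x : Fin n → S => ∃ c, A (Fin.cons c x))) /
          Pr p' (fun x : Fin n → S => ∃ c, A (Fin.cons c x)) := by
  obtain ⟨f2, hf2, hf2'⟩ := ih _ hA
  set a := Pr p' (fun x : Fin n → S => ∃ c, A (Fin.cons c x)) with ha
  set q := Pr p' (fun x : Fin n → S => A (Fin.cons c x)) with hq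
  have ha0 : 0 < a := hA
  rcases (Pr_nonneg hp' (fun x : Fin n → S => A (Fin.cons c x))).eq_or_lt with hc | hc
  · have hq0 : q = 0 := hc.symm
    refine ⟨fun x => 1 + f2 x, fun x => CD_step0 A c x _ (hf2 x), ?_⟩
    rw [hq0, zero_div, sub_zero]
    have e : ∀ x, Real.exp ((1 + f2 x) / 4) = Real.exp (1 / 4) * Real.exp (f2 x / 4) := by
      intro x
      rw [← Real.exp_add]
      congr 1
      ring
    rw [Ex_congr e, Ex_mul_left, le_div_iff₀ ha0, mul_assoc]
    have h1 : Real.exp (1 / 4 : ℝ) ≤ 2 := by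
      have h2 : Real.exp (1 / 4 : ℝ) ≤ Real.exp (Real.log 2) :=
        Real.exp_le_exp.2 (by have := Real.log_two_gt_d9; linarith)
      rwa [Real.exp_log (by norm_num)] at h2
    have h3 := Real.exp_pos (1 / 4 : ℝ)
    calc Real.exp (1 / 4) * (Ex p' (fun x => Real.exp (f2 x / 4)) * a) ≤ Real.exp (1 / 4) * 1 :=
          mul_le_mul_of_nonneg_left hf2' h3.le
      _ ≤ 2 := by linarith
  · obtain ⟨f1, hf1, hf1'⟩ := ih _ hc
    have hq0 : 0 < q := hc
    have hqa : q ≤ a := Pr_mono hp' fun x h => ⟨c, h⟩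
    set d := Real.log (a / q) with hd
    have hd0 : 0 ≤ d := Real.log_nonneg ((one_le_div hq0).2 hqa)
    obtain ⟨l, hl0, hl1, hl⟩ := opt d hd0
    refine ⟨fun x => (1 - l) ^ 2 + (l * f1 x + (1 - l) * f2 x), fun x =>
      CD_step A c x _ _ l hl0 hl1 (hf1 x) (hf2 x), ?_⟩
    have hed : Real.exp (-d) = q / a := by
      rw [hd, ← Real.log_inv, Real.exp_log (by positivity), inv_div]
    have key : ∀ x, Real.exp (((1 - l) ^ 2 + (l * f1 x + (1 - l) * f2 x)) / 4)
        ≤ (Real.exp ((1 - l) ^ 2 / 4 + l * d) / a)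
          * (l * (Real.exp (f1 x / 4) * q) + (1 - l) * (Real.exp (f2 x / 4) * a)) := by
      intro x
      have h1 := (convexOn_exp).2 (Set.mem_univ (f1 x / 4 + Real.log q))
        (Set.mem_univ (f2 x / 4 + Real.log a)) hl0 (by linarith : 0 ≤ 1 - l) (by ring)
      simp only [smul_eq_mul] at h1
      rw [Real.exp_add (f1 x / 4), Real.exp_add (f2 x / 4), Real.exp_log hq0, Real.exp_log ha0] at h1
      have e : ((1 - l) ^ 2 + (l * f1 x + (1 - l) * f2 x)) / 4
          = ((1 - l) ^ 2 / 4 + l * d - Real.log a)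
            + (l * (f1 x / 4 + Real.log q) + (1 - l) * (f2 x / 4 + Real.log a)) := by
        rw [hd, Real.log_div ha0.ne' hq0.ne']
        ring
      rw [e, Real.exp_add, Real.exp_sub, Real.exp_log ha0]
      exact mul_le_mul_of_nonneg_left h1 (by positivity)
    refine (Ex_mono hp' key).trans ?_
    rw [Ex_mul_left, Ex_add, Ex_mul_left, Ex_mul_left, Ex_mul_right, Ex_mul_right]
    have h2 : l * (Ex p' (fun x => Real.exp (f1 x / 4)) * q)
        + (1 - l) * (Ex p' (fun x => Real.exp (f2 x / 4)) * a) ≤ 1 := by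
      have h3 := mul_le_mul_of_nonneg_left hf1' hl0
      have h4 := mul_le_mul_of_nonneg_left hf2' (by linarith : 0 ≤ 1 - l)
      linarith
    have h5 : 0 ≤ Real.exp ((1 - l) ^ 2 / 4 + l * d) / a := by positivity
    calc _ ≤ Real.exp ((1 - l) ^ 2 / 4 + l * d) / a * 1 := mul_le_mul_of_nonneg_left h2 h5
      _ ≤ _ := by
        rw [mul_one, ← hed]
        exact div_le_div_of_nonneg_right hl ha0.le

lemma Pr_succ {n : ℕ} (p : Fin (n + 1) → S → ℝ) (A : (Fin (n + 1) → S) → Prop) :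
    Pr p A = ∑ c, p 0 c * Pr (fun i : Fin n => p i.succ) (fun x => A (Fin.cons c x)) := by
  classical
  exact Ex_succ p _

/-- The inequality of Talagrand. -/
theorem tal : ∀ (n : ℕ) (p : Fin n → S → ℝ), IsPr p → ∀ (A : (Fin n → S) → Prop), 0 < Pr p A →
    ∃ f : (Fin n → S) → ℝ,
    (∀ x, CD A x (f x)) ∧ Ex p (fun x => Real.exp (f x / 4)) * Pr p A ≤ 1
  | 0, p, hp, A, hA => by
    have h0 : ∃ x0, A x0 := by
      by_contra hcon
      push Not at hcon
      have : Pr p A = 0 := by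
        classical
        unfold Pr
        have e : ∀ ω, (if A ω then (1:ℝ) else 0) = 0 := fun ω => if_neg (hcon ω)
        rw [Ex_congr e, Ex_const hp]
      linarith
    obtain ⟨x0, hx0⟩ := h0
    refine ⟨fun _ => 0, fun x => ⟨Unit, inferInstance, fun _ => 1, fun _ => x0, by simp, by simp,
      fun _ => hx0, by simp⟩, ?_⟩
    simp only [zero_div, Real.exp_zero]
    rw [Ex_const hp, one_mul]
    exact Pr_le_one hp A
  | n + 1, p, hp, A, hA0 => by
    have hp' := IsPr.succ hp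
    set p' : Fin n → S → ℝ := fun i => p i.succ with hp'def
    have e1 : Pr p A = ∑ c, p 0 c * Pr p' (fun x => A (Fin.cons c x)) := Pr_succ p A
    have hA : 0 < Pr p' (fun x : Fin n → S => ∃ c, A (Fin.cons c x)) := by
      refine lt_of_lt_of_le hA0 ?_
      rw [e1]
      calc ∑ c, p 0 c * Pr p' (fun x => A (Fin.cons c x))
          ≤ ∑ c, p 0 c * Pr p' (fun x : Fin n → S => ∃ c, A (Fin.cons c x)) :=
            Finset.sum_le_sum fun c _ => mul_le_mul_of_nonneg_left
              (Pr_mono hp' fun x h => ⟨c, h⟩) (hp.nonneg 0 c)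
        _ = _ := by rw [← Finset.sum_mul, hp.sum 0, one_mul]
    choose g hg1 hg2 using tal_side p' hp' A (tal n p' hp') hA
    refine ⟨fun x => g (x 0) (Fin.tail x), fun x => ?_, ?_⟩
    · have := hg1 (x 0) (Fin.tail x)
      rwa [Fin.cons_self_tail] at this
    · set a := Pr p' (fun x : Fin n → S => ∃ c, A (Fin.cons c x)) with ha
      have ha0 : 0 < a := hA
      have e2 : Ex p (fun x : Fin (n + 1) → S => Real.exp (g (x 0) (Fin.tail x) / 4))
          = ∑ c, p 0 c * Ex p' (fun x => Real.exp (g c x / 4)) := by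
        rw [Ex_succ]
        simp only [Fin.cons_zero, Fin.tail_cons]
        rfl
      have h3 : Ex p (fun x : Fin (n + 1) → S => Real.exp (g (x 0) (Fin.tail x) / 4))
          ≤ (2 - Pr p A / a) / a := by
        rw [e2]
        have e3 : (2 - Pr p A / a) / a =
            ∑ c, p 0 c * ((2 - Pr p' (fun x => A (Fin.cons c x)) / a) / a) := by
          have e4 : ∀ c, p 0 c * ((2 - Pr p' (fun x => A (Fin.cons c x)) / a) / a) =
              p 0 c * (2 / a) - (p 0 c * Pr p' (fun x => A (Fin.cons c x))) * (1 / a ^ 2) := by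
            intro c
            field_simp
          rw [Finset.sum_congr rfl fun c _ => e4 c, Finset.sum_sub_distrib, ← Finset.sum_mul,
            ← Finset.sum_mul, hp.sum 0, ← e1]
          field_simp
        rw [e3]
        exact Finset.sum_le_sum fun c _ => mul_le_mul_of_nonneg_left (hg2 c) (hp.nonneg 0 c)
      refine (mul_le_mul_of_nonneg_right h3 (Pr_nonneg hp A)).trans ?_
      have e4 : (2 - Pr p A / a) / a * Pr p A = 1 - (1 - Pr p A / a) ^ 2 := by
        field_simp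
        ring
      rw [e4]
      nlinarith [sq_nonneg (1 - Pr p A / a)]

/-- The dual form on `Fin n`. -/
theorem tal_use {n : ℕ} (p : Fin n → S → ℝ) (hp : IsPr p) (A B : (Fin n → S) → Prop)
    (w : (Fin n → S) → Fin n → ℝ) (r k : ℝ)
    (h1 : ∀ ω ω' : Fin n → S, B ω → A ω' → r ≤ ∑ i, w ω i * (if ω i ≠ ω' i then 1 else 0))
    (h2 : ∀ ω : Fin n → S, B ω → ∀ q : Fin n → ℝ, (∀ i, 0 ≤ q i) → (∀ i, q i ≤ 1) →
      ∑ i, q i ^ 2 < k → ∑ i, w ω i * q i < r) :
    Pr p A * Pr p B ≤ Real.exp (-(k / 4)) := by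
  rcases (Pr_nonneg hp A).eq_or_lt with hA | hA
  · rw [← hA, zero_mul]
    exact (Real.exp_pos _).le
  · obtain ⟨f, hf1, hf2⟩ := tal n p hp A hA
    have h3 : ∀ x, B x → k ≤ f x := by
      intro x hx
      obtain ⟨T, iT, u, y, a, b, c, e⟩ := hf1 x
      by_contra hcon
      push Not at hcon
      set q : Fin n → ℝ := fun i => ∑ t, u t * (if x i ≠ y t i then 1 else 0) with hq
      have h4 : r ≤ ∑ i, w x i * q i := by
        calc r = ∑ t, u t * r := by rw [← Finset.sum_mul, b, one_mul]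
          _ ≤ ∑ t, u t * ∑ i, w x i * (if x i ≠ y t i then 1 else 0) :=
            Finset.sum_le_sum fun t _ => mul_le_mul_of_nonneg_left (h1 x (y t) hx (c t)) (a t)
          _ = ∑ i, w x i * q i := by
            simp_rw [hq, Finset.mul_sum]
            rw [Finset.sum_comm]
            exact Finset.sum_congr rfl fun i _ => Finset.sum_congr rfl fun t _ => by ring
      have h5 := h2 x hx q (fun i => Finset.sum_nonneg fun t _ => mul_nonneg (a t) (ite_nonneg' _))
        (fun i => by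
          rw [← b]
          exact Finset.sum_le_sum fun t _ => mul_le_of_le_one_right (a t) (ite_le_one' _))
        (lt_of_le_of_lt e hcon)
      linarith
    have h8 : Real.exp (k / 4) * Pr p B ≤ Ex p (fun x => Real.exp (f x / 4)) := by
      classical
      unfold Pr
      rw [← Ex_mul_left]
      refine Ex_mono hp fun x => ?_
      split_ifs with hx
      · rw [mul_one]
        apply Real.exp_le_exp.2
        have := h3 x hx
        linarith
      · rw [mul_zero]
        exact (Real.exp_pos _).le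
    have h9 := mul_le_mul_of_nonneg_right h8 (Pr_nonneg hp A)
    have h10 : Real.exp (k / 4) * (Pr p A * Pr p B) ≤ 1 := by linarith
    rw [Real.exp_neg, ← one_div, le_div_iff₀ (Real.exp_pos _)]
    linarith

end

lemma Pr_equiv {V W S : Type*} [Fintype V] [DecidableEq V] [Fintype W] [DecidableEq W]
    [Fintype S] (e : V ≃ W) (p : V → S → ℝ) (A : (V → S) → Prop) :
    Pr p A = Pr (fun w => p (e.symm w)) (fun ω => A (fun v => ω (e v))) := by
  classical
  exact Ex_equiv e p _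

end Pool.Agent.W177.DS

namespace Pool.Agent.W122.DS

open Pool.Agent.W177.DS

theorem stmTal : StmTal := by
  intro V S _ _ _ _ p hp A B w r k h1 h2
  set e : V ≃ Fin (Fintype.card V) := Fintype.equivFin V with he
  rw [Pr_equiv e p A, Pr_equiv e p B]
  refine tal_use (fun i => p (e.symm i)) (IsPr.equiv e hp) _ _
    (fun ω i => w (fun v => ω (e v)) (e.symm i)) r k ?_ ?_
  · intro ω ω' hB hA
    refine (h1 _ _ hB hA).trans (le_of_eq ?_)
    rw [← e.sum_comp]
    refine Finset.sum_congr rfl fun v _ => ?_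
    simp
  · intro ω hB q hq0 hq1 hqk
    have := h2 _ hB (fun v => q (e v)) (fun v => hq0 _) (fun v => hq1 _) (by
      rw [e.sum_comp (fun i => q i ^ 2)]
      exact hqk)
    refine lt_of_le_of_lt (le_of_eq ?_) this
    rw [← e.sum_comp]
    refine Finset.sum_congr rfl fun v _ => ?_
    simp

end Pool.Agent.W122.DS
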