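import Pool.Agent.W122.DS.FinV
import Pool.Agent.W122.DS.Green
import Pool.Agent.W122.DS.Limit
import Pool.Agent.W122.DS.Tal
import Pool.Agent.W122.DS.ES
import Pool.Agent.W122.DS.KL
import Pool.Agent.W978.DS.Edge
import Pool.Agent.W978.DS.LogSum

/-!
# The theorem in infinite volume
-/

set_option autoImplicit false

namespace Pool.Agent.W122.DS

open MeasureTheory ProbabilityTheory

theorem final (d : ℕ) (hd : 5 ≤ d) (ν : ℝ) (hν : 2 / (d : ℝ) < ν) (δ : ℝ) (hδ : 0 < δ) :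
    ∃ κ₀ C : ℝ, 0 < κ₀ ∧ 0 < C ∧ C * κ₀ ≤ 1 / 10 ∧ ∀ κ : ℝ, 0 < κ → κ ≤ κ₀ →
      ∀ a : Lat d → ℝ, (∀ x, 0 ≤ a x) →
      (∀ x, a x ≤ κ / Real.log (Real.exp 1 + √(nsq x)) ^ ν) →
      ∀ (Ω : Type) [MeasurableSpace Ω] (P : Measure Ω) [IsProbabilityMeasure P]
        (ξ : Lat d → Ω → ℝ), (∀ x, Measurable (ξ x)) → iIndepFun ξ P →
        (∀ x ω, |ξ x ω| ≤ 1) → (∀ x, ∫ ω, ξ x ω ∂P = 0) →
        ∃ W : Lat d → ℝ, (∀ x, |W x| ≤ C * a x ^ 2) ∧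
          ∃ E : Set Ω, MeasurableSet E ∧ 1 - δ ≤ P.real E ∧ ∀ ω ∈ E,
            (∃ ψ : Lat d → ℝ, (∀ x, |ψ x - 1| ≤ C * κ) ∧
              ∀ x, negLap ψ x + (a x * ξ x ω + W x) * ψ x = 0) ∧
            EdgeProps d C (fun x => a x * ξ x ω + W x) := by
  obtain ⟨η, C₀, κ₀, C, hη0, hη1, hC₀, hG, hκ₀, hC, hCκ, h⟩ :=
    Core.finVol stmTal stmES stmGreen stmKL W978.DS.stmLog W978.DS.stmSum hd ν hν δ hδ
  set C' : ℝ := max C C₀ with hC'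
  have hC'1 : 1 ≤ C' := hC₀.trans (le_max_right _ _)
  have hC'0 : 0 < C' := by linarith
  have hCC' : C ≤ C' := le_max_left _ _
  refine ⟨min κ₀ (1 / (10 * C')), C', lt_min hκ₀ (by positivity), hC'0, ?_, ?_⟩
  · calc C' * min κ₀ (1 / (10 * C')) ≤ C' * (1 / (10 * C')) :=
          mul_le_mul_of_nonneg_left (min_le_right _ _) hC'0.le
      _ = 1 / 10 := by field_simp
  intro κ hκ0 hκ1 a ha0 ha1 Ω _ P _ ξ hm hi hb h0
  have hκ2 : κ ≤ κ₀ := hκ1.trans (min_le_left _ _)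
  have hfin := h κ hκ0 hκ2 a ha0 ha1
  obtain ⟨W, hW, E, hE, hPE, hψ⟩ := stmLimit d a (fun _ => C * κ) C δ ha0
    (fun _ => by positivity) hC.le hfin Ω P ξ hm hi hb h0
  refine ⟨W, fun x => (hW x).trans (mul_le_mul_of_nonneg_right hCC' (sq_nonneg _)), E, hE, hPE,
    fun ω hω => ?_⟩
  obtain ⟨ψ, h1, h2⟩ := hψ ω hω
  have hη : ∀ x, |ψ x - 1| ≤ η := fun x => (h1 x).trans
    ((mul_le_mul_of_nonneg_left hκ2 hC.le).trans hCκ)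
  refine ⟨⟨ψ, fun x => (h1 x).trans (mul_le_mul_of_nonneg_right hCC' hκ0.le), h2⟩, ?_⟩
  have hedge := W978.DS.stmEdge d η C₀ (by omega) hη0 hη1 hC₀ hG
    (fun x => a x * ξ x ω + W x) ψ hη h2
  refine ⟨hedge.1, hedge.2.1, fun E u hu he x => (hedge.2.2 E u hu he x).trans ?_⟩
  have h3 : 0 ≤ ∑' y, u y ^ 2 := tsum_nonneg fun y => sq_nonneg _
  have h4 : C₀ ≤ C' := le_max_right _ _
  refine mul_le_mul_of_nonneg_right (mul_le_mul_of_nonneg_right h4 (sq_nonneg _)) h3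

end Pool.Agent.W122.DS
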