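import Pool.Agent.W122.DS.Cont
import Pool.Agent.W122.DS.Avg

/-!
# Random potentials on a finite network: changing one letter, and the variance of the cut-off
-/

set_option autoImplicit false
set_option linter.unusedSectionVars false

namespace Pool.Agent.W122.DS.Core

open Finset

variable {V S : Type} [Fintype V] [DecidableEq V] [Fintype S] [DecidableEq S]
variable {A : V → V → ℝ} {b : V → ℝ} {η : ℝ}

/-- The bounds on the Green function of a good potential. -/
structure GB (A : V → V → ℝ) (b : V → ℝ) (η : ℝ) (a : V → ℝ) (Cs : ℝ) (ρ τ k : V → ℝ) : Prop where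
  l2 : ∀ U, Good A b η U → ∀ (x : V) (u : V → ℝ),
    (∀ y, Hm A b U u y = if y = x then 1 else 0) → ∑ y, u y ^ 2 ≤ Cs ^ 2
  l2a : ∀ U, Good A b η U → ∀ (x : V) (u : V → ℝ),
    (∀ y, Hm A b U u y = if y = x then 1 else 0) → ∑ y, (a y * u y) ^ 2 ≤ ρ x
  kf : ∀ U, Good A b η U → ∀ (x : V) (u : V → ℝ),
    (∀ y, Hm A b U u y = if y = x then 1 else 0) → ∀ q : V → ℝ, (∀ y, 0 ≤ q y) →
    (∀ y, q y ≤ 1) → ∑ y, q y ^ 2 < k x → ∑ y, a y * |u y| * q y ≤ τ x

/-- The standing hypotheses. -/
structure Hyp (A : V → V → ℝ) (b : V → ℝ) (η : ℝ) (a : V → ℝ) (Cs : ℝ) (ρ τ k : V → ℝ)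
    (p v : V → S → ℝ) : Prop where
  net : Net A b
  η0 : 0 < η
  η1 : η ≤ 1 / 10
  a0 : ∀ x, 0 ≤ a x
  Cs1 : 1 ≤ Cs
  aC : ∀ x, a x * Cs ≤ η / 64
  gb : GB A b η a Cs ρ τ k
  law : Law p v

/-- The potential. -/
def pot (a : V → ℝ) (v : V → S → ℝ) (W : V → ℝ) (l : ℝ) (ω : V → S) (x : V) : ℝ :=
  l * (a x * v x (ω x)) + W x

variable {a : V → ℝ} {Cs : ℝ} {ρ τ k : V → ℝ} {p v : V → S → ℝ}

lemma Hyp.η2 (h : Hyp A b η a Cs ρ τ k p v) : η < 1 := by
  have := h.η1
  linarith

lemma Gr_le (h : Hyp A b η a Cs ρ τ k p v) {U : V → ℝ} (hU : Good A b η U) (x z : V) :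
    |Gr A b U x z| ≤ Cs := by
  have h1 := h.gb.l2 U hU x _ (fun y => Hm_Gr' h.net h.η2 hU x y)
  have h2 : Gr A b U x z ^ 2 ≤ Cs ^ 2 :=
    (Finset.single_le_sum (f := fun y => Gr A b U x y ^ 2) (fun y _ => sq_nonneg _)
      (Finset.mem_univ z)).trans h1
  exact abs_le_of_sq_le_sq h2 (by have := h.Cs1; linarith)

/-- Changing one letter of a configuration in the inner part of the good set. -/
lemma flipC (h : Hyp A b η a Cs ρ τ k p v) (W : V → ℝ) {l : ℝ} (hl0 : 0 ≤ l) (hl1 : l ≤ 1)
    (ω : V → S) (hU : Good A b η (pot a v W l ω))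
    (hs : ∀ x, |psi A b (pot a v W l ω) x - 1| ≤ 3 / 4 * η) (z : V) (s : S) :
    Good A b η (pot a v W l (Function.update ω z s)) ∧
      ∀ x, |psi A b (pot a v W l (Function.update ω z s)) x - psi A b (pot a v W l ω) x|
        ≤ 5 * (a z * |Gr A b (pot a v W l ω) x z|) := by
  set σ : ℝ := l * (a z * (v z s - v z (ω z))) with hσ
  have ha := h.a0 z
  have hσb : |σ| ≤ 4 * a z := by
    rw [hσ, abs_mul, abs_mul, abs_of_nonneg hl0, abs_of_nonneg ha]
    have h1 : |v z s - v z (ω z)| ≤ 4 := by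
      have h2 := abs_sub (v z s) (v z (ω z))
      have h3 := h.law.bdd z s
      have h4 := h.law.bdd z (ω z)
      linarith
    have h5 : a z * |v z s - v z (ω z)| ≤ a z * 4 := mul_le_mul_of_nonneg_left h1 ha
    have h6 : 0 ≤ a z * |v z s - v z (ω z)| := by positivity
    nlinarith
  have hUU : ∀ y, pot a v W l (Function.update ω z s) y
      = pot a v W l ω y + if y = z then σ else 0 := by
    intro y
    unfold pot
    by_cases hy : y = z
    · subst hy
      rw [if_pos rfl, Function.update_self, hσ]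
      ring
    · rw [if_neg hy, Function.update_of_ne hy]
      ring
  have haC := h.aC z
  have h54 : ∀ x, 5 / 4 * |σ| * |Gr A b (pot a v W l ω) x z|
      ≤ 5 * (a z * |Gr A b (pot a v W l ω) x z|) := by
    intro x
    have := mul_le_mul_of_nonneg_right hσb (abs_nonneg (Gr A b (pot a v W l ω) x z))
    linarith
  have hG5 : ∀ x, 5 * (a z * |Gr A b (pot a v W l ω) x z|) ≤ 5 * (η / 64) := by
    intro x
    have := mul_le_mul_of_nonneg_left (Gr_le h hU x z) ha
    linarith
  have key := flip h.net h.η2 hU z σ hUU (by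
      have h1 := h54 z
      have h2 := hG5 z
      have h3 := h.η1
      linarith) h.η1 (by
      intro x
      have h1 := h54 x
      have h2 := hG5 x
      have h3 := hs x
      have h4 := h.η0
      linarith)
  exact ⟨key.1, fun x => (key.2 x).trans (h54 x)⟩

lemma ext_ne (Φ : (V → ℝ) → ℝ)
    (h0 : ∀ ψ : V → ℝ, (∃ x, 3 / 4 * η ≤ |ψ x - 1|) → Φ ψ = 0) {U : V → ℝ}
    (hU : ext A b η Φ U ≠ 0) : Good A b η U ∧ ∀ x, |psi A b U x - 1| ≤ 3 / 4 * η := by
  unfold ext at hU
  split_ifs at hU with hg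
  · refine ⟨hg, fun x => ?_⟩
    by_contra hx
    exact hU (h0 _ ⟨x, (not_le.1 hx).le⟩)
  · exact absurd rfl hU

/-- A cut-off function of the solution changes little when one letter is changed. -/
lemma ext_flip (h : Hyp A b η a Cs ρ τ k p v) (W : V → ℝ) {l : ℝ} (hl0 : 0 ≤ l) (hl1 : l ≤ 1)
    (Φ : (V → ℝ) → ℝ) (h0 : ∀ ψ : V → ℝ, (∃ x, 3 / 4 * η ≤ |ψ x - 1|) → Φ ψ = 0) (L : ℝ)
    (hL : ∀ (ψ ψ' : V → ℝ) (D : ℝ), (∀ x, |ψ x - 1| ≤ η) → (∀ x, |ψ' x - 1| ≤ η) →
      (∀ x, |ψ x - ψ' x| ≤ D) → |Φ ψ - Φ ψ'| ≤ L * D) (hL0 : 0 ≤ L)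
    (ω : V → S) (z : V) (s : S) :
    |ext A b η Φ (pot a v W l ω) - ext A b η Φ (pot a v W l (Function.update ω z s))|
      ≤ L * (5 * (a z * Cs)) := by
  have key : ∀ (ω : V → S) (s : S), ext A b η Φ (pot a v W l ω) ≠ 0 →
      |ext A b η Φ (pot a v W l ω) - ext A b η Φ (pot a v W l (Function.update ω z s))|
      ≤ L * (5 * (a z * Cs)) := by
    intro ω s hne
    obtain ⟨h1, h2⟩ := ext_ne Φ h0 hne
    obtain ⟨h3, h4⟩ := flipC h W hl0 hl1 ω h1 h2 z s
    unfold ext
    rw [if_pos h1, if_pos h3]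
    refine hL _ _ _ (psi_spec h.net h.η2 h1).1 (psi_spec h.net h.η2 h3).1 fun x => ?_
    rw [abs_sub_comm]
    refine (h4 x).trans ?_
    have := mul_le_mul_of_nonneg_left (Gr_le h h1 x z) (h.a0 z)
    linarith
  by_cases h1 : ext A b η Φ (pot a v W l ω) = 0
  · by_cases h2 : ext A b η Φ (pot a v W l (Function.update ω z s)) = 0
    · rw [h1, h2, sub_zero, abs_zero]
      have := h.a0 z
      have := h.Cs1
      positivity
    · have := key (Function.update ω z s) (ω z) h2
      rw [Function.update_idem, Function.update_eq_self, abs_sub_comm] at this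
      exact this
  · exact key ω s h1

variable [Nonempty V]

lemma th_flip (h : Hyp A b η a Cs ρ τ k p v) (W : V → ℝ) {l : ℝ} (hl0 : 0 ≤ l) (hl1 : l ≤ 1)
    (ω : V → S) (z : V) (s : S) :
    |ext A b η (th η) (pot a v W l ω) - ext A b η (th η) (pot a v W l (Function.update ω z s))|
      ≤ 20 / η * (a z * Cs) := by
  have hη := h.η0
  refine (ext_flip h W hl0 hl1 (th η) (fun ψ hψ => th_zero hη hψ) (4 / η)
    (fun ψ ψ' D _ _ hD => th_sub_le hη ψ ψ' D hD) (by positivity) ω z s).trans (le_of_eq ?_)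
  ring

/-- The cut-off times the value of the solution. -/
noncomputable def thv (η : ℝ) (x : V) (ψ : V → ℝ) : ℝ := th η ψ * ψ x

lemma thv_zero (hη : 0 < η) (x : V) {ψ : V → ℝ} (h : ∃ x, 3 / 4 * η ≤ |ψ x - 1|) :
    thv η x ψ = 0 := by
  unfold thv
  rw [th_zero hη h, zero_mul]

lemma cont_thv (x : V) : Continuous (thv η x : (V → ℝ) → ℝ) :=
  cont_th.mul (continuous_apply x)

lemma thv_flip (h : Hyp A b η a Cs ρ τ k p v) (W : V → ℝ) {l : ℝ} (hl0 : 0 ≤ l) (hl1 : l ≤ 1)
    (y : V) (ω : V → S) (z : V) (s : S) :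
    |ext A b η (thv η y) (pot a v W l ω)
      - ext A b η (thv η y) (pot a v W l (Function.update ω z s))|
      ≤ 45 / 2 / η * (a z * Cs) := by
  have hη := h.η0
  have hη1 := h.η1
  refine (ext_flip h W hl0 hl1 (thv η y) (fun ψ hψ => thv_zero hη y hψ) (9 / 2 / η)
    ?_ (by positivity) ω z s).trans (le_of_eq ?_)
  · intro ψ ψ' D h1 h2 hD
    have h3 := th_sub_le hη ψ ψ' D hD
    unfold thv
    have e : th η ψ * ψ y - th η ψ' * ψ' y
        = (th η ψ - th η ψ') * ψ y + th η ψ' * (ψ y - ψ' y) := by ring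
    rw [e]
    have hD0 : 0 ≤ D := (abs_nonneg _).trans (hD y)
    have h4 : |ψ y| ≤ 11 / 10 := by
      have := abs_le.1 (h1 y)
      rw [abs_le]
      constructor <;> linarith [this.1, this.2]
    have h5 : |(th η ψ - th η ψ') * ψ y| ≤ 4 / η * D * (11 / 10) := by
      rw [abs_mul]
      exact mul_le_mul h3 h4 (abs_nonneg _) (by positivity)
    have h6 : |th η ψ' * (ψ y - ψ' y)| ≤ 1 * D := by
      rw [abs_mul, abs_of_nonneg (th_nonneg ψ')]
      exact mul_le_mul (th_le_one ψ') (hD y) (abs_nonneg _) zero_le_one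
    have h7 : D ≤ 1 / 10 / η * D := by
      have : 1 ≤ 1 / 10 / η := by
        rw [le_div_iff₀ hη]
        linarith
      nlinarith
    refine (abs_add_le _ _).trans ?_
    have h8 : 4 / η * D * (11 / 10) + 1 / 10 / η * D = 9 / 2 / η * D := by ring
    linarith
  · ring

/-- The bound on the correlation of a letter with the solution. -/
lemma corr_bound (h : Hyp A b η a Cs ρ τ k p v) (W : V → ℝ) {l : ℝ} (hl0 : 0 ≤ l) (hl1 : l ≤ 1)
    (x : V) : |Ex p (fun ω => v x (ω x) * ext A b η (thv η x) (pot a v W l ω))|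
      ≤ 45 / η * (a x * Cs) := by
  refine (mean_zero h.law.pr v x (h.law.bdd x) (h.law.mean x) _ _
    (fun ω s => thv_flip h W hl0 hl1 x ω x s)).trans (le_of_eq ?_)
  ring

open Classical in
/-- The variance of the cut-off. -/
lemma var_bound (es : StmES) (h : Hyp A b η a Cs ρ τ k p v) (W : V → ℝ) {l : ℝ} (hl0 : 0 ≤ l)
    (hl1 : l ≤ 1) :
    Ex p (fun ω => ext A b η (th η) (pot a v W l ω) ^ 2)
        - (Ex p (fun ω => ext A b η (th η) (pot a v W l ω))) ^ 2
      ≤ 400 / η ^ 2 * ∑ x, ρ x * Pr p (fun ω => Good A b η (pot a v W l ω) ∧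
          η / 4 ≤ |psi A b (pot a v W l ω) x - 1|) := by
  have hp := h.law.pr
  have hη := h.η0
  set F : (V → S) → ℝ := fun ω => ext A b η (th η) (pot a v W l ω) with hF
  refine (es V S p hp F).trans ?_
  set Z : (V → S) → ℝ := fun ω => if F ω = 0 then 0 else 1 with hZ
  have hZ0 : ∀ ω, 0 ≤ Z ω := fun ω => by simp only [hZ]; split_ifs <;> norm_num
  have h1 : ∀ i, Ex p (fun ω => ∑ s, p i s * (F ω - F (Function.update ω i s)) ^ 2)
      ≤ 2 * Ex p (fun ω => ∑ s, p i s * (Z ω * (F ω - F (Function.update ω i s)) ^ 2)) := by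
    intro i
    have h2 := exch (p := p) i (fun ω ω' => Z ω * (F ω - F ω') ^ 2)
    have h3 : Ex p (fun ω => ∑ s, p i s * (F ω - F (Function.update ω i s)) ^ 2)
        ≤ Ex p (fun ω => ∑ s, p i s * (Z ω * (F ω - F (Function.update ω i s)) ^ 2)
          + ∑ s, p i s * (Z (Function.update ω i s) * (F (Function.update ω i s) - F ω) ^ 2)) := by
      refine Ex_mono hp fun ω => ?_
      rw [← Finset.sum_add_distrib]
      refine Finset.sum_le_sum fun s _ => ?_
      rw [← mul_add]
      refine mul_le_mul_of_nonneg_left ?_ (hp.nonneg i s)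
      by_cases h4 : F ω = 0
      · by_cases h5 : F (Function.update ω i s) = 0
        · have e1 : Z ω = 0 := by simp only [hZ]; rw [if_pos h4]
          have e2 : Z (Function.update ω i s) = 0 := by simp only [hZ]; rw [if_pos h5]
          rw [h4, h5, e1, e2]
          norm_num
        · have e2 : Z (Function.update ω i s) = 1 := by simp only [hZ]; rw [if_neg h5]
          rw [e2]
          have := mul_nonneg (hZ0 ω) (sq_nonneg (F ω - F (Function.update ω i s)))
          nlinarith
      · have e2 : Z ω = 1 := by simp only [hZ]; rw [if_neg h4]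
        rw [e2]
        have := mul_nonneg (hZ0 (Function.update ω i s))
          (sq_nonneg (F (Function.update ω i s) - F ω))
        linarith
    rw [Ex_add, ← h2] at h3
    linarith
  have h2 : ∀ (i : V) (ω : V → S), ∑ s, p i s * (Z ω * (F ω - F (Function.update ω i s)) ^ 2)
      ≤ 400 / η ^ 2 * ∑ x, (if Good A b η (pot a v W l ω) ∧
          η / 4 ≤ |psi A b (pot a v W l ω) x - 1| then 1 else 0)
            * (a i * Gr A b (pot a v W l ω) x i) ^ 2 := by
    intro i ω
    have hr0 : 0 ≤ ∑ x, (if Good A b η (pot a v W l ω) ∧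
          η / 4 ≤ |psi A b (pot a v W l ω) x - 1| then (1 : ℝ) else 0)
            * (a i * Gr A b (pot a v W l ω) x i) ^ 2 :=
      Finset.sum_nonneg fun x _ => mul_nonneg (by split_ifs <;> norm_num) (sq_nonneg _)
    by_cases h4 : F ω = 0
    · have e1 : Z ω = 0 := by simp only [hZ]; rw [if_pos h4]
      rw [e1]
      simp only [zero_mul, mul_zero, Finset.sum_const_zero]
      positivity
    · obtain ⟨hg, hg2⟩ := ext_ne (th η) (fun ψ hψ => th_zero hη hψ) h4
      have e1 : Z ω = 1 := by simp only [hZ]; rw [if_neg h4]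
      rw [e1]
      have h5 : ∀ s, (F ω - F (Function.update ω i s)) ^ 2
          ≤ 400 / η ^ 2 * ∑ x, (if Good A b η (pot a v W l ω) ∧
          η / 4 ≤ |psi A b (pot a v W l ω) x - 1| then (1 : ℝ) else 0)
            * (a i * Gr A b (pot a v W l ω) x i) ^ 2 := by
        intro s
        obtain ⟨h6, h7⟩ := flipC h W hl0 hl1 ω hg hg2 i s
        have e2 : F ω = th η (psi A b (pot a v W l ω)) := by
          simp only [hF, ext]
          rw [if_pos hg]
        have e3 : F (Function.update ω i s)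
            = th η (psi A b (pot a v W l (Function.update ω i s))) := by
          simp only [hF, ext]
          rw [if_pos h6]
        rw [e2, e3]
        refine (th_sub_sq hη _ _ ?_).trans ?_
        · intro x
          rw [abs_sub_comm]
          refine (h7 x).trans ?_
          have h8 := mul_le_mul_of_nonneg_left (Gr_le h hg x i) (h.a0 i)
          have h9 := h.aC i
          linarith
        · have e4 : (400 : ℝ) / η ^ 2 = 16 / η ^ 2 * 25 := by ring
          rw [e4, mul_assoc]
          refine mul_le_mul_of_nonneg_left ?_ (by positivity)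
          rw [Finset.mul_sum]
          refine Finset.sum_le_sum fun x _ => ?_
          by_cases h8 : η / 4 ≤ |psi A b (pot a v W l ω) x - 1|
          · rw [if_pos h8, if_pos ⟨hg, h8⟩, ← sq_abs]
            have h9 := pow_le_pow_left₀ (abs_nonneg _) (h7 x) 2
            refine h9.trans (le_of_eq ?_)
            rw [mul_pow, mul_pow, sq_abs]
            ring
          · rw [if_neg h8, if_neg (fun hh => h8 hh.2)]
            simp
      calc ∑ s, p i s * (1 * (F ω - F (Function.update ω i s)) ^ 2)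
          ≤ ∑ s, p i s * (400 / η ^ 2 * ∑ x, (if Good A b η (pot a v W l ω) ∧
            η / 4 ≤ |psi A b (pot a v W l ω) x - 1| then (1 : ℝ) else 0)
            * (a i * Gr A b (pot a v W l ω) x i) ^ 2) := by
            refine Finset.sum_le_sum fun s _ => mul_le_mul_of_nonneg_left ?_ (hp.nonneg i s)
            rw [one_mul]
            exact h5 s
        _ = _ := by rw [← Finset.sum_mul, hp.sum i, one_mul]
  calc (1 / 2) * ∑ i, Ex p (fun ω => ∑ s, p i s * (F ω - F (Function.update ω i s)) ^ 2)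
      ≤ (1 / 2) * ∑ i, 2 * Ex p (fun ω => ∑ s, p i s
          * (Z ω * (F ω - F (Function.update ω i s)) ^ 2)) := by
        refine mul_le_mul_of_nonneg_left (Finset.sum_le_sum fun i _ => h1 i) (by norm_num)
    _ = ∑ i, Ex p (fun ω => ∑ s, p i s * (Z ω * (F ω - F (Function.update ω i s)) ^ 2)) := by
        rw [← Finset.mul_sum]
        ring
    _ ≤ ∑ i, Ex p (fun ω => 400 / η ^ 2 * ∑ x, (if Good A b η (pot a v W l ω) ∧
          η / 4 ≤ |psi A b (pot a v W l ω) x - 1| then (1 : ℝ) else 0)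
            * (a i * Gr A b (pot a v W l ω) x i) ^ 2) :=
        Finset.sum_le_sum fun i _ => Ex_mono hp fun ω => h2 i ω
    _ = Ex p (fun ω => 400 / η ^ 2 * ∑ x, (if Good A b η (pot a v W l ω) ∧
          η / 4 ≤ |psi A b (pot a v W l ω) x - 1| then (1 : ℝ) else 0)
            * ∑ i, (a i * Gr A b (pot a v W l ω) x i) ^ 2) := by
        rw [← Ex_sum]
        congr 1
        funext ω
        rw [← Finset.mul_sum, Finset.sum_comm]
        congr 1
        exact Finset.sum_congr rfl fun x _ => by rw [Finset.mul_sum]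
    _ ≤ Ex p (fun ω => 400 / η ^ 2 * ∑ x, ρ x * (if Good A b η (pot a v W l ω) ∧
          η / 4 ≤ |psi A b (pot a v W l ω) x - 1| then (1 : ℝ) else 0)) := by
        refine Ex_mono hp fun ω => ?_
        refine mul_le_mul_of_nonneg_left (Finset.sum_le_sum fun x _ => ?_) (by positivity)
        by_cases h8 : Good A b η (pot a v W l ω) ∧ η / 4 ≤ |psi A b (pot a v W l ω) x - 1|
        · rw [if_pos h8, one_mul, mul_one]
          exact h.gb.l2a _ h8.1 x _ (fun y => Hm_Gr' h.net h.η2 h8.1 x y)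
        · rw [if_neg h8]
          simp
    _ = _ := by
        rw [Ex_mul_left, Ex_sum]
        congr 1
        refine Finset.sum_congr rfl fun x _ => ?_
        rw [Ex_mul_left]
        unfold Pr
        congr!

end Pool.Agent.W122.DS.Core
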