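import Pool.Agent.W122.DS.Defs

/-!
# Statements of the elementary lattice estimates
-/

set_option autoImplicit false

namespace Pool.Agent.W122.DS

/-- Masses at most one with total mass at most `K`, summed against the weight
`(1 + |y - x|²)^(-g)`. -/
def StmKL : Prop := ∀ (d : ℕ) (g : ℝ), 1 ≤ d → 0 ≤ g → 2 * g < d → ∃ C : ℝ, 1 ≤ C ∧
  ∀ (Λ : Finset (Lat d)) (x : Lat d) (K : ℝ) (w : Lat d → ℝ), 1 ≤ K → (∀ y, 0 ≤ w y) →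
    (∀ y, w y ≤ 1) → ∑ y ∈ Λ, w y ≤ K →
    ∑ y ∈ Λ, (1 + nsq (y - x)) ^ (-g) * w y ≤ C * K ^ (1 - 2 * g / d)

/-- Logarithms vary slowly. -/
def StmLog : Prop := ∀ (d : ℕ) (ν g : ℝ), 0 < ν → 0 < g → ∃ C : ℝ, 1 ≤ C ∧
  ∀ x y : Lat d, Real.log (Real.exp 1 + √(nsq x)) ^ ν
    ≤ C * Real.log (Real.exp 1 + √(nsq y)) ^ ν * (1 + nsq (y - x)) ^ g

/-- The tail of the union bound. -/
def StmSum : Prop := ∀ d : ℕ, ∃ C : ℝ, 1 ≤ C ∧ ∀ Λ : Finset (Lat d),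
  ∑ x ∈ Λ, Real.exp (-((d + 1 : ℝ) * Real.log (Real.exp 1 + √(nsq x)))) ≤ C

end Pool.Agent.W122.DS
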