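import Pool.Agent.W122.DS.Core
import Pool.Agent.W122.DS.Stm2

/-!
# Finite subsets of the lattice as networks
-/

set_option autoImplicit false
set_option linter.unusedSectionVars false

namespace Pool.Agent.W122.DS.Core

open Finset

variable {d : ℕ}

/-- The adjacency of the lattice on a finite set. -/
noncomputable def Ad (Λ : Finset (Lat d)) (x y : Λ) : ℝ :=
  ∑ i, ((if y.1 = x.1 + Pi.single i 1 then (1 : ℝ) else 0)
    + (if y.1 = x.1 - Pi.single i 1 then (1 : ℝ) else 0))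

/-- The number of edges leaving a finite set. -/
noncomputable def bd (Λ : Finset (Lat d)) (x : Λ) : ℝ :=
  ∑ i, ((if x.1 + Pi.single i 1 ∈ Λ then (0 : ℝ) else 1)
    + (if x.1 - Pi.single i 1 ∈ Λ then (0 : ℝ) else 1))

lemma diff_eq (Λ : Finset (Lat d)) (f : Lat d → ℝ) (c : ℝ) (hf : ∀ y, y ∉ Λ → f y = c)
    (x z : Lat d) : f x - f z = ∑ y : Λ, (if y.1 = z then (1 : ℝ) else 0) * (f x - f y.1)
      + (if z ∈ Λ then (0 : ℝ) else 1) * (f x - c) := by
  by_cases hz : z ∈ Λ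
  · rw [if_pos hz, zero_mul, add_zero, Finset.sum_eq_single (⟨z, hz⟩ : Λ)]
    · simp
    · intro y _ hy
      rw [if_neg (fun h => hy (Subtype.ext h)), zero_mul]
    · intro h
      exact absurd (Finset.mem_univ _) h
  · rw [if_neg hz, one_mul, Finset.sum_eq_zero, zero_add, hf z hz]
    intro y _
    rw [if_neg, zero_mul]
    intro h
    exact hz (h ▸ y.2)

lemma lap_eq (Λ : Finset (Lat d)) (f : Lat d → ℝ) (c : ℝ) (hf : ∀ y, y ∉ Λ → f y = c)
    (x : Λ) : negLap f x.1 = ∑ y : Λ, Ad Λ x y * (f x.1 - f y.1) + bd Λ x * (f x.1 - c) := by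
  unfold negLap Ad bd
  have h1 : ∀ i, 2 * f x.1 - f (x.1 + Pi.single i 1) - f (x.1 - Pi.single i 1)
      = ∑ y : Λ, ((if y.1 = x.1 + Pi.single i 1 then (1 : ℝ) else 0)
        + (if y.1 = x.1 - Pi.single i 1 then (1 : ℝ) else 0)) * (f x.1 - f y.1)
        + ((if x.1 + Pi.single i 1 ∈ Λ then (0 : ℝ) else 1)
        + (if x.1 - Pi.single i 1 ∈ Λ then (0 : ℝ) else 1)) * (f x.1 - c) := by
    intro i
    have h2 := diff_eq Λ f c hf x.1 (x.1 + Pi.single i 1)
    have h3 := diff_eq Λ f c hf x.1 (x.1 - Pi.single i 1)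
    simp only [add_mul, Finset.sum_add_distrib]
    linarith
  rw [Finset.sum_congr rfl fun i _ => h1 i, Finset.sum_add_distrib, Finset.sum_comm,
    ← Finset.sum_mul]
  congr 1
  refine Finset.sum_congr rfl fun y _ => ?_
  rw [Finset.sum_mul]

lemma Hm_lat (Λ : Finset (Lat d)) (f U : Lat d → ℝ) (c : ℝ) (hf : ∀ y, y ∉ Λ → f y = c)
    (x : Λ) : Hm (Ad Λ) (bd Λ) (fun y => U y.1) (fun y => f y.1) x
      = negLap f x.1 + U x.1 * f x.1 + c * bd Λ x := by
  rw [lap_eq Λ f c hf x]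
  unfold Hm
  ring

/-- The maximum principle. -/
lemma max_pr (hd : 1 ≤ d) (Λ : Finset (Lat d)) (f : Lat d → ℝ) (hf : ∀ y, y ∉ Λ → f y = 0)
    (h : ∀ x ∈ Λ, negLap f x = 0) (x : Lat d) : f x ≤ 0 := by
  by_contra hc
  push Not at hc
  have hx : x ∈ Λ := by
    by_contra h1
    rw [hf x h1] at hc
    exact lt_irrefl _ hc
  obtain ⟨m, hm, hmax⟩ := Finset.exists_max_image Λ f ⟨x, hx⟩
  have hM : 0 < f m := hc.trans_le (hmax x hx)
  have hall : ∀ y, f y ≤ f m := by
    intro y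
    by_cases hy : y ∈ Λ
    · exact hmax y hy
    · rw [hf y hy]
      exact hM.le
  set i0 : Fin d := ⟨0, hd⟩
  obtain ⟨z, hz, hzmax⟩ := Finset.exists_max_image (Λ.filter fun y => f y = f m)
    (fun y => y i0) ⟨m, Finset.mem_filter.2 ⟨hm, rfl⟩⟩
  obtain ⟨hz1, hz2⟩ := Finset.mem_filter.1 hz
  have h1 := h z hz1
  unfold negLap at h1
  have h2 : ∀ i ∈ (Finset.univ : Finset (Fin d)),
      0 ≤ 2 * f z - f (z + Pi.single i 1) - f (z - Pi.single i 1) := by
    intro i _
    have h3 := hall (z + Pi.single i 1)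
    have h4 := hall (z - Pi.single i 1)
    linarith
  have h3 := (Finset.sum_eq_zero_iff_of_nonneg h2).1 h1 i0 (Finset.mem_univ _)
  have h4 : f (z + Pi.single i0 1) = f m := by
    have h5 := hall (z + Pi.single i0 1)
    have h6 := hall (z - Pi.single i0 1)
    linarith
  have h5 : z + Pi.single i0 1 ∈ Λ.filter fun y => f y = f m := by
    refine Finset.mem_filter.2 ⟨?_, h4⟩
    by_contra h6
    rw [hf _ h6] at h4
    linarith
  have h6 := hzmax _ h5
  simp only [Pi.add_apply, Pi.single_eq_same] at h6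
  omega

lemma negLap_neg (f : Lat d → ℝ) (x : Lat d) : negLap (fun y => -f y) x = -negLap f x := by
  unfold negLap
  rw [← Finset.sum_neg_distrib]
  exact Finset.sum_congr rfl fun i _ => by ring

lemma lat_net (hd : 1 ≤ d) (Λ : Finset (Lat d)) : Net (Ad Λ) (bd Λ) where
  symm := by
    intro x y
    unfold Ad
    refine Finset.sum_congr rfl fun i _ => ?_
    have h1 : (y.1 = x.1 + Pi.single i 1) ↔ (x.1 = y.1 - Pi.single i 1) := by
      constructor
      · intro h; rw [h]; abel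
      · intro h; rw [h]; abel
    have h2 : (y.1 = x.1 - Pi.single i 1) ↔ (x.1 = y.1 + Pi.single i 1) := by
      constructor
      · intro h; rw [h]; abel
      · intro h; rw [h]; abel
    simp only [h1, h2]
    ring
  Ann := fun x y => Finset.sum_nonneg fun i _ =>
    add_nonneg (by split_ifs <;> norm_num) (by split_ifs <;> norm_num)
  bnn := fun x => Finset.sum_nonneg fun i _ =>
    add_nonneg (by split_ifs <;> norm_num) (by split_ifs <;> norm_num)
  inj := by
    intro f hf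
    set F : Lat d → ℝ := fun x => if h : x ∈ Λ then f ⟨x, h⟩ else 0 with hF
    have hF0 : ∀ y, y ∉ Λ → F y = 0 := fun y hy => by simp only [hF]; rw [dif_neg hy]
    have hFf : (fun y : Λ => F y.1) = f := by
      funext y
      simp only [hF]
      rw [dif_pos y.2]
    have hlap : ∀ x ∈ Λ, negLap F x = 0 := by
      intro x hx
      have h1 := Hm_lat Λ F 0 0 hF0 ⟨x, hx⟩
      rw [hFf] at h1
      have h2 := hf ⟨x, hx⟩
      have h3 : (fun y : Λ => (0 : Lat d → ℝ) y.1) = 0 := rfl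
      rw [h3, h2] at h1
      simp only [Pi.zero_apply, zero_mul, add_zero] at h1
      exact h1.symm
    intro x
    have h1 := max_pr hd Λ F hF0 hlap x.1
    have h2 := max_pr hd Λ (fun y => -F y) (fun y hy => by rw [hF0 y hy, neg_zero])
      (fun y hy => by rw [negLap_neg, hlap y hy, neg_zero]) x.1
    have h3 : F x.1 = f x := congrFun hFf x
    rw [← h3]
    linarith

/-- The Green function of a good potential on a finite subset of the lattice. -/
lemma lat_green {γ η C : ℝ} (hη : 0 ≤ η) (hG : GreenBound d γ η C) (Λ : Finset (Lat d))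
    (U : Λ → ℝ)
    (hU : Good (Ad Λ) (bd Λ) η U) (x : Λ) (u : Λ → ℝ)
    (hu : ∀ y, Hm (Ad Λ) (bd Λ) U u y = if y = x then 1 else 0) :
    ∑ y : Λ, (1 + nsq (y.1 - x.1)) ^ γ * u y ^ 2 ≤ C := by
  obtain ⟨ψ, h1, h2⟩ := hU
  set Ψ : Lat d → ℝ := fun x => if h : x ∈ Λ then ψ ⟨x, h⟩ else 1 with hΨ
  set Ũ : Lat d → ℝ := fun x => if h : x ∈ Λ then U ⟨x, h⟩ else 0 with hŨ
  set F : Lat d → ℝ := fun x => if h : x ∈ Λ then u ⟨x, h⟩ else 0 with hF
  have e1 : (fun y : Λ => Ψ y.1) = ψ := by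
    funext y; simp only [hΨ]; rw [dif_pos y.2]
  have e2 : (fun y : Λ => Ũ y.1) = U := by
    funext y; simp only [hŨ]; rw [dif_pos y.2]
  have e3 : (fun y : Λ => F y.1) = u := by
    funext y; simp only [hF]; rw [dif_pos y.2]
  have o1 : ∀ y, y ∉ Λ → Ψ y = 1 := fun y hy => by simp only [hΨ]; rw [dif_neg hy]
  have o3 : ∀ y, y ∉ Λ → F y = 0 := fun y hy => by simp only [hF]; rw [dif_neg hy]
  have key := hG Λ Ψ F Ũ x.1 x.2 ?_ ?_ o3 ?_
  · have h3 : ∑ y : Λ, (1 + nsq (y.1 - x.1)) ^ γ * u y ^ 2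
        = ∑ y ∈ Λ, (1 + nsq (y - x.1)) ^ γ * F y ^ 2 := by
      rw [← Finset.sum_coe_sort Λ (fun y => (1 + nsq (y - x.1)) ^ γ * F y ^ 2)]
      refine Finset.sum_congr rfl fun y _ => ?_
      rw [← congrFun e3 y]
    rw [h3]
    exact key
  · intro y
    by_cases hy : y ∈ Λ
    · have := h1 ⟨y, hy⟩
      rw [← congrFun e1 ⟨y, hy⟩] at this
      exact this
    · rw [o1 y hy, sub_self, abs_zero]
      exact hη
  · intro y hy
    have h3 := Hm_lat Λ Ψ Ũ 1 o1 ⟨y, hy⟩
    rw [e1, e2, h2 ⟨y, hy⟩] at h3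
    simp only at h3
    linarith
  · intro y hy
    have h3 := Hm_lat Λ F Ũ 0 o3 ⟨y, hy⟩
    rw [e3, e2, hu ⟨y, hy⟩, zero_mul, add_zero] at h3
    simp only at h3
    rw [← h3]
    by_cases hyx : y = x.1
    · rw [if_pos hyx, if_pos (Subtype.ext hyx)]
    · rw [if_neg hyx, if_neg (fun hh => hyx (congrArg Subtype.val hh))]

end Pool.Agent.W122.DS.Core
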