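import Pool.Agent.W122.DS.Defs

/-!
# Finite networks: the good set of potentials and its structure
-/

set_option autoImplicit false
set_option linter.unusedSectionVars false

namespace Pool.Agent.W122.DS

open Finset

variable {V : Type} [Fintype V] [DecidableEq V]

/-- The operator `L + U` of a network. -/
def Hm (A : V → V → ℝ) (b U f : V → ℝ) (x : V) : ℝ :=
  ∑ y, A x y * (f x - f y) + b x * f x + U x * f x

/-- The hypotheses on the network. -/
structure Net (A : V → V → ℝ) (b : V → ℝ) : Prop where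
  symm : ∀ x y, A x y = A y x
  Ann : ∀ x y, 0 ≤ A x y
  bnn : ∀ x, 0 ≤ b x
  inj : ∀ f : V → ℝ, (∀ x, Hm A b 0 f x = 0) → ∀ x, f x = 0

/-- The good set of potentials. -/
def Good (A : V → V → ℝ) (b : V → ℝ) (η : ℝ) (U : V → ℝ) : Prop :=
  ∃ ψ : V → ℝ, (∀ x, |ψ x - 1| ≤ η) ∧ ∀ x, Hm A b U ψ x = b x

/-- The matrix of the operator. -/
def Mt (A : V → V → ℝ) (b U : V → ℝ) : Matrix V V ℝ :=
  fun x y => (if x = y then (∑ z, A x z + b x + U x) else 0) - A x y

/-- The Green function. -/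
noncomputable def Gr (A : V → V → ℝ) (b U : V → ℝ) : Matrix V V ℝ := (Mt A b U)⁻¹

/-- The solution. -/
noncomputable def psi (A : V → V → ℝ) (b U : V → ℝ) : V → ℝ := (Gr A b U).mulVec b

variable {A : V → V → ℝ} {b : V → ℝ} {η : ℝ}

lemma mulVec_Mt (U f : V → ℝ) (x : V) : (Mt A b U).mulVec f x = Hm A b U f x := by
  unfold Matrix.mulVec dotProduct Mt Hm
  simp only [sub_mul, Finset.sum_sub_distrib, ite_mul, zero_mul, Finset.sum_ite_eq,
    Finset.mem_univ, if_true, mul_sub, ← Finset.sum_mul]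
  ring

lemma mulVec_Mt' (U f : V → ℝ) : (Mt A b U).mulVec f = Hm A b U f :=
  funext fun x => mulVec_Mt U f x

lemma Hm_sub (U f g : V → ℝ) (x : V) : Hm A b U (f - g) x = Hm A b U f x - Hm A b U g x := by
  rw [← mulVec_Mt, ← mulVec_Mt, ← mulVec_Mt, Matrix.mulVec_sub]
  rfl

lemma Hm_smul (U f : V → ℝ) (c : ℝ) (x : V) : Hm A b U (c • f) x = c * Hm A b U f x := by
  rw [← mulVec_Mt, ← mulVec_Mt, Matrix.mulVec_smul]
  rfl

lemma Hm_pot (U U' f : V → ℝ) (x : V) : Hm A b U' f x = Hm A b U f x + (U' x - U x) * f x := by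
  unfold Hm
  ring

/-- The ground state representation. -/
lemma form_id (hN : Net A b) (U ψ g : V → ℝ) (hψ : ∀ x, Hm A b U ψ x = b x) :
    ∑ x, (ψ x * g x) * Hm A b U (fun y => ψ y * g y) x
      = (1 / 2) * ∑ x, ∑ y, A x y * (ψ x * ψ y) * (g x - g y) ^ 2
        + ∑ x, b x * ψ x * g x ^ 2 := by
  have h1 : ∀ x, (ψ x * g x) * Hm A b U (fun y => ψ y * g y) x
      = ∑ y, A x y * (ψ x * ψ y) * (g x ^ 2 - g x * g y) + b x * ψ x * g x ^ 2 := by
    intro x
    have h2 : U x * ψ x = b x - ∑ y, A x y * (ψ x - ψ y) - b x * ψ x := by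
      have := hψ x
      unfold Hm at this
      linarith
    unfold Hm
    have h3 : ∑ y, A x y * (ψ x * ψ y) * (g x ^ 2 - g x * g y)
        = ψ x * g x * ∑ y, A x y * (ψ x * g x - ψ y * g y)
          - g x ^ 2 * ψ x * ∑ y, A x y * (ψ x - ψ y) := by
      rw [Finset.mul_sum, Finset.mul_sum, ← Finset.sum_sub_distrib]
      refine Finset.sum_congr rfl fun y _ => ?_
      ring
    rw [h3]
    have h4 : ψ x * g x * (U x * (ψ x * g x)) = g x ^ 2 * ψ x * (U x * ψ x) := by ring
    rw [mul_add, mul_add, h4, h2]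
    ring
  rw [Finset.sum_congr rfl fun x _ => h1 x, Finset.sum_add_distrib]
  congr 1
  have h5 : ∑ x, ∑ y, A x y * (ψ x * ψ y) * (g x ^ 2 - g x * g y)
      = ∑ x, ∑ y, A x y * (ψ x * ψ y) * (g y ^ 2 - g x * g y) := by
    rw [Finset.sum_comm]
    refine Finset.sum_congr rfl fun x _ => Finset.sum_congr rfl fun y _ => ?_
    rw [hN.symm y x]
    ring
  have h6 : ∑ x, ∑ y, A x y * (ψ x * ψ y) * (g x - g y) ^ 2
      = ∑ x, ∑ y, A x y * (ψ x * ψ y) * (g x ^ 2 - g x * g y)
        + ∑ x, ∑ y, A x y * (ψ x * ψ y) * (g y ^ 2 - g x * g y) := by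
    rw [← Finset.sum_add_distrib]
    refine Finset.sum_congr rfl fun x _ => ?_
    rw [← Finset.sum_add_distrib]
    refine Finset.sum_congr rfl fun y _ => ?_
    ring
  rw [h6, ← h5]
  ring

lemma good_inj (hN : Net A b) (hη : η < 1) {U : V → ℝ} (hU : Good A b η U) (f : V → ℝ)
    (hf : ∀ x, Hm A b U f x = 0) : ∀ x, f x = 0 := by
  obtain ⟨ψ, h1, h2⟩ := hU
  have hpos : ∀ x, 0 < ψ x := fun x => by
    have := (abs_le.1 (h1 x)).1
    linarith
  set g : V → ℝ := fun x => f x / ψ x with hg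
  have hfg : (fun y => ψ y * g y) = f := by
    funext y
    simp only [hg]
    field_simp [(hpos y).ne']
  have h3 := form_id hN U ψ g h2
  rw [hfg] at h3
  have h4 : ∑ x, (ψ x * g x) * Hm A b U f x = 0 :=
    Finset.sum_eq_zero fun x _ => by rw [hf x, mul_zero]
  rw [h4] at h3
  have h5 : ∀ x y, 0 ≤ A x y * (ψ x * ψ y) * (g x - g y) ^ 2 := fun x y =>
    mul_nonneg (mul_nonneg (hN.Ann x y) (mul_pos (hpos x) (hpos y)).le) (sq_nonneg _)
  have h6 : ∀ x, 0 ≤ b x * ψ x * g x ^ 2 := fun x =>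
    mul_nonneg (mul_nonneg (hN.bnn x) (hpos x).le) (sq_nonneg _)
  have h7 : 0 ≤ ∑ x, ∑ y, A x y * (ψ x * ψ y) * (g x - g y) ^ 2 :=
    Finset.sum_nonneg fun x _ => Finset.sum_nonneg fun y _ => h5 x y
  have h8 : 0 ≤ ∑ x, b x * ψ x * g x ^ 2 := Finset.sum_nonneg fun x _ => h6 x
  have h9 : ∑ x, ∑ y, A x y * (ψ x * ψ y) * (g x - g y) ^ 2 = 0 := by linarith
  have h10 : ∑ x, b x * ψ x * g x ^ 2 = 0 := by linarith
  have h11 : ∀ x y, A x y * (g x - g y) = 0 := by
    intro x y
    have e1 := (Finset.sum_eq_zero_iff_of_nonneg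
      (fun x _ => Finset.sum_nonneg fun y _ => h5 x y)).1 h9 x (Finset.mem_univ x)
    have e2 := (Finset.sum_eq_zero_iff_of_nonneg (fun y _ => h5 x y)).1 e1 y (Finset.mem_univ y)
    rcases mul_eq_zero.1 e2 with e3 | e3
    · rcases mul_eq_zero.1 e3 with e4 | e4
      · rw [e4, zero_mul]
      · exact absurd e4 (mul_pos (hpos x) (hpos y)).ne'
    · rw [pow_eq_zero_iff (by norm_num)] at e3
      rw [e3, mul_zero]
  have h12 : ∀ x, b x * g x = 0 := by
    intro x
    have e1 := (Finset.sum_eq_zero_iff_of_nonneg (fun x _ => h6 x)).1 h10 x (Finset.mem_univ x)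
    rcases mul_eq_zero.1 e1 with e3 | e3
    · rcases mul_eq_zero.1 e3 with e4 | e4
      · rw [e4, zero_mul]
      · exact absurd e4 (hpos x).ne'
    · rw [pow_eq_zero_iff (by norm_num)] at e3
      rw [e3, mul_zero]
  have h13 : ∀ x, g x = 0 := by
    apply hN.inj
    intro x
    unfold Hm
    rw [Finset.sum_eq_zero fun y _ => h11 x y, h12 x]
    simp
  intro x
  rw [← congrFun hfg x, h13 x, mul_zero]

lemma good_det (hN : Net A b) (hη : η < 1) {U : V → ℝ} (hU : Good A b η U) :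
    IsUnit (Mt A b U).det := by
  rw [isUnit_iff_ne_zero]
  intro h0
  obtain ⟨v, hv, hv0⟩ := Matrix.exists_mulVec_eq_zero_iff.2 h0
  apply hv
  funext x
  exact good_inj hN hη hU v (fun x => by rw [← mulVec_Mt, hv0]; rfl) x

lemma Mt_mul_Gr (hN : Net A b) (hη : η < 1) {U : V → ℝ} (hU : Good A b η U) :
    Mt A b U * Gr A b U = 1 := Matrix.mul_nonsing_inv _ (good_det hN hη hU)

lemma Gr_mul_Mt (hN : Net A b) (hη : η < 1) {U : V → ℝ} (hU : Good A b η U) :
    Gr A b U * Mt A b U = 1 := Matrix.nonsing_inv_mul _ (good_det hN hη hU)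

lemma Mt_symm (hN : Net A b) (U : V → ℝ) : (Mt A b U).transpose = Mt A b U := by
  ext x y
  simp only [Matrix.transpose_apply, Mt]
  rw [hN.symm y x]
  by_cases h : x = y
  · subst h; rfl
  · rw [if_neg h, if_neg (Ne.symm h)]

lemma Gr_symm (hN : Net A b) (U : V → ℝ) (x y : V) : Gr A b U x y = Gr A b U y x := by
  have : (Gr A b U).transpose = Gr A b U := by
    unfold Gr
    rw [Matrix.transpose_nonsing_inv, Mt_symm hN]
  rw [← Matrix.transpose_apply (Gr A b U), this]

/-- A vector is the Green function applied to its image. -/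
lemma eq_Gr (hN : Net A b) (hη : η < 1) {U : V → ℝ} (hU : Good A b η U) (f : V → ℝ) (x : V) :
    f x = ∑ y, Gr A b U x y * Hm A b U f y := by
  have : (Gr A b U).mulVec ((Mt A b U).mulVec f) = f := by
    rw [Matrix.mulVec_mulVec, Gr_mul_Mt hN hη hU, Matrix.one_mulVec]
  calc f x = (Gr A b U).mulVec ((Mt A b U).mulVec f) x := by rw [this]
    _ = _ := by
      rw [mulVec_Mt']
      rfl

/-- The columns of the Green function. -/
lemma Hm_Gr (hN : Net A b) (hη : η < 1) {U : V → ℝ} (hU : Good A b η U) (x y : V) :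
    Hm A b U (fun z => Gr A b U z x) y = if y = x then 1 else 0 := by
  have h := congrFun (congrFun (Mt_mul_Gr hN hη hU) y) x
  rw [Matrix.one_apply, Matrix.mul_apply] at h
  rw [← mulVec_Mt, ← h]
  rfl

lemma Hm_Gr' (hN : Net A b) (hη : η < 1) {U : V → ℝ} (hU : Good A b η U) (x y : V) :
    Hm A b U (fun z => Gr A b U x z) y = if y = x then 1 else 0 := by
  have : (fun z => Gr A b U x z) = fun z => Gr A b U z x := funext fun z => Gr_symm hN U x z
  rw [this]
  exact Hm_Gr hN hη hU x y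

lemma psi_eq (hN : Net A b) (hη : η < 1) {U : V → ℝ} (hU : Good A b η U) {ψ : V → ℝ}
    (hψ : ∀ x, Hm A b U ψ x = b x) : psi A b U = ψ := by
  funext x
  rw [eq_Gr hN hη hU ψ x]
  unfold psi Matrix.mulVec dotProduct
  exact Finset.sum_congr rfl fun y _ => by rw [hψ y]

lemma psi_spec (hN : Net A b) (hη : η < 1) {U : V → ℝ} (hU : Good A b η U) :
    (∀ x, |psi A b U x - 1| ≤ η) ∧ ∀ x, Hm A b U (psi A b U) x = b x := by
  obtain ⟨ψ, h1, h2⟩ := hU
  rw [psi_eq hN hη ⟨ψ, h1, h2⟩ h2]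
  exact ⟨h1, h2⟩

/-- Comparison of the solutions of two good potentials. -/
lemma psi_sub (hN : Net A b) (hη : η < 1) {U U' : V → ℝ} (hU : Good A b η U)
    (hU' : Good A b η U') (x : V) :
    psi A b U x - psi A b U' x = ∑ y, Gr A b U x y * ((U' y - U y) * psi A b U' y) := by
  have h := eq_Gr hN hη hU (psi A b U - psi A b U') x
  rw [Pi.sub_apply] at h
  rw [h]
  refine Finset.sum_congr rfl fun y _ => ?_
  congr 1
  rw [Hm_sub, (psi_spec hN hη hU).2 y]
  have h2 := (psi_spec hN hη hU').2 y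
  have h3 := Hm_pot (A := A) (b := b) U U' (psi A b U') y
  linarith

lemma good_zero (hη : 0 ≤ η) : Good A b η 0 := by
  refine ⟨fun _ => 1, fun x => by simpa using hη, fun x => ?_⟩
  unfold Hm
  simp

lemma psi_zero (hN : Net A b) (hη0 : 0 ≤ η) (hη : η < 1) : psi A b 0 = fun _ => 1 := by
  apply psi_eq hN hη (good_zero hη0)
  intro x
  unfold Hm
  simp

/-- The change of the solution under a change of the potential at one site. -/
lemma flip (hN : Net A b) (hη : η < 1) {U U' : V → ℝ} (hU : Good A b η U)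
    (z : V) (s : ℝ) (hUU : ∀ y, U' y = U y + if y = z then s else 0)
    (hs : |s| * |Gr A b U z z| ≤ 1 / 10) (hη2 : η ≤ 1 / 10)
    (hB : ∀ x, |psi A b U x - 1| + 5 / 4 * |s| * |Gr A b U x z| ≤ η) :
    Good A b η U' ∧ ∀ x, |psi A b U' x - psi A b U x| ≤ 5 / 4 * |s| * |Gr A b U x z| := by
  set G := Gr A b U with hG
  set ψ := psi A b U with hψd
  obtain ⟨h1, h2⟩ := psi_spec hN hη hU
  have hsG : |s * G z z| ≤ 1 / 10 := by rw [abs_mul]; exact hs
  have hden : 9 / 10 ≤ 1 + s * G z z := by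
    have := (abs_le.1 hsG).1
    linarith
  have hden0 : (0 : ℝ) < 1 + s * G z z := by linarith
  set c : ℝ := s * ψ z / (1 + s * G z z) with hc
  set ψ' : V → ℝ := ψ - c • (fun y => G y z) with hψ'
  have hcb : |c| ≤ 5 / 4 * |s| := by
    rw [hc, abs_div, abs_mul, abs_of_pos hden0, div_le_iff₀ hden0]
    have h3 : |ψ z| ≤ 11 / 10 := by
      have := h1 z
      rw [abs_le] at this ⊢
      constructor <;> linarith [this.1, this.2]
    have h4 := mul_le_mul_of_nonneg_left h3 (abs_nonneg s)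
    have h5 := mul_le_mul_of_nonneg_left hden (by positivity : 0 ≤ 5 / 4 * |s|)
    nlinarith [abs_nonneg s]
  have hdiff : ∀ x, |ψ' x - ψ x| ≤ 5 / 4 * |s| * |G x z| := by
    intro x
    have : ψ' x - ψ x = -(c * G x z) := by
      simp only [hψ', Pi.sub_apply, Pi.smul_apply, smul_eq_mul]
      ring
    rw [this, abs_neg, abs_mul]
    exact mul_le_mul_of_nonneg_right hcb (abs_nonneg _)
  have hsol : ∀ x, Hm A b U' ψ' x = b x := by
    intro x
    rw [Hm_pot U U', hψ', Hm_sub, Hm_smul, h2 x, hG, Hm_Gr hN hη hU z x, ← hG, hUU x]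
    simp only [Pi.sub_apply, Pi.smul_apply, smul_eq_mul]
    by_cases hx : x = z
    · subst hx
      simp only [if_true]
      have : c * (1 + s * G x x) = s * ψ x := by
        rw [hc]
        field_simp
      linear_combination -this
    · simp only [if_neg hx]
      ring
  have hgood : Good A b η U' := by
    refine ⟨ψ', fun x => ?_, hsol⟩
    have h3 := abs_add_le (ψ' x - ψ x) (ψ x - 1)
    have h4 : ψ' x - ψ x + (ψ x - 1) = ψ' x - 1 := by ring
    rw [h4] at h3
    have := hdiff x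
    have := hB x
    linarith
  refine ⟨hgood, fun x => ?_⟩
  rw [psi_eq hN hη hgood hsol]
  exact hdiff x

end Pool.Agent.W122.DS
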