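import Pool.Agent.W122.DS.Defs

/-!
# Statements for the sharpness of the decay exponent
-/

set_option autoImplicit false

namespace Pool.Agent.W122.DS

open MeasureTheory ProbabilityTheory

/-- The box of radius `R` around `z`. -/
noncomputable def boxR {d : ℕ} (z : Lat d) (R : ℕ) : Finset (Lat d) :=
  Fintype.piFinset fun i => Finset.Icc (z i - R) (z i + R)

/-- A test function on a box. -/
def StmTest : Prop := ∀ d : ℕ, 1 ≤ d → ∃ C : ℝ, 1 ≤ C ∧ ∀ (R : ℕ) (z : Lat d), 1 ≤ R →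
  ∃ u : Lat d → ℝ, (∀ x, x ∉ boxR z R → u x = 0) ∧ 0 < ∑ x ∈ boxR z R, u x ^ 2 ∧
    ∑ x ∈ boxR z R, u x * negLap u x ≤ C / R ^ 2 * ∑ x ∈ boxR z R, u x ^ 2

/-- The centres of the bad boxes. -/
noncomputable def ctr (d : ℕ) (n : ℕ) : Lat d := fun i => if i.1 = 0 then (n : ℤ) ^ 2 else 0

/-- The radii of the bad boxes. -/
noncomputable def rad (d : ℕ) (c : ℝ) (n : ℕ) : ℕ := ⌊c * (Real.log n) ^ (1 / (d : ℝ))⌋₊

/-- Almost surely infinitely many of the bad boxes carry only values at most `-c₀`. -/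
def StmBC : Prop := ∀ (d : ℕ) (c₀ p₀ : ℝ), 1 ≤ d → 0 < p₀ → ∃ c : ℝ, 0 < c ∧
  ∀ (Ω : Type) [MeasurableSpace Ω] (P : Measure Ω) [IsProbabilityMeasure P] (ξ : Lat d → Ω → ℝ),
    (∀ x, Measurable (ξ x)) → iIndepFun ξ P → (∀ x, p₀ ≤ P.real {ω | ξ x ω ≤ -c₀}) →
    ∀ᵐ ω ∂P, ∀ N : ℕ, ∃ n : ℕ, N ≤ n ∧ ∀ x ∈ boxR (ctr d n) (rad d c n), ξ x ω ≤ -c₀

/-- The quadratic form of `-Δ + U` takes negative values arbitrarily far out. -/
def NegFar (d : ℕ) (U : Lat d → ℝ) : Prop :=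
  ∀ R : ℝ, ∃ (Λ : Finset (Lat d)) (u : Lat d → ℝ), (∀ x, x ∉ Λ → u x = 0) ∧
    (∀ x ∈ Λ, R ≤ nsq x) ∧ ∑ x ∈ Λ, u x * (negLap u x + U x * u x) < 0

/-- Sharpness: if the disorder decays more slowly than the power `2/d` of the logarithm, no
correction of smaller order makes the operator nonnegative, even outside a finite set. -/
def StmNeg : Prop := ∀ (d : ℕ) (ν κ C c₀ p₀ : ℝ), 1 ≤ d → 0 < ν → ν < 2 / (d : ℝ) → 0 < κ →
  0 < c₀ → 0 < p₀ → ∀ (W : Lat d → ℝ),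
  (∀ x, |W x| ≤ C * (κ / Real.log (Real.exp 1 + √(nsq x)) ^ ν) ^ 2) →
  ∀ (Ω : Type) [MeasurableSpace Ω] (P : Measure Ω) [IsProbabilityMeasure P] (ξ : Lat d → Ω → ℝ),
    (∀ x, Measurable (ξ x)) → iIndepFun ξ P → (∀ x, p₀ ≤ P.real {ω | ξ x ω ≤ -c₀}) →
    ∀ᵐ ω ∂P, NegFar d
      (fun x => κ / Real.log (Real.exp 1 + √(nsq x)) ^ ν * ξ x ω + W x)

end Pool.Agent.W122.DS
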