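import Pool.Agent.W122.DS.Stm3

/-!
# A product tent as a test function on a box
-/

set_option autoImplicit false

namespace Pool.Agent.W122.DS

namespace TestAux

/-- The tent of radius `R`. -/
noncomputable def tent (R : ℕ) (j : ℤ) : ℝ := max 0 ((R : ℝ) + 1 - |(j : ℝ)|)

lemma tent_of_mem (R : ℕ) (j : ℤ) (h1 : -((R : ℤ) + 1) ≤ j) (h2 : j ≤ (R : ℤ) + 1) :
    tent R j = (R : ℝ) + 1 - |(j : ℝ)| := by
  unfold tent
  apply max_eq_right
  have h3 : |(j : ℝ)| ≤ (R : ℝ) + 1 := by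
    rw [abs_le]
    constructor
    · have : ((-((R : ℤ) + 1) : ℤ) : ℝ) ≤ (j : ℝ) := by exact_mod_cast h1
      push_cast at this
      linarith
    · have : (j : ℝ) ≤ (((R : ℤ) + 1 : ℤ) : ℝ) := by exact_mod_cast h2
      push_cast at this
      linarith
  linarith

lemma tent_zero (R : ℕ) (j : ℤ) (h : j ∉ Finset.Icc (-(R : ℤ)) R) : tent R j = 0 := by
  unfold tent
  apply max_eq_left
  rw [Finset.mem_Icc, not_and_or, not_le, not_le] at h
  rcases h with h | h
  · have h2 : j + 1 ≤ -(R : ℤ) := by omega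
    have h3 : ((j : ℝ)) + 1 ≤ -(R : ℝ) := by exact_mod_cast h2
    have h4 := neg_le_abs (j : ℝ)
    linarith
  · have h2 : (R : ℤ) + 1 ≤ j := by omega
    have h3 : (R : ℝ) + 1 ≤ (j : ℝ) := by exact_mod_cast h2
    have h4 := le_abs_self (j : ℝ)
    linarith

/-- The one dimensional energy density. -/
noncomputable def en (R : ℕ) (j : ℤ) : ℝ :=
  tent R j * (2 * tent R j - tent R (j + 1) - tent R (j - 1))

lemma en_zero (R : ℕ) (j : ℤ) (h : j ∈ Finset.Icc (-(R : ℤ)) R) (hj : j ≠ 0) : en R j = 0 := by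
  rw [Finset.mem_Icc] at h
  obtain ⟨h1, h2⟩ := h
  unfold en
  rw [tent_of_mem R j (by omega) (by omega), tent_of_mem R (j + 1) (by omega) (by omega),
    tent_of_mem R (j - 1) (by omega) (by omega)]
  have : 2 * ((R : ℝ) + 1 - |(j : ℝ)|) - ((R : ℝ) + 1 - |((j + 1 : ℤ) : ℝ)|)
      - ((R : ℝ) + 1 - |((j - 1 : ℤ) : ℝ)|) = 0 := by
    rcases lt_or_gt_of_ne hj with h3 | h3
    · have h4 : (j : ℝ) + 1 ≤ 0 := by exact_mod_cast (by omega : j + 1 ≤ 0)
      push_cast
      rw [abs_of_nonpos (by linarith : (j : ℝ) ≤ 0), abs_of_nonpos h4,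
        abs_of_nonpos (by linarith : (j : ℝ) - 1 ≤ 0)]
      ring
    · have h4 : (1 : ℝ) ≤ (j : ℝ) := by exact_mod_cast (by omega : 1 ≤ j)
      push_cast
      rw [abs_of_nonneg (by linarith : (0 : ℝ) ≤ (j : ℝ)),
        abs_of_nonneg (by linarith : (0 : ℝ) ≤ (j : ℝ) + 1),
        abs_of_nonneg (by linarith : (0 : ℝ) ≤ (j : ℝ) - 1)]
      ring
  rw [this, mul_zero]

lemma en_at_zero (R : ℕ) : en R 0 = 2 * ((R : ℝ) + 1) := by
  unfold en
  rw [tent_of_mem R 0 (by omega) (by omega), tent_of_mem R (0 + 1) (by omega) (by omega),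
    tent_of_mem R (0 - 1) (by omega) (by omega)]
  norm_num
  ring

lemma sum_en (R : ℕ) : ∑ j ∈ Finset.Icc (-(R : ℤ)) R, en R j = 2 * ((R : ℝ) + 1) := by
  rw [← en_at_zero R]
  apply Finset.sum_eq_single_of_mem
  · rw [Finset.mem_Icc]; omega
  · intro j hj hj0
    exact en_zero R j hj hj0

lemma cube_le (n : ℕ) : (n : ℝ) ^ 3 / 3 ≤ ∑ k ∈ Finset.range n, ((k : ℝ) + 1) ^ 2 := by
  induction n with
  | zero => simp
  | succ n ih =>
    rw [Finset.sum_range_succ]
    push_cast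
    have hn : (0 : ℝ) ≤ n := Nat.cast_nonneg n
    have h : ((n : ℝ) + 1) ^ 3 / 3 = (n : ℝ) ^ 3 / 3 + (n : ℝ) ^ 2 + n + 1 / 3 := by ring
    rw [h]
    nlinarith [ih]

lemma sum_sq (R : ℕ) :
    ((R : ℝ) + 1) ^ 3 / 3 ≤ ∑ j ∈ Finset.Icc (-(R : ℤ)) R, tent R j ^ 2 := by
  have h1 := cube_le (R + 1)
  push_cast at h1
  refine h1.trans ?_
  rw [← Finset.sum_range_reflect]
  have h2 : ∑ k ∈ Finset.range (R + 1), (((R + 1 - 1 - k : ℕ) : ℝ) + 1) ^ 2
      = ∑ k ∈ Finset.range (R + 1), tent R (k : ℤ) ^ 2 := by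
    apply Finset.sum_congr rfl
    intro k hk
    rw [Finset.mem_range] at hk
    rw [tent_of_mem R k (by omega) (by omega)]
    rw [show (R + 1 - 1 - k : ℕ) = R - k by omega, Nat.cast_sub (by omega)]
    have : |(((k : ℕ) : ℤ) : ℝ)| = (k : ℝ) := by
      rw [abs_of_nonneg] <;> simp
    rw [this]
    ring
  rw [h2]
  have h3 : ∑ k ∈ Finset.range (R + 1), tent R (k : ℤ) ^ 2
      = ∑ j ∈ (Finset.range (R + 1)).map Nat.castEmbedding, tent R j ^ 2 := by
    rw [Finset.sum_map]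
    rfl
  rw [h3]
  apply Finset.sum_le_sum_of_subset_of_nonneg
  · intro j hj
    rw [Finset.mem_map] at hj
    obtain ⟨k, hk, rfl⟩ := hj
    rw [Finset.mem_range] at hk
    rw [Finset.mem_Icc]
    simp only [Nat.castEmbedding_apply]
    omega
  · intro j _ _
    positivity

lemma sum_sq_pos (R : ℕ) : 0 < ∑ j ∈ Finset.Icc (-(R : ℤ)) R, tent R j ^ 2 := by
  refine lt_of_lt_of_le ?_ (sum_sq R)
  positivity

lemma en_le (R : ℕ) (hR : 1 ≤ R) : ∑ j ∈ Finset.Icc (-(R : ℤ)) R, en R j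
    ≤ 6 / (R : ℝ) ^ 2 * ∑ j ∈ Finset.Icc (-(R : ℤ)) R, tent R j ^ 2 := by
  have hR' : (1 : ℝ) ≤ R := by exact_mod_cast hR
  rw [sum_en]
  refine le_trans ?_ (mul_le_mul_of_nonneg_left (sum_sq R) (by positivity))
  rw [div_mul_div_comm, le_div_iff₀ (by positivity)]
  nlinarith [mul_nonneg (by linarith : (0 : ℝ) ≤ (R : ℝ) + 1)
    (by nlinarith : (0 : ℝ) ≤ ((R : ℝ) + 1) ^ 2 - (R : ℝ) ^ 2)]

lemma shift_sum (z : ℤ) (R : ℕ) (f : ℤ → ℝ) :
    ∑ j ∈ Finset.Icc (z - R) (z + R), f (j - z) = ∑ j ∈ Finset.Icc (-(R : ℤ)) R, f j := by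
  apply Finset.sum_bij' (fun j _ => j - z) (fun j _ => j + z)
  · intro j hj
    rw [Finset.mem_Icc] at hj ⊢
    omega
  · intro j hj
    rw [Finset.mem_Icc] at hj ⊢
    omega
  · intro j _
    ring
  · intro j _
    ring
  · intro j _
    rfl

/-- The product of tents. -/
noncomputable def prodTent {d : ℕ} (R : ℕ) (z : Lat d) (x : Lat d) : ℝ :=
  ∏ i, tent R (x i - z i)

lemma prodTent_zero {d : ℕ} (R : ℕ) (z x : Lat d) (h : x ∉ boxR z R) : prodTent R z x = 0 := by
  unfold boxR at h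
  rw [Fintype.mem_piFinset] at h
  push Not at h
  obtain ⟨i, hi⟩ := h
  unfold prodTent
  apply Finset.prod_eq_zero (Finset.mem_univ i)
  apply tent_zero
  intro h2
  apply hi
  rw [Finset.mem_Icc] at h2 ⊢
  omega

lemma sum_prodTent {d : ℕ} (R : ℕ) (z : Lat d) :
    ∑ x ∈ boxR z R, prodTent R z x ^ 2
      = (∑ j ∈ Finset.Icc (-(R : ℤ)) R, tent R j ^ 2) ^ d := by
  unfold boxR prodTent
  have h := Finset.prod_univ_sum (fun i : Fin d => Finset.Icc (z i - R) (z i + R))
    (fun i j => tent R (j - z i) ^ 2)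
  simp_rw [← Finset.prod_pow]
  rw [← h]
  simp_rw [shift_sum _ R (fun j => tent R j ^ 2)]
  simp

lemma prodTent_shift {d : ℕ} (R : ℕ) (z x : Lat d) (i : Fin d) (s : ℤ) :
    prodTent R z (x + Pi.single i s)
      = tent R (x i - z i + s) * ∏ k ∈ Finset.univ.erase i, tent R (x k - z k) := by
  unfold prodTent
  rw [← Finset.mul_prod_erase Finset.univ _ (Finset.mem_univ i)]
  congr 1
  · simp only [Pi.add_apply, Pi.single_eq_same]
    congr 1
    ring
  · apply Finset.prod_congr rfl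
    intro k hk
    rw [Finset.mem_erase] at hk
    simp [Pi.single_eq_of_ne hk.1]

lemma term_eq {d : ℕ} (R : ℕ) (z x : Lat d) (i : Fin d) :
    prodTent R z x * (2 * prodTent R z x - prodTent R z (x + Pi.single i 1)
      - prodTent R z (x - Pi.single i 1))
      = ∏ k, (if k = i then en R (x k - z k) else tent R (x k - z k) ^ 2) := by
  have h0 : prodTent R z x
      = tent R (x i - z i) * ∏ k ∈ Finset.univ.erase i, tent R (x k - z k) := by
    have := prodTent_shift R z x i 0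
    simpa using this
  have h1 := prodTent_shift R z x i 1
  have h2 := prodTent_shift R z x i (-1)
  have h3 : x + Pi.single i (-1 : ℤ) = x - Pi.single i 1 := by
    rw [Pi.single_neg, sub_eq_add_neg]
  rw [h3] at h2
  rw [h0, h1, h2]
  rw [← Finset.mul_prod_erase Finset.univ _ (Finset.mem_univ i), if_pos rfl]
  have h4 : ∏ k ∈ Finset.univ.erase i,
      (if k = i then en R (x k - z k) else tent R (x k - z k) ^ 2)
      = (∏ k ∈ Finset.univ.erase i, tent R (x k - z k)) ^ 2 := by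
    rw [← Finset.prod_pow]
    apply Finset.prod_congr rfl
    intro k hk
    rw [Finset.mem_erase] at hk
    rw [if_neg hk.1]
  rw [h4]
  unfold en
  rw [show x i - z i - 1 = x i - z i + -1 by ring]
  ring

lemma sum_term {d : ℕ} (R : ℕ) (z : Lat d) (i : Fin d) :
    ∑ x ∈ boxR z R, prodTent R z x * (2 * prodTent R z x - prodTent R z (x + Pi.single i 1)
      - prodTent R z (x - Pi.single i 1))
      = (∑ j ∈ Finset.Icc (-(R : ℤ)) R, en R j)
        * (∑ j ∈ Finset.Icc (-(R : ℤ)) R, tent R j ^ 2) ^ (d - 1) := by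
  simp_rw [term_eq]
  unfold boxR
  have h := Finset.prod_univ_sum (fun i : Fin d => Finset.Icc (z i - R) (z i + R))
    (fun k j => if k = i then en R (j - z k) else tent R (j - z k) ^ 2)
  rw [← h]
  rw [← Finset.mul_prod_erase Finset.univ _ (Finset.mem_univ i)]
  congr 1
  · simp only [if_true]
    exact shift_sum _ R (fun j => en R j)
  · have h5 : ∀ k ∈ Finset.univ.erase i,
        ∑ j ∈ Finset.Icc (z k - R) (z k + R),
          (if k = i then en R (j - z k) else tent R (j - z k) ^ 2)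
        = ∑ j ∈ Finset.Icc (-(R : ℤ)) R, tent R j ^ 2 := by
      intro k hk
      rw [Finset.mem_erase] at hk
      simp only [if_neg hk.1]
      exact shift_sum _ R (fun j => tent R j ^ 2)
    rw [Finset.prod_congr rfl h5, Finset.prod_const, Finset.card_erase_of_mem (Finset.mem_univ i),
      Finset.card_univ, Fintype.card_fin]

end TestAux

open TestAux in
theorem stmTest : StmTest := by
  intro d hd
  have hd' : (1 : ℝ) ≤ d := by exact_mod_cast hd
  refine ⟨6 * d, by linarith, fun R z hR => ⟨prodTent R z, fun x hx => prodTent_zero R z x hx,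
    ?_, ?_⟩⟩
  · rw [sum_prodTent]
    exact pow_pos (sum_sq_pos R) d
  · have h1 : ∑ x ∈ boxR z R, prodTent R z x * negLap (prodTent R z) x
        = ∑ i : Fin d, ∑ x ∈ boxR z R, prodTent R z x * (2 * prodTent R z x
          - prodTent R z (x + Pi.single i 1) - prodTent R z (x - Pi.single i 1)) := by
      rw [Finset.sum_comm]
      apply Finset.sum_congr rfl
      intro x _
      unfold negLap
      rw [Finset.mul_sum]
    rw [h1]
    simp_rw [sum_term]
    rw [Finset.sum_const, Finset.card_univ, Fintype.card_fin, nsmul_eq_mul, sum_prodTent]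
    have h2 := en_le R hR
    have h3 := sum_sq_pos R
    set S := ∑ j ∈ Finset.Icc (-(R : ℤ)) R, tent R j ^ 2 with hS
    have h4 : S ^ d = S * S ^ (d - 1) := by
      rw [← pow_succ', Nat.sub_add_cancel hd]
    rw [h4]
    have h5 : (∑ j ∈ Finset.Icc (-(R : ℤ)) R, en R j) * S ^ (d - 1)
        ≤ 6 / (R : ℝ) ^ 2 * S * S ^ (d - 1) :=
      mul_le_mul_of_nonneg_right h2 (pow_nonneg h3.le _)
    calc (d : ℝ) * ((∑ j ∈ Finset.Icc (-(R : ℤ)) R, en R j) * S ^ (d - 1))
        ≤ d * (6 / (R : ℝ) ^ 2 * S * S ^ (d - 1)) :=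
          mul_le_mul_of_nonneg_left h5 (by linarith)
      _ = 6 * d / (R : ℝ) ^ 2 * (S * S ^ (d - 1)) := by ring

end Pool.Agent.W122.DS
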